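import Mathlib
import Pool.Agent.Q137.Shifts.Shift

/-!
# One more factor: the entropy of a product of independent random integers
-/

set_option autoImplicit false

namespace Q137.KF

open Finset Pool.Agent.Y359.PE Q137.Shifts
open scoped Classical Pointwise

variable {α β κ : Type*}

/-- if `g` determines `f` up to two values, the entropy of `f` is at most that of `g` plus `log 2` -/
lemma h_two {γ : Type*} (S : Finset α) (hS : S.Nonempty) (f : α → γ) {δ : Type*} (g : α → δ)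
    (h2 : ∀ x ∈ S, ∃ u v : γ, ∀ y ∈ cl S g x, f y = u ∨ f y = v) :
    h S f ≤ h S g + Real.log 2 := by
  have h1 : h S f ≤ h S (fun x => (g x, f x)) :=
    h_mono S f _ fun x _ y _ hxy => (Prod.mk.inj hxy).2
  have h3 := chain S g f
  have hSc : (0 : ℝ) < S.card := by exact_mod_cast card_pos.2 hS
  have h4 : (∑ x ∈ S, h (cl S g x) f) / S.card ≤ Real.log 2 := by
    rw [div_le_iff₀ hSc]
    calc ∑ x ∈ S, h (cl S g x) f ≤ ∑ _x ∈ S, Real.log 2 := by
          refine sum_le_sum fun x hx => ?_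
          have hne : (cl S g x).Nonempty := ⟨x, mem_cl.2 ⟨hx, rfl⟩⟩
          refine (h_le_log hne f).trans ?_
          refine Real.log_le_log (by exact_mod_cast card_pos.2 (hne.image _)) ?_
          obtain ⟨u, v, huv⟩ := h2 x hx
          have hsub : (cl S g x).image f ⊆ {u, v} := by
            intro z hz
            rw [mem_image] at hz
            obtain ⟨y, hy, rfl⟩ := hz
            rw [mem_insert, mem_singleton]
            exact huv y hy
          exact_mod_cast (card_le_card hsub).trans card_le_two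
      _ = Real.log 2 * S.card := by rw [sum_const, nsmul_eq_mul, mul_comm]
  linarith

/-- the exponents above `Q`, with an arbitrary shift `e` -/
noncomputable def X' (Q : ℕ) (e : ℕ → ℤ) (a : ℤ) (p : ℕ) : ℤ := U Q a p - e p

/-- lower bound -/
lemma low {Q : ℕ} (hQ : Q ≠ 0) (S : Finset α) (hS : S.Nonempty) (f : α → ℤ)
    (hf : ∀ s ∈ S, f s ≠ 0) (e : ℕ → ℤ) (J : Finset ℕ)
    (hJ : ∀ s ∈ S, ∀ p, p ∉ J → fa (f s) p = 0) :
    h S f - Real.log 2 ≤
      h S (fun s => (W Q (f s), mk J (fun s => X' Q e (f s)) s)) := by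
  have := h_two S hS f (fun s => (W Q (f s), mk J (fun s => X' Q e (f s)) s)) (by
    intro x hx
    refine ⟨f x, - f x, fun y hy => ?_⟩
    rw [mem_cl, Prod.mk.injEq, mk_eq_iff] at hy
    have h2 := natAbs_eq hQ J (hf y hy.1) (hf x hx) (hJ y hy.1) (hJ x hx) hy.2.1 (fun p hp => by
      have := hy.2.2 p hp
      unfold X' at this
      linarith)
    omega)
  linarith

/-- upper bound -/
lemma up (Q : ℕ) (S : Finset α) (f : α → ℤ) (e : ℕ → ℤ)
    (J : Finset ℕ) :
    h S (fun s => (W Q (f s), mk J (fun s => X' Q e (f s)) s)) - h S (fun s => W Q (f s)) ≤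
      h S f := by
  have h1 : h S (fun s => (W Q (f s), mk J (fun s => X' Q e (f s)) s)) ≤
      h S (fun s => (W Q (f s), f s)) := by
    refine h_mono _ _ _ ?_
    intro s _ t _ hst
    rw [Prod.mk.injEq] at hst
    rw [Prod.mk.injEq, mk_eq_iff]
    refine ⟨hst.1, fun p _ => ?_⟩
    rw [hst.2]
  have h2 := h_pair_le S (fun s => W Q (f s)) f
  linarith

/-- the entropy of the common part with `Q` -/
lemma hW {Q : ℕ} (hQ : Q ≠ 0) (S : Finset α) (hS : S.Nonempty) (f : α → ℤ) :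
    h S (fun s => W Q (f s)) ≤ Real.log Q.divisors.card := by
  refine h_le_card hS _ _ fun a _ => ?_
  rw [Nat.mem_divisors]
  exact ⟨Nat.gcd_dvd_right _ _, hQ⟩

/-- the sums are determined by the product -/
lemma upprod {Q : ℕ} (hQ : Q ≠ 0) (S : Finset α) (B : Finset ℤ) (f : α → ℤ)
    (hf : ∀ s ∈ S, f s ≠ 0) (hB0 : (0 : ℤ) ∉ B) (e e' : ℕ → ℤ) (J : Finset ℕ) :
    h (S ×ˢ B) (fun s => ((W Q (f s.1), W Q s.2),
      mk J (fun s : α × ℤ => (fun u => X' Q e (f u)) s.1 + X' Q e' s.2) s)) -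
      h (S ×ˢ B) (fun s => (W Q (f s.1), W Q s.2)) ≤ h (S ×ˢ B) (fun s => f s.1 * s.2) := by
  have h1 : h (S ×ˢ B) (fun s => ((W Q (f s.1), W Q s.2),
      mk J (fun s : α × ℤ => (fun u => X' Q e (f u)) s.1 + X' Q e' s.2) s)) ≤
      h (S ×ˢ B) (fun s => ((W Q (f s.1), W Q s.2), f s.1 * s.2)) := by
    refine h_mono _ _ _ ?_
    intro s hs t ht hst
    rw [Prod.mk.injEq, Prod.mk.injEq] at hst
    rw [Prod.mk.injEq, Prod.mk.injEq, mk_eq_iff]
    refine ⟨hst.1, fun p _ => ?_⟩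
    rw [mem_product] at hs ht
    have n1 := hf s.1 hs.1
    have n2 : s.2 ≠ 0 := fun h => hB0 (h ▸ hs.2)
    have n3 := hf t.1 ht.1
    have n4 : t.2 ≠ 0 := fun h => hB0 (h ▸ ht.2)
    show X' Q e (f s.1) p + X' Q e' s.2 p = X' Q e (f t.1) p + X' Q e' t.2 p
    unfold X' U
    rw [← fact_W hQ n1, ← fact_W hQ n2, ← fact_W hQ n3, ← fact_W hQ n4, hst.1.1, hst.1.2]
    have e1 := fa_mul n1 n2 p
    have e2 := fa_mul n3 n4 p
    rw [hst.2, e2] at e1
    have e3 : (fa (f t.1) p : ℤ) + fa t.2 p = fa (f s.1) p + fa s.2 p := by exact_mod_cast e1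
    linarith
  have h2 := h_pair_le (S ×ˢ B) (fun s => (W Q (f s.1), W Q s.2)) (fun s : α × ℤ => f s.1 * s.2)
  linarith

/-- **One more factor** -/
theorem step {κ : Type*} (Q : ℕ) (hQ : Q ≠ 0) (S : Finset α) (hS : S.Nonempty) (f : α → ℤ)
    (hf : ∀ s ∈ S, f s ≠ 0) (e : ℕ → ℤ) (T : Finset κ) (B : κ → Finset ℤ)
    (hB : ∀ t ∈ T, (B t).Nonempty) (hB0 : ∀ t ∈ T, (0 : ℤ) ∉ B t) (e' : κ → ℕ → ℤ)
    {τ θ N : ℝ} (hτ : 0 ≤ τ) (hθ : 0 < θ) (hθ1 : θ ≤ 1 / 9)
    (hκ : 4 / Real.log (1 / θ) + τ / θ ≤ 1) (hN : 0 ≤ N)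
    (hJ : ∀ p : ℕ, p.Prime → ((T.filter fun t =>
      ¬ ((((B t).filter fun b => U Q b p ≠ e' t p).card : ℝ) ≤ τ * (B t).card) ∧
      ¬ (((S.filter fun s => U Q (f s) p ≠ e p).card : ℝ) ≤ τ * S.card)).card : ℝ) ≤ N) :
    ∃ R : κ → ℝ, (∀ t ∈ T, 0 ≤ R t) ∧
      (∀ t ∈ T, (1 - 4 / Real.log (1 / θ) - τ / θ) *
        (h S f + Real.log (B t).card - 2 * Real.log (2 * Q.divisors.card)) - R t ≤
        h (S ×ˢ B t) (fun s => f s.1 * s.2)) ∧
      ∑ t ∈ T, R t ≤ N * h S f := by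
  set J : Finset ℕ := pr (S.image f) ∪ T.biUnion fun t => pr (B t) with hJd
  have hJp : ∀ p ∈ J, p.Prime := by
    intro p hp
    rw [hJd, mem_union, mem_biUnion] at hp
    rcases hp with hp | ⟨t, _, hp⟩
    · exact prime_of_mem_pr hp
    · exact prime_of_mem_pr hp
  have nzS : ∀ p : ℕ, nz S (fun a => X' Q e (f a) p) =
      (S.filter fun s => U Q (f s) p ≠ e p).card := by
    intro p
    refine nz_eq _ _ _ fun a => ?_
    rw [mem_filter]
    unfold X'
    rw [sub_ne_zero]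
  have nzB : ∀ (t : κ) (p : ℕ), nz (B t) (fun a => X' Q (e' t) a p) =
      ((B t).filter fun b => U Q b p ≠ e' t p).card := by
    intro t p
    refine nz_eq _ _ _ fun a => ?_
    rw [mem_filter]
    unfold X'
    rw [sub_ne_zero]
  obtain ⟨R, hR0, hR1, hR2⟩ := master S hS (fun s => W Q (f s)) (fun s => X' Q e (f s)) T B hB
    (fun _ => W Q) (fun t => X' Q (e' t)) hτ hθ hθ1 J (N := N) (fun p hp => by
      have := hJ p (hJp p hp)
      simp only [nzS, nzB]
      exact this)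
  have hD : (1 : ℝ) ≤ Q.divisors.card := by
    have : 0 < Q.divisors.card := card_pos.2 ⟨1, Nat.one_mem_divisors.2 hQ⟩
    exact_mod_cast this
  have hlog2D : Real.log (2 * Q.divisors.card) = Real.log 2 + Real.log Q.divisors.card :=
    Real.log_mul (by norm_num) (by linarith)
  have hSJ : ∀ s ∈ S, ∀ p, p ∉ J → fa (f s) p = 0 := by
    intro a ha p hp
    refine fa_eq_zero (mem_image_of_mem f ha) fun h => hp ?_
    rw [hJd, mem_union]
    exact Or.inl h
  have hBJ : ∀ t ∈ T, ∀ a ∈ B t, ∀ p, p ∉ J → fa a p = 0 := by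
    intro t ht a ha p hp
    refine fa_eq_zero ha fun h => hp ?_
    rw [hJd, mem_union, mem_biUnion]
    exact Or.inr ⟨t, ht, h⟩
  refine ⟨R, hR0, fun t ht => ?_, ?_⟩
  · have h1 := hR1 t ht
    have h2 := upprod hQ S (B t) f hf (hB0 t ht) e (e' t) J
    have h3 := low hQ S hS f hf e J hSJ
    have h4 := low hQ (B t) (hB t ht) (fun b => b) (fun b hb h => hB0 t ht (h ▸ hb)) (e' t) J
      (hBJ t ht)
    have h4' : h (B t) (fun b : ℤ => b) = Real.log (B t).card := by
      unfold h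
      have hc : (0 : ℝ) < (B t).card := by exact_mod_cast card_pos.2 (hB t ht)
      have hfc : ∀ x ∈ B t, fc (B t) (fun b : ℤ => b) x = 1 := by
        intro x hx
        unfold fc
        rw [card_eq_one]
        refine ⟨x, ?_⟩
        ext y
        rw [mem_cl, mem_singleton]
        constructor
        · exact fun h => h.2
        · rintro rfl
          exact ⟨hx, rfl⟩
      rw [div_eq_iff hc.ne', sum_congr rfl fun x hx => by rw [hfc x hx, Nat.cast_one, Real.log_one,
        sub_zero], sum_const, nsmul_eq_mul, mul_comm]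
    rw [h4'] at h4
    have h5 := hW hQ S hS f
    have h6 := hW hQ (B t) (hB t ht) (fun b => b)
    refine le_trans ?_ (h1.trans h2)
    refine sub_le_sub_right (mul_le_mul_of_nonneg_left ?_ (by linarith)) _
    rw [hlog2D]
    linarith
  · refine hR2.trans (mul_le_mul_of_nonneg_left ?_ hN)
    exact up Q S f e J

end Q137.KF
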