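import Mathlib
import Pool.Agent.Q137.KF.Step
import Pool.Agent.H510R2.Div

/-!
# The exceptional shifts at one stage
-/

set_option autoImplicit false

namespace Q137.KF

open Finset Pool.Agent.Y359.PE Q137.Shifts
open scoped Classical Pointwise

variable {α : Type*}

/-- the product of the differences of a set of integers -/
noncomputable def QT (T : Finset ℤ) : ℕ := ∏ s ∈ T, ∏ t ∈ T.erase s, (t - s).natAbs

lemma QT_ne_zero (T : Finset ℤ) : QT T ≠ 0 := by
  unfold QT
  rw [prod_ne_zero_iff]
  intro s _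
  rw [prod_ne_zero_iff]
  intro t ht
  rw [mem_erase] at ht
  rw [Int.natAbs_ne_zero, sub_ne_zero]
  exact ht.1

lemma dvd_QT (T : Finset ℤ) : ∀ s ∈ T, ∀ t ∈ T, s ≠ t → t - s ∣ ((QT T : ℕ) : ℤ) := by
  intro s hs t ht hst
  rw [← Int.natAbs_dvd_natAbs, Int.natAbs_natCast]
  unfold QT
  refine dvd_trans ?_ (dvd_prod_of_mem _ hs)
  exact dvd_prod_of_mem (fun t : ℤ => (t - s).natAbs) (mem_erase.2 ⟨fun h => hst h.symm, ht⟩)

lemma QT_le (T : Finset ℤ) (M : ℕ) (hM : 1 ≤ M) (hT : ∀ t ∈ T, |t| ≤ M) :
    QT T ≤ (2 * M) ^ (T.card ^ 2) := by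
  unfold QT
  calc ∏ s ∈ T, ∏ t ∈ T.erase s, (t - s).natAbs
      ≤ ∏ s ∈ T, (2 * M) ^ T.card := by
        refine prod_le_prod' fun s hs => ?_
        calc ∏ t ∈ T.erase s, (t - s).natAbs ≤ ∏ t ∈ T.erase s, 2 * M := by
              refine prod_le_prod' fun t ht => ?_
              have h1 := hT s hs
              have h2 := hT t (mem_of_mem_erase ht)
              have h3 : |t - s| ≤ 2 * M := by
                have := abs_sub t s
                linarith
              rw [Int.abs_eq_natAbs] at h3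
              exact_mod_cast h3
          _ = (2 * M) ^ (T.erase s).card := by rw [prod_const]
          _ ≤ (2 * M) ^ T.card :=
              Nat.pow_le_pow_right (by omega) (card_le_card (erase_subset _ _))
    _ = (2 * M) ^ (T.card ^ 2) := by
        rw [prod_const, ← pow_mul, sq]

/-- **One stage.** -/
theorem stage (δ : ℝ) (hδ : 0 < δ) (hδ1 : δ ≤ 1) : ∃ c : ℝ, 0 ≤ c ∧ ∀ M : ℕ, 1 ≤ M →
    ∀ T : Finset ℤ, (∀ t ∈ T, |t| ≤ M) → ∀ (α : Type) (S : Finset α), S.Nonempty →
    ∀ f : α → ℤ, (∀ s ∈ S, f s ≠ 0) → ∀ B : Finset ℤ, B.Nonempty →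
    ((T.filter fun t => ¬ (B.card ≤ 2 * (tr B t).card ∧
      (1 - δ) * (h S f + Real.log B.card) - (c + δ * Real.log M) ≤
      h (S ×ˢ tr B t) (fun s => f s.1 * s.2))).card : ℝ) ≤ Real.exp (22 / δ) := by
  -- the parameters
  set n0 : ℕ := ⌊Real.exp (22 / δ)⌋₊ + 1 with hn0
  have hn0' : Real.exp (22 / δ) < n0 := by
    rw [hn0]
    push_cast
    exact Nat.lt_floor_add_one _
  have hn0pos : (0 : ℝ) < n0 := lt_trans (Real.exp_pos _) hn0'
  set η : ℝ := δ / (2 * (n0 : ℝ) ^ 2) with hη
  have hη0 : 0 < η := by positivity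
  obtain ⟨C, hC0, hC⟩ := Pool.Agent.H510R2.divisor_bound η hη0
  have hC1 : 1 ≤ C := by
    have := hC 1 le_rfl
    simpa using this
  have hlC : 0 ≤ Real.log C := Real.log_nonneg hC1
  have hl2 : 0 ≤ Real.log 2 := Real.log_nonneg (by norm_num)
  refine ⟨3 * Real.log 2 + 2 * Real.log C + δ * Real.log 2, by positivity, ?_⟩
  intro M hM T hT α S hS f hf B hB
  have hMR : (1 : ℝ) ≤ M := by exact_mod_cast hM
  have hlM : 0 ≤ Real.log M := Real.log_nonneg hMR
  by_contra hcon
  rw [not_le] at hcon
  set Bad := T.filter fun t => ¬ (B.card ≤ 2 * (tr B t).card ∧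
      (1 - δ) * (h S f + Real.log B.card) - ((3 * Real.log 2 + 2 * Real.log C + δ * Real.log 2) +
        δ * Real.log M) ≤ h (S ×ˢ tr B t) (fun s => f s.1 * s.2)) with hBad
  have hn0le : n0 ≤ Bad.card := by
    rw [hn0, Nat.add_one_le_iff, Nat.floor_lt (Real.exp_pos _).le]
    exact hcon
  obtain ⟨T1, hT1sub, hT1card⟩ := exists_subset_card_eq hn0le
  have hT1T : T1 ⊆ T := hT1sub.trans (filter_subset _ _)
  set Q := QT T1 with hQd
  have hQ : Q ≠ 0 := QT_ne_zero T1
  have hTQ : ∀ s ∈ T1, ∀ t ∈ T1, s ≠ t → t - s ∣ (Q : ℤ) := dvd_QT T1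
  have hQle : Q ≤ (2 * M) ^ (n0 ^ 2) := by
    rw [← hT1card]
    exact QT_le T1 M hM fun t ht => hT t (hT1T ht)
  have hD : (1 : ℝ) ≤ Q.divisors.card := by
    have : 0 < Q.divisors.card := card_pos.2 ⟨1, Nat.one_mem_divisors.2 hQ⟩
    exact_mod_cast this
  have hlD : 2 * Real.log Q.divisors.card ≤
      2 * Real.log C + δ * Real.log 2 + δ * Real.log M := by
    have h1 := hC Q (Nat.one_le_iff_ne_zero.2 hQ)
    have hQR : (1 : ℝ) ≤ Q := by exact_mod_cast Nat.one_le_iff_ne_zero.2 hQ
    have hQR0 : (0 : ℝ) < Q := by linarith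
    have h2 : Real.log Q.divisors.card ≤ Real.log C + η * Real.log Q := by
      have := Real.log_le_log (by linarith) h1
      rwa [Real.log_mul hC0.ne' (Real.rpow_pos_of_pos hQR0 _).ne', Real.log_rpow hQR0] at this
    have h3 : Real.log Q ≤ (n0 : ℝ) ^ 2 * (Real.log 2 + Real.log M) := by
      have : (Q : ℝ) ≤ (2 * (M : ℝ)) ^ (n0 ^ 2) := by exact_mod_cast hQle
      have := Real.log_le_log hQR0 this
      rw [Real.log_pow, Real.log_mul (by norm_num) (by linarith)] at this
      push_cast at this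
      exact this
    have h4 : η * Real.log Q ≤ η * ((n0 : ℝ) ^ 2 * (Real.log 2 + Real.log M)) :=
      mul_le_mul_of_nonneg_left h3 hη0.le
    have h5 : η * ((n0 : ℝ) ^ 2 * (Real.log 2 + Real.log M)) =
        δ / 2 * (Real.log 2 + Real.log M) := by
      rw [hη]
      field_simp
    rw [h5] at h4
    linarith
  have hBpos : (0 : ℝ) < B.card := by exact_mod_cast card_pos.2 hB
  have hB1 : (1 : ℝ) ≤ B.card := by exact_mod_cast card_pos.2 hB
  set T' := T1.filter fun t => B.card ≤ 2 * (tr B t).card with hT'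
  have hT'B : ∀ t ∈ T', (tr B t).Nonempty := by
    intro t ht
    rw [hT', mem_filter] at ht
    have := card_pos.2 hB
    rw [← card_pos]
    omega
  set ℓ := 18 / δ with hℓ
  have hℓ9 : 9 ≤ ℓ := by
    rw [hℓ, le_div_iff₀ hδ]; nlinarith
  obtain ⟨p1, p2, p3⟩ := params' hℓ9
  set θ := 1 / Real.exp (ℓ / 2) with hθ
  set τ := 1 / Real.exp ℓ with hτ
  have hτ0 : 0 < τ := by positivity
  have hκ : 9 / ℓ = δ / 2 := by rw [hℓ]; field_simp; norm_num
  rw [hκ] at p3
  set N := 2 * Real.exp ℓ with hN
  have hN0 : 0 ≤ N := by positivity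
  obtain ⟨R, hR0, hR1, hR2⟩ := step Q hQ S hS f hf (fun _ => 0) T' (tr B) hT'B
    (fun t _ => notMem_erase _ _) (fun _ _ => 0) hτ0.le p1 p2 (by linarith) hN0 (by
      intro p hp
      set S' := T'.filter fun t =>
        ¬ ((((tr B t).filter fun b => U Q b p ≠ 0).card : ℝ) ≤ τ * (tr B t).card) ∧
        ¬ (((S.filter fun s => U Q (f s) p ≠ 0).card : ℝ) ≤ τ * S.card) with hS'
      have h1 := sum_high hQ T1 hTQ B hp S' (((filter_subset _ _).trans (filter_subset _ _)))
      have h2 : (S'.card : ℝ) * (τ * B.card / 2) ≤ B.card := by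
        calc (S'.card : ℝ) * (τ * B.card / 2) = ∑ t ∈ S', τ * B.card / 2 := by
              rw [sum_const, nsmul_eq_mul]
          _ ≤ ∑ t ∈ S', (((tr B t).filter fun b => Q.factorization p < fa b p).card : ℝ) := by
              refine sum_le_sum fun t ht => ?_
              rw [hS', mem_filter] at ht
              have h3 := ht.2.1
              simp only [U_ne_zero] at h3
              push Not at h3
              have h4 := ht.1
              rw [hT', mem_filter] at h4
              have h5 : (B.card : ℝ) ≤ 2 * (tr B t).card := by exact_mod_cast h4.2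
              have h6 : τ * B.card ≤ τ * (2 * (tr B t).card) :=
                mul_le_mul_of_nonneg_left h5 hτ0.le
              linarith
          _ ≤ B.card := by exact_mod_cast h1
      have h3 : (S'.card : ℝ) * (τ / 2) ≤ 1 := by
        have : (S'.card : ℝ) * (τ / 2) * B.card ≤ 1 * B.card := by linarith
        exact le_of_mul_le_mul_right this hBpos
      rw [hN]
      have h4 : τ * Real.exp ℓ = 1 := by
        rw [hτ]
        have := Real.exp_pos ℓ
        field_simp
      have h5 : (S'.card : ℝ) * (τ / 2) * (2 * Real.exp ℓ) ≤ 1 * (2 * Real.exp ℓ) :=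
        mul_le_mul_of_nonneg_right h3 (by positivity)
      have h6 : (S'.card : ℝ) * (τ / 2) * (2 * Real.exp ℓ) = S'.card := by
        have : (S'.card : ℝ) * (τ / 2) * (2 * Real.exp ℓ) = S'.card * (τ * Real.exp ℓ) := by ring
        rw [this, h4, mul_one]
      linarith)
  have hSf0 : 0 ≤ h S f := h_nonneg _ _
  -- every element of `T'` has a large `R`
  have big : ∀ t ∈ T', δ / 2 * h S f < R t := by
    intro t ht
    by_contra hRt
    push Not at hRt
    have h1 := hR1 t ht
    have ht' := ht
    rw [hT', mem_filter] at ht'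
    have hBt : (B.card : ℝ) ≤ 2 * (tr B t).card := by exact_mod_cast ht'.2
    have hBt1 : (1 : ℝ) ≤ (tr B t).card := by exact_mod_cast card_pos.2 (hT'B t ht)
    set lB := Real.log (tr B t).card with hlB
    have hlB0 : 0 ≤ lB := Real.log_nonneg hBt1
    set y := 2 * Real.log (2 * (Q.divisors.card : ℝ)) with hyd
    have hy2 : y = 2 * Real.log 2 + 2 * Real.log Q.divisors.card := by
      rw [hyd, Real.log_mul (by norm_num) (by linarith)]
      ring
    have hy : 0 ≤ y := by
      have := Real.log_nonneg (show (1 : ℝ) ≤ 2 * Q.divisors.card by linarith)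
      rw [hyd]; linarith
    set κ := 4 / Real.log (1 / θ) + τ / θ with hκd
    have hκ0 : 0 ≤ κ := by
      have : 0 ≤ Real.log (1 / θ) := Real.log_nonneg (by rw [le_div_iff₀ p1]; linarith)
      positivity
    have h2 : (1 - 4 / Real.log (1 / θ) - τ / θ) = 1 - κ := by rw [hκd]; ring
    rw [h2] at h1
    have h3 : (1 - δ) * (h S f + lB) - y ≤ h (S ×ˢ tr B t) (fun s => f s.1 * s.2) := by
      have e1 : (1 - κ) * (h S f + lB - y) - R t ≤ h (S ×ˢ tr B t) (fun s => f s.1 * s.2) := h1
      have e2 : κ * (h S f + lB) ≤ δ / 2 * (h S f + lB) :=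
        mul_le_mul_of_nonneg_right p3 (by linarith)
      have e3 : 0 ≤ κ * y := mul_nonneg hκ0 hy
      have e4 : 0 ≤ δ / 2 * lB := by positivity
      have e5 : (1 - κ) * (h S f + lB - y) = (h S f + lB) - κ * (h S f + lB) - y + κ * y := by ring
      have e6 : (1 - δ) * (h S f + lB) = (h S f + lB) - δ / 2 * (h S f + lB) - δ / 2 * h S f -
        δ / 2 * lB := by ring
      rw [e5] at e1
      rw [e6]
      linarith
    have h6 : Real.log B.card ≤ Real.log 2 + lB := by
      rw [hlB, ← Real.log_mul (by norm_num) (by linarith)]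
      exact Real.log_le_log hBpos hBt
    have h7 : (1 - δ) * (h S f + Real.log B.card) ≤
        (1 - δ) * (h S f + lB) + Real.log 2 := by
      have : (1 - δ) * (h S f + Real.log B.card) ≤ (1 - δ) * (h S f + (Real.log 2 + lB)) :=
        mul_le_mul_of_nonneg_left (by linarith) (by linarith)
      have e7 : (1 - δ) * (h S f + (Real.log 2 + lB)) = (1 - δ) * (h S f + lB) +
        (1 - δ) * Real.log 2 := by ring
      have e8 : (1 - δ) * Real.log 2 ≤ Real.log 2 := mul_le_of_le_one_left hl2 (by linarith)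
      linarith
    have hbad := hT1sub ht'.1
    rw [hBad, mem_filter] at hbad
    apply hbad.2
    refine ⟨ht'.2, ?_⟩
    linarith
  have hone : (T1.filter fun t => ¬ B.card ≤ 2 * (tr B t).card).card ≤ 1 := by
    rw [card_le_one]
    intro s hs t ht
    rw [mem_filter] at hs ht
    have hs1 := card_tr B s
    have ht1 := card_tr B t
    have hBc1 := card_pos.2 hB
    have hB1 : B.card = 1 := by omega
    obtain ⟨b, hb⟩ := card_eq_one.1 hB1
    have key : ∀ u, ¬ B.card ≤ 2 * (tr B u).card → b + u = 0 := by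
      intro u hu
      by_contra hne
      have : (tr B u).card = 1 := by
        unfold tr
        rw [hb, image_singleton, erase_eq_of_notMem, card_singleton]
        rw [mem_singleton]
        exact fun h => hne h.symm
      omega
    have h1 := key s hs.2
    have h2 := key t ht.2
    linarith
  have htwo : (T'.card : ℝ) ≤ 4 * Real.exp (18 / δ) / δ := by
    have h1 : (T'.card : ℝ) * (δ / 2 * h S f) ≤ N * h S f := by
      calc (T'.card : ℝ) * (δ / 2 * h S f) = ∑ t ∈ T', δ / 2 * h S f := by
            rw [sum_const, nsmul_eq_mul]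
        _ ≤ ∑ t ∈ T', R t := sum_le_sum fun t ht => (big t ht).le
        _ ≤ N * h S f := hR2
    rcases hSf0.eq_or_lt with hz | hz
    · have h2 : ∑ t ∈ T', R t ≤ 0 := by
        have := hR2
        rw [← hz, mul_zero] at this
        exact this
      have h3 : T' = ∅ := by
        rw [eq_empty_iff_forall_notMem]
        intro t ht
        have h4 : R t ≤ ∑ t ∈ T', R t := single_le_sum hR0 ht
        have h5 := big t ht
        rw [← hz, mul_zero] at h5
        linarith
      rw [h3]
      simp only [card_empty, Nat.cast_zero]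
      positivity
    · have h2 : (T'.card : ℝ) * (δ / 2) ≤ N := by
        have : (T'.card : ℝ) * (δ / 2) * h S f ≤ N * h S f := by linarith
        exact le_of_mul_le_mul_right this hz
      rw [le_div_iff₀ hδ]
      rw [hN] at h2
      linarith
  have hfin := num_final hδ hδ1
  have hcard : T1.card ≤ T'.card + (T1.filter fun t => ¬ B.card ≤ 2 * (tr B t).card).card := by
    rw [hT', card_filter_add_card_filter_not]
  have hcard2 : (T1.card : ℝ) ≤ T'.card + 1 := by exact_mod_cast hcard.trans (by omega)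
  rw [hT1card] at hcard2
  linarith

end Q137.KF
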