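import Mathlib
import Pool.Agent.Q137.KF.Stage

/-!
# Tuples of shifts
-/

set_option autoImplicit false

namespace Q137.KF

open Finset Pool.Agent.Y359.PE Q137.Shifts
open scoped Classical Pointwise

lemma h_le_log_card {α : Type} (S : Finset α) (hS : S.Nonempty) (f : α → ℤ) (P : Finset ℤ)
    (hP : ∀ s ∈ S, f s ∈ P) : h S f ≤ Real.log P.card := h_le_card hS f P hP

/-- **Tuples of shifts**, entropy form -/
theorem tuples (δ : ℝ) (hδ : 0 < δ) (hδ1 : δ ≤ 1) : ∃ c : ℝ, 0 ≤ c ∧ ∀ M : ℕ, 1 ≤ M →
    ∀ T : Finset ℤ, (∀ t ∈ T, |t| ≤ M) → ∀ m : ℕ, ∀ (α : Type) (S : Finset α), S.Nonempty →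
    ∀ f : α → ℤ, (∀ s ∈ S, f s ≠ 0) → ∀ P : Finset ℤ, (∀ s ∈ S, f s ∈ P) →
    ∀ A : Fin m → Finset ℤ, (∀ i, (A i).Nonempty) →
    (((Fintype.piFinset fun _ : Fin m => T).filter fun t =>
      Real.log (P * ∏ i, (t i +ᵥ A i)).card < (1 - δ) ^ m * (h S f + ∑ i, Real.log (A i).card) -
        m * (c + δ * Real.log M)).card : ℝ) ≤ m * Real.exp (22 / δ) * (T.card : ℝ) ^ (m - 1) := by
  obtain ⟨c, hc0, hc⟩ := stage δ hδ hδ1
  refine ⟨c, hc0, fun M hM T hT m => ?_⟩
  have hlM : 0 ≤ Real.log M := Real.log_nonneg (by exact_mod_cast hM)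
  have hcM : 0 ≤ c + δ * Real.log M := by positivity
  set K := Real.exp (22 / δ) with hK
  have hK0 : 0 < K := Real.exp_pos _
  induction m with
  | zero =>
    intro α S hS f hf P hP A hA
    have hempty : ((Fintype.piFinset fun _ : Fin 0 => T).filter fun t =>
      Real.log (P * ∏ i, (t i +ᵥ A i)).card < (1 - δ) ^ 0 * (h S f + ∑ i, Real.log (A i).card) -
        (0 : ℕ) * (c + δ * Real.log M)) = ∅ := by
      rw [filter_eq_empty_iff]
      intro t _
      rw [not_lt, univ_eq_empty, prod_empty, sum_empty, mul_one]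
      have := h_le_log_card S hS f P hP
      simpa using this
    rw [hempty]
    simp
  | succ m ih =>
    intro α S hS f hf P hP A hA
    set F := (Fintype.piFinset fun _ : Fin (m + 1) => T).filter fun t =>
      Real.log (P * ∏ i, (t i +ᵥ A i)).card <
        (1 - δ) ^ (m + 1) * (h S f + ∑ i, Real.log (A i).card) -
        ((m + 1 : ℕ) : ℝ) * (c + δ * Real.log M) with hF
    have hFT : ∀ t ∈ F, ∀ i, t i ∈ T := by
      intro t ht i
      rw [hF, mem_filter, Fintype.mem_piFinset] at ht
      exact ht.1 i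
    have hmaps : ∀ t ∈ F, t 0 ∈ T := fun t ht => hFT t ht 0
    have hsum : F.card = ∑ u ∈ T, (F.filter fun t => t 0 = u).card :=
      card_eq_sum_card_fiberwise (f := fun t : Fin (m + 1) → ℤ => t 0) (fun t ht => hmaps t ht)
    -- the fibres
    have tail_inj : ∀ u : ℤ, Set.InjOn (fun t : Fin (m + 1) → ℤ => Fin.tail t)
        (F.filter fun t => t 0 = u) := by
      intro u t ht t' ht' htt
      rw [mem_coe, mem_filter] at ht ht'
      have h1 : t = Fin.cons (t 0) (Fin.tail t) := (Fin.cons_self_tail t).symm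
      have h2 : t' = Fin.cons (t' 0) (Fin.tail t') := (Fin.cons_self_tail t').symm
      rw [h1, h2, ht.2, ht'.2]
      simp only at htt
      rw [htt]
    have triv : ∀ u : ℤ, ((F.filter fun t => t 0 = u).card : ℝ) ≤ (T.card : ℝ) ^ m := by
      intro u
      have h1 : (F.filter fun t => t 0 = u).card ≤
          (Fintype.piFinset fun _ : Fin m => T).card := by
        refine card_le_card_of_injOn (fun t => Fin.tail t) ?_ (tail_inj u)
        intro t ht
        rw [mem_coe, mem_filter] at ht
        rw [mem_coe, Fintype.mem_piFinset]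
        intro i
        exact hFT t ht.1 i.succ
      rw [Fintype.card_piFinset, prod_const, card_univ, Fintype.card_fin] at h1
      exact_mod_cast h1
    set G := T.filter fun t => ((A 0).card ≤ 2 * (tr (A 0) t).card ∧
      (1 - δ) * (h S f + Real.log (A 0).card) - (c + δ * Real.log M) ≤
      h (S ×ˢ tr (A 0) t) (fun s => f s.1 * s.2)) with hG
    set G' := T.filter fun t => ¬ ((A 0).card ≤ 2 * (tr (A 0) t).card ∧
      (1 - δ) * (h S f + Real.log (A 0).card) - (c + δ * Real.log M) ≤
      h (S ×ˢ tr (A 0) t) (fun s => f s.1 * s.2)) with hG'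
    have hG'card : (G'.card : ℝ) ≤ K := hc M hM T hT α S hS f hf (A 0) (hA 0)
    have hsplit : ∑ u ∈ T, ((F.filter fun t => t 0 = u).card : ℝ) =
        ∑ u ∈ G, ((F.filter fun t => t 0 = u).card : ℝ) +
        ∑ u ∈ G', ((F.filter fun t => t 0 = u).card : ℝ) := by
      rw [hG, hG', sum_filter_add_sum_filter_not]
    have good : ∀ u ∈ G, ((F.filter fun t => t 0 = u).card : ℝ) ≤
        m * K * (T.card : ℝ) ^ (m - 1) := by
      intro u hu
      rw [hG, mem_filter] at hu
      obtain ⟨huT, hu1, hu2⟩ := hu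
      have hne : (tr (A 0) u).Nonempty := by
        have := card_pos.2 (hA 0)
        rw [← card_pos]
        omega
      have h1 := ih (α × ℤ) (S ×ˢ tr (A 0) u) (hS.product hne) (fun s => f s.1 * s.2)
        (by
          intro s hs
          rw [mem_product] at hs
          refine mul_ne_zero (hf s.1 hs.1) ?_
          intro h0
          have := hs.2
          rw [h0] at this
          exact notMem_erase _ _ this) (P * (u +ᵥ A 0))
        (by
          intro s hs
          rw [mem_product] at hs
          refine mul_mem_mul (hP s.1 hs.1) ?_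
          have := mem_of_mem_erase hs.2
          rw [mem_image] at this
          obtain ⟨b, hb, hb2⟩ := this
          have e0 : s.2 = u +ᵥ b := by
            rw [← hb2, vadd_eq_add]
            exact _root_.add_comm b u
          rw [e0]
          exact vadd_mem_vadd_finset hb)
        (fun i => A i.succ) (fun i => hA i.succ)
      refine le_trans ?_ h1
      have h2 : (F.filter fun t => t 0 = u).card ≤
          ((Fintype.piFinset fun _ : Fin m => T).filter fun t =>
            Real.log (P * (u +ᵥ A 0) * ∏ i, (t i +ᵥ A i.succ)).card <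
              (1 - δ) ^ m * (h (S ×ˢ tr (A 0) u) (fun s => f s.1 * s.2) +
                ∑ i : Fin m, Real.log (A i.succ).card) - m * (c + δ * Real.log M)).card := by
        refine card_le_card_of_injOn (fun t => Fin.tail t) ?_ (tail_inj u)
        intro t ht
        rw [mem_coe, mem_filter] at ht
        obtain ⟨ht1, ht2⟩ := ht
        have ht3 := ht1
        rw [hF, mem_filter] at ht3
        rw [mem_coe, mem_filter, Fintype.mem_piFinset]
        refine ⟨fun i => hFT t ht1 i.succ, ?_⟩
        have e1 : P * (u +ᵥ A 0) * ∏ i : Fin m, (Fin.tail t i +ᵥ A i.succ) =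
            P * ∏ i, (t i +ᵥ A i) := by
          rw [Fin.prod_univ_succ, ht2, mul_assoc]
          rfl
        rw [e1]
        refine lt_of_lt_of_le ht3.2 ?_
        rw [Fin.sum_univ_succ]
        set H := h (S ×ˢ tr (A 0) u) (fun s => f s.1 * s.2) with hH
        set E1 := ∑ i : Fin m, Real.log (A i.succ).card with hE1
        have hE0 : 0 ≤ E1 := sum_nonneg fun i _ =>
          Real.log_nonneg (by exact_mod_cast card_pos.2 (hA i.succ))
        have q0 : 0 ≤ 1 - δ := by linarith
        have q1 : (1 - δ) ^ m ≤ 1 := pow_le_one₀ q0 (by linarith)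
        have q2 : 0 ≤ (1 - δ) ^ m := pow_nonneg q0 m
        have e2 : (1 - δ) ^ m * ((1 - δ) * (h S f + Real.log (A 0).card) -
            (c + δ * Real.log M) + E1) ≤ (1 - δ) ^ m * (H + E1) :=
          mul_le_mul_of_nonneg_left (by linarith) q2
        have e3 : (1 - δ) ^ m * (c + δ * Real.log M) ≤ c + δ * Real.log M :=
          mul_le_of_le_one_left hcM q1
        have e4 : (1 - δ) ^ (m + 1) * E1 ≤ (1 - δ) ^ m * E1 := by
          refine mul_le_mul_of_nonneg_right ?_ hE0
          rw [pow_succ]
          exact mul_le_of_le_one_right q2 (by linarith)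
        have e5 : (1 - δ) ^ (m + 1) * (h S f + (Real.log (A 0).card + E1)) =
            (1 - δ) ^ m * ((1 - δ) * (h S f + Real.log (A 0).card)) +
            (1 - δ) ^ (m + 1) * E1 := by ring
        have e6 : (1 - δ) ^ m * ((1 - δ) * (h S f + Real.log (A 0).card) -
            (c + δ * Real.log M) + E1) = (1 - δ) ^ m * ((1 - δ) * (h S f + Real.log (A 0).card)) -
            (1 - δ) ^ m * (c + δ * Real.log M) + (1 - δ) ^ m * E1 := by ring
        rw [e5]
        rw [e6] at e2
        push_cast
        linarith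
      exact_mod_cast h2
    have hG1 : ∑ u ∈ G, ((F.filter fun t => t 0 = u).card : ℝ) ≤ m * K * (T.card : ℝ) ^ m := by
      calc ∑ u ∈ G, ((F.filter fun t => t 0 = u).card : ℝ)
          ≤ ∑ _u ∈ G, m * K * (T.card : ℝ) ^ (m - 1) := sum_le_sum good
        _ = G.card * (m * K * (T.card : ℝ) ^ (m - 1)) := by rw [sum_const, nsmul_eq_mul]
        _ ≤ T.card * (m * K * (T.card : ℝ) ^ (m - 1)) := by
            refine mul_le_mul_of_nonneg_right ?_ (by positivity)
            exact_mod_cast card_le_card (filter_subset _ _)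
        _ = m * K * (T.card : ℝ) ^ m := by
            rcases Nat.eq_zero_or_pos m with h0 | h0
            · rw [h0]; simp
            · obtain ⟨j, rfl⟩ : ∃ j, m = j + 1 := ⟨m - 1, by omega⟩
              rw [Nat.add_sub_cancel, pow_succ]
              ring
    have hG2 : ∑ u ∈ G', ((F.filter fun t => t 0 = u).card : ℝ) ≤ K * (T.card : ℝ) ^ m := by
      calc ∑ u ∈ G', ((F.filter fun t => t 0 = u).card : ℝ)
          ≤ ∑ _u ∈ G', (T.card : ℝ) ^ m := sum_le_sum fun u _ => triv u
        _ = G'.card * (T.card : ℝ) ^ m := by rw [sum_const, nsmul_eq_mul]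
        _ ≤ K * (T.card : ℝ) ^ m := mul_le_mul_of_nonneg_right hG'card (by positivity)
    have hsumR : (F.card : ℝ) = ∑ u ∈ T, ((F.filter fun t => t 0 = u).card : ℝ) := by
      rw [hsum]; push_cast; rfl
    rw [hsumR, hsplit, Nat.add_sub_cancel]
    push_cast
    have : (m + 1 : ℝ) * K * (T.card : ℝ) ^ m = m * K * (T.card : ℝ) ^ m + K * (T.card : ℝ) ^ m := by
      ring
    rw [this]
    linarith

end Q137.KF
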