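import Mathlib
import Pool.Agent.Q137.KF.Tuples

/-!
# Products of translates, unions of translates
-/

set_option autoImplicit false

namespace Q137.KF

open Finset Pool.Agent.Y359.PE Q137.Shifts
open scoped Classical Pointwise

lemma h_id (B : Finset ℤ) (hB : B.Nonempty) : h B (fun b : ℤ => b) = Real.log B.card := by
  unfold h
  have hc : (0 : ℝ) < B.card := by exact_mod_cast card_pos.2 hB
  have hfc : ∀ x ∈ B, fc B (fun b : ℤ => b) x = 1 := by
    intro x hx
    unfold fc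
    rw [card_eq_one]
    refine ⟨x, ?_⟩
    ext y
    rw [mem_cl, mem_singleton]
    constructor
    · exact fun h => h.2
    · rintro rfl
      exact ⟨hx, rfl⟩
  rw [div_eq_iff hc.ne', sum_congr rfl fun x hx => by rw [hfc x hx, Nat.cast_one, Real.log_one,
    sub_zero], sum_const, nsmul_eq_mul, mul_comm]

lemma prod_subset {m : ℕ} (X Y : Fin m → Finset ℤ) (hXY : ∀ i, X i ⊆ Y i) :
    ∏ i, X i ⊆ ∏ i, Y i := by
  induction m with
  | zero => simp
  | succ m ih =>
    rw [Fin.prod_univ_succ, Fin.prod_univ_succ]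
    exact mul_subset_mul (hXY 0) (ih _ _ fun i => hXY i.succ)

lemma prod_nonempty {m : ℕ} (X : Fin m → Finset ℤ) (hX : ∀ i, (X i).Nonempty) :
    (∏ i, X i).Nonempty := by
  induction m with
  | zero => simp
  | succ m ih =>
    rw [Fin.prod_univ_succ]
    exact (hX 0).mul (ih _ fun i => hX i.succ)

/-- **Products of translates** -/
theorem shifts_k (m : ℕ) (hm : 1 ≤ m) (ε : ℝ) (hε : 0 < ε) (hε1 : ε ≤ 1) :
    ∃ c : ℝ, 0 < c ∧ ∀ M : ℕ, 1 ≤ M → ∀ T : Finset ℤ, (∀ t ∈ T, |t| ≤ M) →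
    ∀ A : Fin (m + 1) → Finset ℤ, (∃ a ∈ A 0, a ≠ 0) → (∀ i, (A i).Nonempty) →
    (((Fintype.piFinset fun _ : Fin m => T).filter fun t =>
      ((A 0 * ∏ i : Fin m, (t i +ᵥ A i.succ)).card : ℝ) <
        c * (M : ℝ) ^ (-ε) * (∏ i, ((A i).card : ℝ)) ^ (1 - ε)).card : ℝ) ≤
      m * Real.exp (22 * m / ε) * (T.card : ℝ) ^ (m - 1) := by
  have hmR : (1 : ℝ) ≤ m := by exact_mod_cast hm
  have hm0 : (0 : ℝ) < m := by linarith
  set δ := ε / m with hδd
  have hδ : 0 < δ := by positivity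
  have hδ1 : δ ≤ 1 := by
    rw [hδd, div_le_one hm0]
    linarith
  have hmδ : m * δ = ε := by
    rw [hδd]; field_simp
  obtain ⟨c, hc0, hc⟩ := tuples δ hδ hδ1
  refine ⟨Real.exp (-(m * c)) / 2, by positivity, ?_⟩
  intro M hM T hT A hA0 hA
  obtain ⟨a0, ha0, ha00⟩ := hA0
  have hMR : (1 : ℝ) ≤ M := by exact_mod_cast hM
  have hM0 : (0 : ℝ) < M := by linarith
  set S := (A 0).erase 0 with hS
  have hSne : S.Nonempty := ⟨a0, mem_erase.2 ⟨ha00, ha0⟩⟩
  have hSc : ((A 0).card : ℝ) ≤ 2 * S.card := by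
    have h1 : (A 0).card - 1 ≤ S.card := pred_card_le_card_erase
    have h2 := card_pos.2 hSne
    have h3 : (A 0).card ≤ 2 * S.card := by omega
    exact_mod_cast h3
  have h1 := hc M hM T hT m ℤ S hSne (fun a => a) (fun a ha h => notMem_erase _ _ (h ▸ ha)) (A 0)
    (fun a ha => mem_of_mem_erase ha) (fun i => A i.succ) (fun i => hA i.succ)
  have e22 : 22 * (m : ℝ) / ε = 22 / δ := by
    rw [hδd]; field_simp
  rw [e22]
  refine le_trans ?_ h1
  refine Nat.cast_le.2 (card_le_card ?_)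
  intro t ht
  rw [mem_filter] at ht ⊢
  refine ⟨ht.1, ?_⟩
  have hcardpos : ∀ i, (0 : ℝ) < (A i).card := fun i => by exact_mod_cast card_pos.2 (hA i)
  have hprodpos : (0 : ℝ) < ∏ i, ((A i).card : ℝ) := prod_pos fun i _ => hcardpos i
  have hPne : (A 0 * ∏ i : Fin m, (t i +ᵥ A i.succ)).Nonempty :=
    (hA 0).mul (prod_nonempty _ fun i => (hA i.succ).vadd_finset)
  have hPpos : (0 : ℝ) < (A 0 * ∏ i : Fin m, (t i +ᵥ A i.succ)).card := by
    exact_mod_cast card_pos.2 hPne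
  have h2 := Real.log_lt_log hPpos ht.2
  rw [Real.log_mul (by positivity) (Real.rpow_pos_of_pos hprodpos _).ne',
    Real.log_mul (by positivity) (Real.rpow_pos_of_pos hM0 _).ne', Real.log_rpow hprodpos,
    Real.log_rpow hM0, Real.log_div (Real.exp_pos _).ne' (by norm_num), Real.log_exp,
    Real.log_prod (fun i _ => (hcardpos i).ne'), Fin.sum_univ_succ] at h2
  refine lt_of_lt_of_le h2 ?_
  rw [h_id S hSne]
  set E1 := ∑ i : Fin m, Real.log (A i.succ).card with hE1
  have hE0 : 0 ≤ E1 := sum_nonneg fun i _ =>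
    Real.log_nonneg (by exact_mod_cast card_pos.2 (hA i.succ))
  have hSpos : (0 : ℝ) < S.card := by exact_mod_cast card_pos.2 hSne
  have hS1 : (1 : ℝ) ≤ S.card := by exact_mod_cast card_pos.2 hSne
  have hlS : 0 ≤ Real.log S.card := Real.log_nonneg hS1
  have h3 : Real.log (A 0).card ≤ Real.log 2 + Real.log S.card := by
    rw [← Real.log_mul (by norm_num) hSpos.ne']
    exact Real.log_le_log (hcardpos 0) hSc
  have hl2 : 0 ≤ Real.log 2 := Real.log_nonneg (by norm_num)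
  have q1 : 1 - ε ≤ (1 - δ) ^ m := by
    have := one_add_mul_le_pow (show (-2 : ℝ) ≤ -δ by linarith) m
    have e : 1 + (m : ℝ) * -δ = 1 - ε := by rw [← hmδ]; ring
    rw [e] at this
    exact this
  have q2 : (1 - ε) * (Real.log S.card + E1) ≤ (1 - δ) ^ m * (Real.log S.card + E1) :=
    mul_le_mul_of_nonneg_right q1 (by linarith)
  have q3 : (1 - ε) * (Real.log (A 0).card + E1) ≤ (1 - ε) * (Real.log S.card + E1) +
      Real.log 2 := by
    have : (1 - ε) * (Real.log (A 0).card + E1) ≤ (1 - ε) * (Real.log 2 + Real.log S.card + E1) :=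
      mul_le_mul_of_nonneg_left (by linarith) (by linarith)
    have e : (1 - ε) * (Real.log 2 + Real.log S.card + E1) =
        (1 - ε) * (Real.log S.card + E1) + (1 - ε) * Real.log 2 := by ring
    have e2 : (1 - ε) * Real.log 2 ≤ Real.log 2 := mul_le_of_le_one_left hl2 (by linarith)
    linarith
  have q4 : (m : ℝ) * (c + δ * Real.log M) = m * c + ε * Real.log M := by
    rw [← hmδ]; ring
  rw [q4]
  linarith

/-- the exponents -/
lemma pow_exp (n k : ℕ) (hk : 1 ≤ k) (ε : ℝ) :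
    (((n : ℝ)) ^ k) ^ (1 - ε / k) = (n : ℝ) ^ ((k : ℝ) - ε) := by
  have hk0 : (k : ℝ) ≠ 0 := by
    have : (1 : ℝ) ≤ k := by exact_mod_cast hk
    linarith
  rw [← Real.rpow_natCast, ← Real.rpow_mul (Nat.cast_nonneg n)]
  congr 1
  field_simp

/-- **Unions of `m + 1` translates of an arbitrary set** -/
theorem union_k (m : ℕ) (hm : 1 ≤ m) (ε : ℝ) (hε : 0 < ε) (hε1 : ε ≤ 1) :
    ∃ c : ℝ, 0 < c ∧ ∀ M : ℕ, 1 ≤ M → ∀ T : Finset ℤ, (∀ t ∈ T, |t| ≤ M) →
    ∀ B : Finset ℤ, B.Nonempty →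
    (((Fintype.piFinset fun _ : Fin m => T).filter fun t =>
      (((B ∪ univ.biUnion fun i => t i +ᵥ B) ^ (m + 1)).card : ℝ) <
        c * (M : ℝ) ^ (-ε) *
          ((B ∪ univ.biUnion fun i => t i +ᵥ B).card : ℝ) ^ ((m + 1 : ℕ) - ε : ℝ)).card : ℝ) ≤
      m * Real.exp (22 * m * (m + 1) / ε) * (T.card : ℝ) ^ (m - 1) := by
  set k : ℕ := m + 1 with hk
  have hk1 : 1 ≤ k := by omega
  have hkR : (1 : ℝ) ≤ k := by exact_mod_cast hk1
  have hk0 : (0 : ℝ) < k := by linarith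
  set ε' := ε / k with hε'
  have hε'0 : 0 < ε' := by positivity
  have hε'1 : ε' ≤ 1 := by
    rw [hε', div_le_one hk0]; linarith
  have hε'le : ε' ≤ ε := by
    rw [hε']; exact div_le_self hε.le hkR
  obtain ⟨c0, hc00, hc0⟩ := shifts_k m hm ε' hε'0 hε'1
  set c := min c0 1 / (k : ℝ) ^ k with hc
  have hkk : (0 : ℝ) < (k : ℝ) ^ k := by positivity
  have hcpos : 0 < c := by
    rw [hc]
    have : 0 < min c0 1 := lt_min hc00 one_pos
    positivity
  have hck : c * (k : ℝ) ^ k = min c0 1 := by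
    rw [hc]; field_simp
  refine ⟨c, hcpos, ?_⟩
  intro M hM T hT B hB
  have hMR : (1 : ℝ) ≤ M := by exact_mod_cast hM
  have hM0 : (0 : ℝ) < M := by linarith
  have hBpos : (0 : ℝ) < B.card := by exact_mod_cast card_pos.2 hB
  have hke : 0 ≤ (k : ℝ) - ε := by linarith
  -- the size of the union
  have hCle : ∀ t : Fin m → ℤ, ((B ∪ univ.biUnion fun i => t i +ᵥ B).card : ℝ) ≤
      k * B.card := by
    intro t
    have h1 : (univ.biUnion fun i : Fin m => t i +ᵥ B).card ≤ m * B.card := by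
      refine card_biUnion_le.trans ?_
      calc ∑ i : Fin m, (t i +ᵥ B).card = ∑ i : Fin m, B.card := by
            refine sum_congr rfl fun i _ => card_vadd_finset _ _
        _ = m * B.card := by simp
        _ ≤ m * B.card := le_rfl
    have h2 := card_union_le B (univ.biUnion fun i : Fin m => t i +ᵥ B)
    have h3 : (B ∪ univ.biUnion fun i : Fin m => t i +ᵥ B).card ≤ k * B.card := by
      rw [hk, add_mul, one_mul]
      omega
    exact_mod_cast h3
  have hpw : ∀ t : Fin m → ℤ, ((B ∪ univ.biUnion fun i => t i +ᵥ B).card : ℝ) ^ ((k : ℝ) - ε) ≤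
      (k : ℝ) ^ k * (B.card : ℝ) ^ ((k : ℝ) - ε) := by
    intro t
    calc ((B ∪ univ.biUnion fun i => t i +ᵥ B).card : ℝ) ^ ((k : ℝ) - ε)
        ≤ ((k : ℝ) * B.card) ^ ((k : ℝ) - ε) :=
          Real.rpow_le_rpow (by positivity) (hCle t) hke
      _ = (k : ℝ) ^ ((k : ℝ) - ε) * (B.card : ℝ) ^ ((k : ℝ) - ε) :=
          Real.mul_rpow hk0.le hBpos.le
      _ ≤ (k : ℝ) ^ k * (B.card : ℝ) ^ ((k : ℝ) - ε) := by
          refine mul_le_mul_of_nonneg_right ?_ (Real.rpow_nonneg hBpos.le _)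
          rw [← Real.rpow_natCast]
          exact Real.rpow_le_rpow_of_exponent_le hkR (by linarith)
  have hMe : (M : ℝ) ^ (-ε) ≤ (M : ℝ) ^ (-ε') :=
    Real.rpow_le_rpow_of_exponent_le hMR (by linarith)
  have hMe1 : (M : ℝ) ^ (-ε) ≤ 1 := Real.rpow_le_one_of_one_le_of_nonpos hMR (by linarith)
  have hMe0 : 0 < (M : ℝ) ^ (-ε) := Real.rpow_pos_of_pos hM0 _
  by_cases hB0 : ∃ a ∈ B, a ≠ 0
  · have h1 := hc0 M hM T hT (fun _ => B) hB0 (fun _ => hB)
    have e22 : 22 * (m : ℝ) / ε' = 22 * m * (m + 1) / ε := by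
      rw [hε', hk]; push_cast; field_simp
    rw [e22] at h1
    refine le_trans ?_ h1
    refine Nat.cast_le.2 (card_le_card ?_)
    intro t ht
    rw [mem_filter] at ht ⊢
    refine ⟨ht.1, ?_⟩
    have hsub : B * ∏ i : Fin m, (t i +ᵥ B) ⊆ (B ∪ univ.biUnion fun i => t i +ᵥ B) ^ (m + 1) := by
      rw [pow_succ']
      refine mul_subset_mul subset_union_left ?_
      have e : (B ∪ univ.biUnion fun i => t i +ᵥ B) ^ m =
          ∏ _i : Fin m, (B ∪ univ.biUnion fun i => t i +ᵥ B) := by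
        rw [prod_const, card_univ, Fintype.card_fin]
      rw [e]
      refine prod_subset _ _ fun i => ?_
      exact (subset_biUnion_of_mem (fun i => t i +ᵥ B) (mem_univ i)).trans subset_union_right
    have hle : ((B * ∏ i : Fin m, (t i +ᵥ B)).card : ℝ) ≤
        ((B ∪ univ.biUnion fun i => t i +ᵥ B) ^ (m + 1)).card := by
      exact_mod_cast card_le_card hsub
    refine lt_of_le_of_lt hle (lt_of_lt_of_le ht.2 ?_)
    have e1 : (∏ _i : Fin (m + 1), (B.card : ℝ)) ^ (1 - ε') = (B.card : ℝ) ^ ((k : ℝ) - ε) := by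
      rw [prod_const, card_univ, Fintype.card_fin, hε']
      exact pow_exp B.card k hk1 ε
    rw [e1]
    calc c * (M : ℝ) ^ (-ε) *
        ((B ∪ univ.biUnion fun i => t i +ᵥ B).card : ℝ) ^ ((k : ℝ) - ε)
        ≤ c * (M : ℝ) ^ (-ε) * ((k : ℝ) ^ k * (B.card : ℝ) ^ ((k : ℝ) - ε)) :=
          mul_le_mul_of_nonneg_left (hpw t) (by positivity)
      _ = min c0 1 * (M : ℝ) ^ (-ε) * (B.card : ℝ) ^ ((k : ℝ) - ε) := by
          rw [← hck]; ring
      _ ≤ c0 * (M : ℝ) ^ (-ε') * (B.card : ℝ) ^ ((k : ℝ) - ε) := by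
          refine mul_le_mul_of_nonneg_right ?_ (Real.rpow_nonneg hBpos.le _)
          exact mul_le_mul (min_le_left _ _) hMe hMe0.le hc00.le
  · push Not at hB0
    have hB1 : B.card ≤ 1 := by
      rw [card_le_one]
      intro a ha b hb
      rw [hB0 a ha, hB0 b hb]
    have hempty : ((Fintype.piFinset fun _ : Fin m => T).filter fun t =>
      (((B ∪ univ.biUnion fun i => t i +ᵥ B) ^ k).card : ℝ) <
        c * (M : ℝ) ^ (-ε) *
          ((B ∪ univ.biUnion fun i => t i +ᵥ B).card : ℝ) ^ ((k : ℝ) - ε)) = ∅ := by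
      rw [filter_eq_empty_iff]
      intro t _ h1
      have h3 : (B.card : ℝ) ^ ((k : ℝ) - ε) ≤ 1 :=
        Real.rpow_le_one hBpos.le (by exact_mod_cast hB1) hke
      have h4 : (1 : ℝ) ≤ ((B ∪ univ.biUnion fun i => t i +ᵥ B) ^ k).card := by
        have : ((B ∪ univ.biUnion fun i => t i +ᵥ B) ^ k).Nonempty :=
          (hB.mono subset_union_left).pow
        exact_mod_cast card_pos.2 this
      have h5 : c * (M : ℝ) ^ (-ε) *
          ((B ∪ univ.biUnion fun i => t i +ᵥ B).card : ℝ) ^ ((k : ℝ) - ε) ≤ 1 := by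
        calc c * (M : ℝ) ^ (-ε) *
          ((B ∪ univ.biUnion fun i => t i +ᵥ B).card : ℝ) ^ ((k : ℝ) - ε)
            ≤ c * (M : ℝ) ^ (-ε) * ((k : ℝ) ^ k * (B.card : ℝ) ^ ((k : ℝ) - ε)) :=
              mul_le_mul_of_nonneg_left (hpw t) (by positivity)
          _ = min c0 1 * ((M : ℝ) ^ (-ε) * (B.card : ℝ) ^ ((k : ℝ) - ε)) := by
              rw [← hck]; ring
          _ ≤ 1 * (1 * 1) := by
              refine mul_le_mul (min_le_right _ _) ?_ (by positivity) (by norm_num)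
              exact mul_le_mul hMe1 h3 (Real.rpow_nonneg hBpos.le _) (by norm_num)
          _ = 1 := by norm_num
      linarith
    rw [hempty]
    simp only [card_empty, Nat.cast_zero]
    positivity

/-- **Sets with a pattern** -/
theorem pattern_k (m : ℕ) (hm : 1 ≤ m) (ε : ℝ) (hε : 0 < ε) (hε1 : ε ≤ 1) (T : Finset ℤ)
    (hT : m * Real.exp (22 * m * (m + 1) / ε) < T.card) :
    ∃ c : ℝ, 0 < c ∧ ∀ A : Finset ℤ, A.Nonempty →
      (∀ a ∈ A, ∃ x : ℤ, (∃ t ∈ T, a = x + t) ∧ ∀ t ∈ T, x + t ∈ A) →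
      c * (A.card : ℝ) ^ ((m + 1 : ℕ) - ε : ℝ) ≤ (A ^ (m + 1)).card := by
  set k : ℕ := m + 1 with hk
  have hk1 : 1 ≤ k := by omega
  have hkR : (1 : ℝ) ≤ k := by exact_mod_cast hk1
  have hk0 : (0 : ℝ) < k := by linarith
  set ε' := ε / k with hε'
  have hε'0 : 0 < ε' := by positivity
  have hε'1 : ε' ≤ 1 := by
    rw [hε', div_le_one hk0]; linarith
  have hke : 0 ≤ (k : ℝ) - ε := by linarith
  obtain ⟨c0, hc00, hc0⟩ := shifts_k m hm ε' hε'0 hε'1
  -- a bound for the pattern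
  set M : ℕ := 1 + ∑ t ∈ T, t.natAbs with hM
  have hM1 : 1 ≤ M := by omega
  have hMT : ∀ t ∈ T, |t| ≤ M := by
    intro t ht
    have : t.natAbs ≤ ∑ t ∈ T, t.natAbs := single_le_sum (fun _ _ => Nat.zero_le _) ht
    rw [Int.abs_eq_natAbs]
    have h2 : t.natAbs ≤ M := by omega
    exact_mod_cast h2
  have hMR : (1 : ℝ) ≤ M := by exact_mod_cast hM1
  have hM0 : (0 : ℝ) < M := by linarith
  have hTpos : (0 : ℝ) < T.card := lt_of_le_of_lt (by positivity) hT
  have hT1 : (1 : ℝ) ≤ T.card := by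
    have : 0 < T.card := by exact_mod_cast hTpos
    exact_mod_cast this
  obtain ⟨t0, ht0⟩ : T.Nonempty := card_pos.1 (by exact_mod_cast hTpos)
  set c1 := min (c0 * (M : ℝ) ^ (-ε')) 1 with hc1
  have hc1pos : 0 < c1 := lt_min (mul_pos hc00 (Real.rpow_pos_of_pos hM0 _)) one_pos
  refine ⟨c1 / (T.card : ℝ) ^ k, by positivity, ?_⟩
  intro A hA hpat
  have hA1 : (1 : ℝ) ≤ A.card := by exact_mod_cast card_pos.2 hA
  have hAA1 : (1 : ℝ) ≤ (A ^ k).card := by exact_mod_cast card_pos.2 hA.pow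
  -- the base points
  set B : Finset ℤ := (A.image fun a => a - t0).filter fun x => ∀ t ∈ T, x + t ∈ A with hB
  have hcov : A ⊆ (T ×ˢ B).image fun p => p.2 + p.1 := by
    intro a ha
    obtain ⟨x, ⟨t, ht, hax⟩, hx⟩ := hpat a ha
    rw [mem_image]
    refine ⟨(t, x), ?_, hax.symm⟩
    rw [mem_product]
    refine ⟨ht, ?_⟩
    rw [hB, mem_filter, mem_image]
    exact ⟨⟨x + t0, hx t0 ht0, by ring⟩, hx⟩
  have hcard : (A.card : ℝ) ≤ T.card * B.card := by
    have h1 := (card_le_card hcov).trans card_image_le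
    rw [card_product] at h1
    exact_mod_cast h1
  have hBne : B.Nonempty := by
    rw [← card_pos]
    by_contra h
    have : B.card = 0 := by omega
    rw [this, Nat.cast_zero, mul_zero] at hcard
    linarith
  have hBpos : (0 : ℝ) < B.card := by exact_mod_cast card_pos.2 hBne
  have hBsub : ∀ t ∈ T, t +ᵥ B ⊆ A := by
    intro t ht a ha
    rw [mem_vadd_finset] at ha
    obtain ⟨b, hb, rfl⟩ := ha
    rw [hB, mem_filter] at hb
    have := hb.2 t ht
    rw [vadd_eq_add, _root_.add_comm]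
    exact this
  have hpw : (A.card : ℝ) ^ ((k : ℝ) - ε) ≤ (T.card : ℝ) ^ k * (B.card : ℝ) ^ ((k : ℝ) - ε) := by
    calc (A.card : ℝ) ^ ((k : ℝ) - ε) ≤ ((T.card : ℝ) * B.card) ^ ((k : ℝ) - ε) :=
          Real.rpow_le_rpow (by positivity) hcard hke
      _ = (T.card : ℝ) ^ ((k : ℝ) - ε) * (B.card : ℝ) ^ ((k : ℝ) - ε) :=
          Real.mul_rpow hTpos.le hBpos.le
      _ ≤ (T.card : ℝ) ^ k * (B.card : ℝ) ^ ((k : ℝ) - ε) := by
          refine mul_le_mul_of_nonneg_right ?_ (Real.rpow_nonneg hBpos.le _)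
          rw [← Real.rpow_natCast]
          exact Real.rpow_le_rpow_of_exponent_le hT1 (by linarith)
  have hTk : (0 : ℝ) < (T.card : ℝ) ^ k := by positivity
  have main : c1 * (B.card : ℝ) ^ ((k : ℝ) - ε) ≤ (A ^ k).card := by
    by_cases hne : ∃ a ∈ t0 +ᵥ B, a ≠ 0
    · have h1 := hc0 M hM1 T hMT (Fin.cons (t0 +ᵥ B) fun _ => B) hne (by
        intro i
        refine Fin.cases ?_ (fun j => ?_) i
        · exact hBne.vadd_finset
        · exact hBne)
      simp only [Fin.cons_zero, Fin.cons_succ] at h1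
      have e22 : 22 * (m : ℝ) / ε' = 22 * m * (m + 1) / ε := by
        rw [hε', hk]; push_cast; field_simp
      rw [e22] at h1
      obtain ⟨t, ht, hgood⟩ : ∃ t ∈ Fintype.piFinset fun _ : Fin m => T,
          ¬ (((t0 +ᵥ B) * ∏ i : Fin m, (t i +ᵥ B)).card : ℝ) <
            c0 * (M : ℝ) ^ (-ε') * (∏ i : Fin (m + 1),
              (((Fin.cons (t0 +ᵥ B) fun _ => B : Fin (m + 1) → Finset ℤ) i).card : ℝ)) ^
                (1 - ε') := by
        by_contra hcon
        push Not at hcon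
        rw [filter_true_of_mem hcon, Fintype.card_piFinset, prod_const, card_univ,
          Fintype.card_fin] at h1
        push_cast at h1
        obtain ⟨j, rfl⟩ : ∃ j, m = j + 1 := ⟨m - 1, by omega⟩
        rw [Nat.add_sub_cancel, pow_succ] at h1
        have hp : (0 : ℝ) < (T.card : ℝ) ^ j := by positivity
        have h2 : (T.card : ℝ) ≤ ((j + 1 : ℕ) : ℝ) *
            Real.exp (22 * ((j + 1 : ℕ) : ℝ) * (((j + 1 : ℕ) : ℝ) + 1) / ε) := by
          have : (T.card : ℝ) * (T.card : ℝ) ^ j ≤ ((j + 1 : ℕ) : ℝ) *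
            Real.exp (22 * ((j + 1 : ℕ) : ℝ) * (((j + 1 : ℕ) : ℝ) + 1) / ε) *
              (T.card : ℝ) ^ j := by
            rw [_root_.mul_comm]
            exact h1
          exact le_of_mul_le_mul_right this hp
        linarith
      rw [not_lt] at hgood
      have e1 : (∏ i : Fin (m + 1),
              (((Fin.cons (t0 +ᵥ B) fun _ => B : Fin (m + 1) → Finset ℤ) i).card : ℝ)) ^
                (1 - ε') = (B.card : ℝ) ^ ((k : ℝ) - ε) := by
        have : ∀ i : Fin (m + 1),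
            (((Fin.cons (t0 +ᵥ B) fun _ => B : Fin (m + 1) → Finset ℤ) i).card : ℝ) = B.card := by
          intro i
          refine Fin.cases ?_ (fun j => ?_) i
          · rw [Fin.cons_zero, card_vadd_finset]
          · rw [Fin.cons_succ]
        rw [prod_congr rfl fun i _ => this i, prod_const, card_univ, Fintype.card_fin, hε']
        exact pow_exp B.card k hk1 ε
      rw [e1] at hgood
      rw [Fintype.mem_piFinset] at ht
      have hsub : (t0 +ᵥ B) * ∏ i : Fin m, (t i +ᵥ B) ⊆ A ^ k := by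
        rw [hk, pow_succ']
        refine mul_subset_mul (hBsub t0 ht0) ?_
        have e : A ^ m = ∏ _i : Fin m, A := by
          rw [prod_const, card_univ, Fintype.card_fin]
        rw [e]
        exact prod_subset _ _ fun i => hBsub _ (ht i)
      have hle : (((t0 +ᵥ B) * ∏ i : Fin m, (t i +ᵥ B)).card : ℝ) ≤ (A ^ k).card := by
        exact_mod_cast card_le_card hsub
      refine le_trans ?_ (hgood.trans hle)
      exact mul_le_mul_of_nonneg_right (min_le_left _ _) (Real.rpow_nonneg hBpos.le _)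
    · push Not at hne
      have hB1 : B.card ≤ 1 := by
        rw [← card_vadd_finset t0 B, card_le_one]
        intro a ha b hb
        rw [hne a ha, hne b hb]
      have h3 : (B.card : ℝ) ^ ((k : ℝ) - ε) ≤ 1 :=
        Real.rpow_le_one hBpos.le (by exact_mod_cast hB1) hke
      have h4 : c1 * (B.card : ℝ) ^ ((k : ℝ) - ε) ≤ 1 * 1 :=
        mul_le_mul (min_le_right _ _) h3 (Real.rpow_nonneg hBpos.le _) (by norm_num)
      linarith
  calc c1 / (T.card : ℝ) ^ k * (A.card : ℝ) ^ ((k : ℝ) - ε)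
      ≤ c1 / (T.card : ℝ) ^ k * ((T.card : ℝ) ^ k * (B.card : ℝ) ^ ((k : ℝ) - ε)) :=
        mul_le_mul_of_nonneg_left hpw (by positivity)
    _ = c1 * (B.card : ℝ) ^ ((k : ℝ) - ε) := by field_simp
    _ ≤ (A ^ k).card := main

end Q137.KF
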