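import Mathlib
import Pool.Agent.Q137.KF.Cor
import Pool.Agent.Q137.Shifts.Cor

/-!
# One arbitrary set and several sets that are dense in blocks or in translates of a pattern
-/

set_option autoImplicit false

namespace Q137.KF

open Finset Pool.Agent.Y359.PE Q137.Shifts
open scoped Classical Pointwise

/-- entropy form -/
theorem thick_aux (δ : ℝ) (hδ : 0 < δ) (hδ1 : δ ≤ 1) (Q : ℕ) (hQ : Q ≠ 0) :
    ∀ m : ℕ, ∀ (α : Type) (S : Finset α), S.Nonempty →
    ∀ f : α → ℤ, (∀ s ∈ S, f s ≠ 0) → ∀ P : Finset ℤ, (∀ s ∈ S, f s ∈ P) →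
    ∀ A : Fin m → Finset ℤ, (∀ i, (A i).Nonempty) → (∀ i, (0 : ℤ) ∉ A i) →
    (∀ i, ∀ p : ℕ, p.Prime → (((A i).filter fun a => Q.factorization p < fa a p).card : ℝ) ≤
      1 / Real.exp (9 / δ) * (A i).card) →
    (1 - δ) ^ m * (h S f + ∑ i, Real.log (A i).card) -
      m * (2 * Real.log (2 * Q.divisors.card)) ≤ Real.log (P * ∏ i, A i).card := by
  intro m
  have hD : (1 : ℝ) ≤ Q.divisors.card := by
    have : 0 < Q.divisors.card := card_pos.2 ⟨1, Nat.one_mem_divisors.2 hQ⟩
    exact_mod_cast this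
  set y := 2 * Real.log (2 * (Q.divisors.card : ℝ)) with hyd
  have hy : 0 ≤ y := by
    have := Real.log_nonneg (show (1 : ℝ) ≤ 2 * Q.divisors.card by linarith)
    rw [hyd]; linarith
  have hq0 : 0 ≤ 1 - δ := by linarith
  induction m with
  | zero =>
    intro α S hS f hf P hP A hA hA0 hth
    rw [univ_eq_empty, prod_empty, sum_empty, mul_one]
    have := h_le_log_card S hS f P hP
    simpa using this
  | succ m ih =>
    intro α S hS f hf P hP A hA hA0 hth
    set ℓ := 9 / δ with hℓ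
    have hℓ9 : 9 ≤ ℓ := by
      rw [hℓ, le_div_iff₀ hδ]; nlinarith
    obtain ⟨p1, p2, p3⟩ := params' hℓ9
    set θ := 1 / Real.exp (ℓ / 2) with hθ
    set τ := 1 / Real.exp ℓ with hτ
    have hτ0 : 0 < τ := by positivity
    have hκ : 9 / ℓ = δ := by rw [hℓ]; field_simp
    rw [hκ] at p3
    obtain ⟨R, hR0, hR1, hR2⟩ := step Q hQ S hS f hf (fun _ => 0) ({()} : Finset Unit)
      (fun _ => A 0) (fun _ _ => hA 0) (fun _ _ => hA0 0) (fun _ _ => 0) hτ0.le p1 p2
      (by linarith) (N := 0) le_rfl (by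
        intro p hp
        have h2 : (({()} : Finset Unit).filter fun _ =>
            ¬ ((((A 0).filter fun b => U Q b p ≠ 0).card : ℝ) ≤ τ * (A 0).card) ∧
            ¬ (((S.filter fun s => U Q (f s) p ≠ 0).card : ℝ) ≤ τ * S.card)) = ∅ := by
          rw [filter_eq_empty_iff]
          intro u _ h3
          apply h3.1
          simp only [U_ne_zero]
          exact hth 0 p hp
        rw [h2]
        simp)
    have hR : R () = 0 := by
      rw [zero_mul] at hR2
      have h1 := hR0 () (mem_singleton_self _)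
      have h2 : ∑ t ∈ ({()} : Finset Unit), R t = R () := sum_singleton _ _
      rw [h2] at hR2
      linarith
    have h1 := hR1 () (mem_singleton_self _)
    rw [hR, sub_zero] at h1
    set κ := 4 / Real.log (1 / θ) + τ / θ with hκd
    have hκ0 : 0 ≤ κ := by
      have : 0 ≤ Real.log (1 / θ) := Real.log_nonneg (by rw [le_div_iff₀ p1]; linarith)
      positivity
    have e1 : (1 - 4 / Real.log (1 / θ) - τ / θ) = 1 - κ := by rw [hκd]; ring
    rw [e1] at h1
    have hSf : 0 ≤ h S f := h_nonneg _ _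
    have hl0 : 0 ≤ Real.log (A 0).card :=
      Real.log_nonneg (by exact_mod_cast card_pos.2 (hA 0))
    have h2 : (1 - δ) * (h S f + Real.log (A 0).card) - y ≤
        h (S ×ˢ A 0) (fun s => f s.1 * s.2) := by
      have e2 : κ * (h S f + Real.log (A 0).card) ≤ δ * (h S f + Real.log (A 0).card) :=
        mul_le_mul_of_nonneg_right p3 (by linarith)
      have e3 : 0 ≤ κ * y := mul_nonneg hκ0 hy
      have e5 : (1 - κ) * (h S f + Real.log (A 0).card - y) =
        (h S f + Real.log (A 0).card) - κ * (h S f + Real.log (A 0).card) - y + κ * y := by ring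
      have e6 : (1 - δ) * (h S f + Real.log (A 0).card) =
        (h S f + Real.log (A 0).card) - δ * (h S f + Real.log (A 0).card) := by ring
      rw [e5] at h1
      rw [e6]
      linarith
    have h3 := ih (α × ℤ) (S ×ˢ A 0) (hS.product (hA 0)) (fun s => f s.1 * s.2)
      (by
        intro s hs
        rw [mem_product] at hs
        exact mul_ne_zero (hf s.1 hs.1) fun h0 => hA0 0 (h0 ▸ hs.2)) (P * A 0)
      (by
        intro s hs
        rw [mem_product] at hs
        exact mul_mem_mul (hP s.1 hs.1) hs.2)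
      (fun i => A i.succ) (fun i => hA i.succ) (fun i => hA0 i.succ) (fun i => hth i.succ)
    have e7 : P * A 0 * ∏ i : Fin m, A i.succ = P * ∏ i, A i := by
      rw [Fin.prod_univ_succ, mul_assoc]
    rw [e7] at h3
    refine le_trans ?_ h3
    rw [Fin.sum_univ_succ]
    set H := h (S ×ˢ A 0) (fun s => f s.1 * s.2) with hH
    set E1 := ∑ i : Fin m, Real.log (A i.succ).card with hE1
    have hE0 : 0 ≤ E1 := sum_nonneg fun i _ =>
      Real.log_nonneg (by exact_mod_cast card_pos.2 (hA i.succ))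
    have q1 : (1 - δ) ^ m ≤ 1 := pow_le_one₀ hq0 (by linarith)
    have q2 : 0 ≤ (1 - δ) ^ m := pow_nonneg hq0 m
    have e2 : (1 - δ) ^ m * ((1 - δ) * (h S f + Real.log (A 0).card) - y + E1) ≤
        (1 - δ) ^ m * (H + E1) :=
      mul_le_mul_of_nonneg_left (by linarith) q2
    have e3 : (1 - δ) ^ m * y ≤ y := mul_le_of_le_one_left hy q1
    have e4 : (1 - δ) ^ (m + 1) * E1 ≤ (1 - δ) ^ m * E1 := by
      refine mul_le_mul_of_nonneg_right ?_ hE0
      rw [pow_succ]
      exact mul_le_of_le_one_right q2 (by linarith)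
    have e5 : (1 - δ) ^ (m + 1) * (h S f + (Real.log (A 0).card + E1)) =
        (1 - δ) ^ m * ((1 - δ) * (h S f + Real.log (A 0).card)) +
        (1 - δ) ^ (m + 1) * E1 := by ring
    have e6 : (1 - δ) ^ m * ((1 - δ) * (h S f + Real.log (A 0).card) - y + E1) =
        (1 - δ) ^ m * ((1 - δ) * (h S f + Real.log (A 0).card)) -
        (1 - δ) ^ m * y + (1 - δ) ^ m * E1 := by ring
    rw [e5]
    rw [e6] at e2
    push_cast
    linarith

/-- one arbitrary set and `m` sets without popular primes above `Q` -/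
theorem thick (m : ℕ) (hm : 1 ≤ m) (ε : ℝ) (hε : 0 < ε) (hε1 : ε ≤ 1) (Q : ℕ) (hQ : Q ≠ 0)
    (A : Fin (m + 1) → Finset ℤ) (hA : ∀ i, (A i).Nonempty) (hA0 : ∀ i, (0 : ℤ) ∉ A i)
    (hth : ∀ i : Fin m, ∀ p : ℕ, p.Prime →
      (((A i.succ).filter fun a => Q.factorization p < fa a p).card : ℝ) ≤
      1 / Real.exp (9 * m / ε) * (A i.succ).card) :
    1 / (2 * (Q.divisors.card : ℝ)) ^ (2 * m) * (∏ i, ((A i).card : ℝ)) ^ (1 - ε) ≤
      (∏ i, A i).card := by
  have hmR : (1 : ℝ) ≤ m := by exact_mod_cast hm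
  have hm0 : (0 : ℝ) < m := by linarith
  set δ := ε / m with hδd
  have hδ : 0 < δ := by positivity
  have hδ1 : δ ≤ 1 := by
    rw [hδd, div_le_one hm0]
    linarith
  have hmδ : m * δ = ε := by
    rw [hδd]; field_simp
  have e9 : 9 * (m : ℝ) / ε = 9 / δ := by
    rw [hδd]; field_simp
  rw [e9] at hth
  have h1 := thick_aux δ hδ hδ1 Q hQ m ℤ (A 0) (hA 0) (fun a => a)
    (fun a ha h => hA0 0 (h ▸ ha)) (A 0) (fun a ha => ha) (fun i => A i.succ)
    (fun i => hA i.succ) (fun i => hA0 i.succ) hth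
  rw [h_id _ (hA 0), ← Fin.prod_univ_succ (f := A)] at h1
  have hcardpos : ∀ i, (0 : ℝ) < (A i).card := fun i => by exact_mod_cast card_pos.2 (hA i)
  have hprodpos : (0 : ℝ) < ∏ i, ((A i).card : ℝ) := prod_pos fun i _ => hcardpos i
  have hPpos : (0 : ℝ) < (∏ i, A i).card := by exact_mod_cast card_pos.2 (prod_nonempty A hA)
  have hD : (1 : ℝ) ≤ Q.divisors.card := by
    have : 0 < Q.divisors.card := card_pos.2 ⟨1, Nat.one_mem_divisors.2 hQ⟩
    exact_mod_cast this
  have hD0 : (0 : ℝ) < 2 * Q.divisors.card := by linarith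
  rw [one_div, ← div_eq_inv_mul, div_le_iff₀ (by positivity),
    ← Real.log_le_log_iff (Real.rpow_pos_of_pos hprodpos _) (by positivity),
    Real.log_rpow hprodpos, Real.log_mul hPpos.ne' (by positivity), Real.log_pow,
    Real.log_prod (fun i _ => (hcardpos i).ne'), Fin.sum_univ_succ]
  have hE0 : 0 ≤ Real.log (A 0).card + ∑ i : Fin m, Real.log (A i.succ).card := by
    refine add_nonneg (Real.log_nonneg (by exact_mod_cast card_pos.2 (hA 0))) (sum_nonneg fun i _ =>
      Real.log_nonneg (by exact_mod_cast card_pos.2 (hA i.succ)))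
  have q1 : 1 - ε ≤ (1 - δ) ^ m := by
    have := one_add_mul_le_pow (show (-2 : ℝ) ≤ -δ by linarith) m
    have e : 1 + (m : ℝ) * -δ = 1 - ε := by rw [← hmδ]; ring
    rw [e] at this
    exact this
  have q2 := mul_le_mul_of_nonneg_right q1 hE0
  push_cast
  have e10 : (2 : ℝ) * m * Real.log (2 * Q.divisors.card) =
      m * (2 * Real.log (2 * Q.divisors.card)) := by ring
  rw [e10]
  linarith

/-- **Sets that are dense in blocks** -/
theorem blocks_k (m : ℕ) (hm : 1 ≤ m) (ε η : ℝ) (hε : 0 < ε) (hε1 : ε ≤ 1) (hη : 0 < η) :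
    ∃ (M₀ : ℕ) (c : ℝ), 0 < c ∧ ∀ M : ℕ, M₀ ≤ M → ∀ A : Fin (m + 1) → Finset ℤ,
      (∀ i, (A i).Nonempty) → (∀ i, (0 : ℤ) ∉ A i) →
      (∀ i : Fin m, η * M * ((A i.succ).image fun a => a / (M : ℤ)).card ≤ (A i.succ).card) →
      c * (∏ i, ((A i).card : ℝ)) ^ (1 - ε) ≤ (∏ i, A i).card := by
  set τ := 1 / Real.exp (9 * m / ε) with hτ
  have hτ0 : 0 < τ := by positivity
  obtain ⟨q0, hq0⟩ := exists_nat_ge (2 / (η * τ) + 1)
  have hq01 : (1 : ℝ) ≤ q0 := by
    have : 0 ≤ 2 / (η * τ) := by positivity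
    linarith
  set Q := q0.factorial with hQd
  have hQ : Q ≠ 0 := Nat.factorial_ne_zero _
  have hD : (1 : ℝ) ≤ Q.divisors.card := by
    have : 0 < Q.divisors.card := card_pos.2 ⟨1, Nat.one_mem_divisors.2 hQ⟩
    exact_mod_cast this
  refine ⟨q0, 1 / (2 * (Q.divisors.card : ℝ)) ^ (2 * m), by positivity, ?_⟩
  intro M hM A hA hA0 hblock
  have hMq : (q0 : ℝ) ≤ M := by exact_mod_cast hM
  have hMpos : (0 : ℝ) < M := by linarith
  have hM0 : 0 < M := by exact_mod_cast hMpos
  refine thick m hm ε hε hε1 Q hQ A hA hA0 ?_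
  intro i p hp
  set q := p ^ (Q.factorization p + 1) with hq
  have hqpos : 0 < q := pow_pos hp.pos _
  have hq0q : q0 < q := by
    by_contra hcon
    push Not at hcon
    have h1 : q ∣ Q := Nat.dvd_factorial hqpos hcon
    have := (hp.pow_dvd_iff_le_factorization hQ).1 h1
    omega
  have hsub : ((A i.succ).filter fun a => Q.factorization p < fa a p) ⊆
      (A i.succ).filter fun a => (q : ℤ) ∣ a := by
    intro a ha
    rw [mem_filter] at ha ⊢
    refine ⟨ha.1, ?_⟩
    have := pow_dvd_of_lt hp ha.2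
    rw [hq]
    push_cast
    exact this
  have h1 : (((A i.succ).filter fun a => Q.factorization p < fa a p).card : ℝ) ≤
      ((A i.succ).filter fun a => (q : ℤ) ∣ a).card := by exact_mod_cast card_le_card hsub
  refine h1.trans ((mult_blocks (A i.succ) M q hM0 hqpos).trans ?_)
  set b : ℝ := (((A i.succ).image fun a => a / (M : ℤ)).card : ℝ) with hb
  have hb0 : 0 ≤ b := by positivity
  have hqR : (q0 : ℝ) ≤ q := by exact_mod_cast hq0q.le
  have hqR0 : (0 : ℝ) < q := by linarith
  have hq0R : (0 : ℝ) < q0 := by linarith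
  have h2 : (M : ℝ) / q + 1 ≤ 2 * M / q0 := by
    have e1 : (M : ℝ) / q ≤ M / q0 := div_le_div_of_nonneg_left hMpos.le hq0R hqR
    have e2 : 1 ≤ (M : ℝ) / q0 := by rw [le_div_iff₀ hq0R]; linarith
    have e3 : 2 * (M : ℝ) / q0 = M / q0 + M / q0 := by ring
    linarith
  have h3 : 2 / (η * τ) ≤ q0 := by linarith
  rw [div_le_iff₀ (by positivity)] at h3
  calc b * ((M : ℝ) / q + 1) ≤ b * (2 * M / q0) := mul_le_mul_of_nonneg_left h2 hb0
    _ = (η * M * b) * (2 / (η * q0)) := by field_simp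
    _ ≤ (A i.succ).card * (2 / (η * q0)) :=
        mul_le_mul_of_nonneg_right (hblock i) (by positivity)
    _ ≤ (A i.succ).card * τ := by
        refine mul_le_mul_of_nonneg_left ?_ (by positivity)
        rw [div_le_iff₀ (by positivity)]
        linarith
    _ = τ * (A i.succ).card := mul_comm _ _

/-- **Sets that are dense in unions of translates of a pattern** -/
theorem dense_k (m : ℕ) (hm : 1 ≤ m) (ε η : ℝ) (hε : 0 < ε) (hε1 : ε ≤ 1) (hη : 0 < η)
    (T : Finset ℤ) (hT : Real.exp (9 * m / ε) / η ≤ T.card) :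
    ∃ c : ℝ, 0 < c ∧ ∀ A : Fin (m + 1) → Finset ℤ,
      (∀ i, (A i).Nonempty) → (∀ i, (0 : ℤ) ∉ A i) →
      (∀ i : Fin m, ∃ B : Finset ℤ, A i.succ ⊆ B + T ∧
        η * B.card * T.card ≤ (A i.succ).card) →
      c * (∏ i, ((A i).card : ℝ)) ^ (1 - ε) ≤ (∏ i, A i).card := by
  set Q := QT T with hQd
  have hQ : Q ≠ 0 := QT_ne_zero T
  have hTQ := dvd_QT T
  have hD : (1 : ℝ) ≤ Q.divisors.card := by
    have : 0 < Q.divisors.card := card_pos.2 ⟨1, Nat.one_mem_divisors.2 hQ⟩
    exact_mod_cast this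
  refine ⟨1 / (2 * (Q.divisors.card : ℝ)) ^ (2 * m), by positivity, ?_⟩
  intro A hA hA0 hdense
  refine thick m hm ε hε hε1 Q hQ A hA hA0 ?_
  intro i p hp
  obtain ⟨B, hAB, hB⟩ := hdense i
  -- at most one translate for each element of `B`
  have h1 : ((A i.succ).filter fun a => Q.factorization p < fa a p).card ≤ B.card := by
    have hch : ∀ a : ℤ, ∃ b t : ℤ, a ∈ A i.succ → b ∈ B ∧ t ∈ T ∧ b + t = a := by
      intro a
      by_cases ha : a ∈ A i.succ
      · have := hAB ha
        rw [mem_add] at this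
        obtain ⟨b, hb, t, ht, hbt⟩ := this
        exact ⟨b, t, fun _ => ⟨hb, ht, hbt⟩⟩
      · exact ⟨0, 0, fun h => absurd h ha⟩
    choose fb ft hf using hch
    refine card_le_card_of_injOn fb ?_ ?_
    · intro a ha
      rw [mem_coe, mem_filter] at ha
      exact (hf a ha.1).1
    · intro a ha a' ha' haa
      rw [mem_coe, mem_filter] at ha ha'
      obtain ⟨hb, ht, hbt⟩ := hf a ha.1
      obtain ⟨hb', ht', hbt'⟩ := hf a' ha'.1
      by_contra hne
      have htt : ft a ≠ ft a' := by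
        intro h
        apply hne
        rw [← hbt, ← hbt', haa, h]
      have d1 := pow_dvd_of_lt hp ha.2
      have d2 := pow_dvd_of_lt hp ha'.2
      have d3 : (p : ℤ) ^ (Q.factorization p + 1) ∣ ft a' - ft a := by
        have := dvd_sub d2 d1
        have e : a' - a = ft a' - ft a := by
          linarith [hbt, hbt', haa]
        rwa [e] at this
      have d4 := d3.trans (hTQ (ft a) ht (ft a') ht' htt)
      have d5 : p ^ (Q.factorization p + 1) ∣ Q := by exact_mod_cast d4
      have := (hp.pow_dvd_iff_le_factorization hQ).1 d5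
      omega
  have h2 : (((A i.succ).filter fun a => Q.factorization p < fa a p).card : ℝ) ≤ B.card := by
    exact_mod_cast h1
  refine h2.trans ?_
  have hexp := Real.exp_pos (9 * m / ε)
  rw [div_le_iff₀ hη] at hT
  rw [one_div, ← div_eq_inv_mul, le_div_iff₀ hexp]
  have hB0 : (0 : ℝ) ≤ B.card := Nat.cast_nonneg _
  calc (B.card : ℝ) * Real.exp (9 * m / ε) ≤ B.card * (T.card * η) :=
        mul_le_mul_of_nonneg_left hT hB0
    _ = η * B.card * T.card := by ring
    _ ≤ (A i.succ).card := hB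

end Q137.KF
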