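import Mathlib
import Pool.Agent.Q137.KF.Thick

/-!
# Sets covered by few classes with small greatest common divisors have many products
-/

set_option autoImplicit false

namespace Q137.KF

open Finset Pool.Agent.Y359.PE Q137.Shifts ArithmeticFunction
open scoped Classical Pointwise

/-- prime powers dividing `g` -/
lemma sum_vM_le (S : Finset ℕ) (g : ℕ) (hg : g ≠ 0) (hS : ∀ q ∈ S, q ∣ g) :
    ∑ q ∈ S, vonMangoldt q ≤ Real.log g := by
  rw [← vonMangoldt_sum]
  exact sum_le_sum_of_subset_of_nonneg (fun q hq => Nat.mem_divisors.2 ⟨hS q hq, hg⟩)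
    fun _ _ _ => vonMangoldt_nonneg

/-- pairs of elements of one class -/
lemma class_pairs (K : Finset ℤ) (h0 : (0 : ℤ) ∉ K) (H : ℕ) (hH : 1 ≤ H)
    (hK : ∀ a ∈ K, ∀ b ∈ K, a ≠ b → Int.gcd a b ≤ H) (S : Finset ℕ) :
    ∑ q ∈ S, vonMangoldt q * (((K.filter fun a => (q : ℤ) ∣ a).card : ℝ) *
      (((K.filter fun a => (q : ℤ) ∣ a).card : ℝ) - 1)) ≤ (K.card : ℝ) ^ 2 * Real.log H := by
  have hH' : (1 : ℝ) ≤ H := by exact_mod_cast hH
  have hlog : 0 ≤ Real.log H := Real.log_nonneg hH'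
  have h1 : ∀ q ∈ S, vonMangoldt q * (((K.filter fun a => (q : ℤ) ∣ a).card : ℝ) *
      (((K.filter fun a => (q : ℤ) ∣ a).card : ℝ) - 1)) =
      ∑ z ∈ K.offDiag, if (q : ℤ) ∣ z.1 ∧ (q : ℤ) ∣ z.2 then vonMangoldt q else 0 := by
    intro q _
    rw [← sum_filter, sum_const, nsmul_eq_mul]
    have e : (K.offDiag.filter fun z => (q : ℤ) ∣ z.1 ∧ (q : ℤ) ∣ z.2) =
        (K.filter fun a => (q : ℤ) ∣ a).offDiag := by
      ext z
      simp only [mem_filter, mem_offDiag]
      tauto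
    rw [e, offDiag_card]
    have h2 : (K.filter fun a => (q : ℤ) ∣ a).card ≤
        (K.filter fun a => (q : ℤ) ∣ a).card * (K.filter fun a => (q : ℤ) ∣ a).card :=
      Nat.le_mul_self _
    rw [Nat.cast_sub h2]
    push_cast
    ring
  rw [sum_congr rfl h1, sum_comm]
  have h2 : ∀ z ∈ K.offDiag, (∑ q ∈ S, if (q : ℤ) ∣ z.1 ∧ (q : ℤ) ∣ z.2 then vonMangoldt q else 0) ≤
      Real.log H := by
    intro z hz
    rw [mem_offDiag] at hz
    rw [← sum_filter]
    have hz1 : z.1 ≠ 0 := fun h => h0 (h ▸ hz.1)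
    have hg : Int.gcd z.1 z.2 ≠ 0 := fun h => hz1 (Int.gcd_eq_zero_iff.1 h).1
    refine (sum_vM_le _ (Int.gcd z.1 z.2) hg ?_).trans ?_
    · intro q hq
      have := (mem_filter.1 hq).2
      exact Int.dvd_gcd this.1 this.2
    · exact Real.log_le_log (by exact_mod_cast Nat.pos_of_ne_zero hg)
        (by exact_mod_cast hK _ hz.1 _ hz.2.1 hz.2.2)
  refine (sum_le_sum h2).trans ?_
  rw [sum_const, nsmul_eq_mul]
  refine mul_le_mul_of_nonneg_right ?_ hlog
  rw [offDiag_card]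
  have : K.card * K.card - K.card ≤ K.card ^ 2 := by
    rw [pow_two]; exact Nat.sub_le _ _
  exact_mod_cast this

/-- an elementary inequality -/
lemma elem_ineq (θ n d : ℝ) (hθ : 0 < θ) (hn : 0 ≤ n) (hd : 1 ≤ d) (hnd : n ≤ d)
    (hn1 : 0 ≤ n * (n - 1)) :
    n ≤ 1 / θ + θ * d + n * (n - 1) / (θ * d) := by
  have hd0 : 0 < d := by linarith
  have hθd : 0 < θ * d := by positivity
  rcases le_or_gt 1 (θ * d) with h | h
  · have h1 : 0 < 1 / θ := by positivity
    have h2 : n ≤ θ * d + n * (n - 1) / (θ * d) := by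
      rw [← sub_nonneg]
      have e : θ * d + n * (n - 1) / (θ * d) - n =
          ((θ * d) ^ 2 + n * (n - 1) - n * (θ * d)) / (θ * d) := by
        field_simp
      rw [e]
      refine div_nonneg ?_ hθd.le
      nlinarith [sq_nonneg (θ * d - n), mul_nonneg hn (sub_nonneg.2 h)]
    linarith
  · have h1 : n ≤ 1 / θ := by
      rw [le_div_iff₀ hθ]
      nlinarith
    have h2 : 0 ≤ n * (n - 1) / (θ * d) := div_nonneg hn1 hθd.le
    linarith

/-- popular prime powers have a small product -/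
theorem pop_le {ι : Type*} [DecidableEq ι] (A : Finset ℤ) (hA : A.Nonempty) (h0 : (0 : ℤ) ∉ A) (f : ℤ → ι) (H : ℕ)
    (hH : 1 ≤ H) (hf : ∀ a ∈ A, ∀ b ∈ A, a ≠ b → f a = f b → Int.gcd a b ≤ H) (θ : ℝ) (hθ : 0 < θ)
    (hcol : ((A.image f).card : ℝ) ≤ θ ^ 2 * A.card) (S : Finset ℕ)
    (hS : ∀ q ∈ S, 3 * θ * A.card ≤ ((A.filter fun a => (q : ℤ) ∣ a).card : ℝ)) :
    ∑ q ∈ S, vonMangoldt q ≤ Real.log H / θ ^ 2 := by
  have hAc : (0 : ℝ) < A.card := by exact_mod_cast hA.card_pos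
  set d : ι → ℝ := fun κ => ((A.filter fun a => f a = κ).card : ℝ) with hd
  set n : ℕ → ι → ℝ := fun q κ => (((A.filter fun a => f a = κ).filter fun a =>
    (q : ℤ) ∣ a).card : ℝ) with hn
  have hd1 : ∀ κ ∈ A.image f, 1 ≤ d κ := by
    intro κ hκ
    rw [mem_image] at hκ
    obtain ⟨a, ha, rfl⟩ := hκ
    have : 0 < (A.filter fun b => f b = f a).card := card_pos.2 ⟨a, mem_filter.2 ⟨ha, rfl⟩⟩
    simp only [hd]
    exact_mod_cast this
  have hsumd : ∑ κ ∈ A.image f, d κ = A.card := by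
    simp only [hd]
    rw [card_eq_sum_card_image f A]
    push_cast
    rfl
  have hsumn : ∀ q, ∑ κ ∈ A.image f, n q κ = ((A.filter fun a => (q : ℤ) ∣ a).card : ℝ) := by
    intro q
    simp only [hn]
    rw [card_eq_sum_card_fiberwise (s := A.filter fun a => (q : ℤ) ∣ a) (f := f)
      (t := A.image f) (fun a ha => mem_coe.2 (mem_image_of_mem _ (mem_filter.1 ha).1))]
    push_cast
    refine sum_congr rfl fun κ _ => ?_
    rw [filter_filter, filter_filter]
    congr 2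
    ext a
    simp only [mem_filter]
    tauto
  -- for every popular prime power
  have hq : ∀ q ∈ S, θ * A.card ≤ ∑ κ ∈ A.image f, n q κ * (n q κ - 1) / (θ * d κ) := by
    intro q hq
    have h1 := hS q hq
    rw [← hsumn q] at h1
    have h2 : ∑ κ ∈ A.image f, n q κ ≤ ∑ κ ∈ A.image f,
        (1 / θ + θ * d κ + n q κ * (n q κ - 1) / (θ * d κ)) := by
      refine sum_le_sum fun κ hκ => ?_
      refine elem_ineq θ (n q κ) (d κ) hθ (Nat.cast_nonneg _) (hd1 κ hκ) ?_ ?_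
      · simp only [hn, hd]
        exact_mod_cast card_le_card (filter_subset _ _)
      · simp only [hn]
        rcases Nat.eq_zero_or_pos ((A.filter fun a => f a = κ).filter fun a =>
          (q : ℤ) ∣ a).card with h | h
        · rw [h]; simp
        · have : (1 : ℝ) ≤ (((A.filter fun a => f a = κ).filter fun a =>
            (q : ℤ) ∣ a).card : ℝ) := by exact_mod_cast h
          exact mul_nonneg (by linarith) (by linarith)
    rw [sum_add_distrib, sum_add_distrib, sum_const, nsmul_eq_mul, ← mul_sum, hsumd] at h2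
    have h3 : ((A.image f).card : ℝ) * (1 / θ) ≤ θ * A.card := by
      rw [mul_one_div, div_le_iff₀ hθ]
      calc ((A.image f).card : ℝ) ≤ θ ^ 2 * A.card := hcol
        _ = θ * A.card * θ := by ring
    linarith
  have h4 : ∑ q ∈ S, vonMangoldt q * (θ * A.card) ≤ ∑ q ∈ S, vonMangoldt q *
      ∑ κ ∈ A.image f, n q κ * (n q κ - 1) / (θ * d κ) :=
    sum_le_sum fun q hqS => mul_le_mul_of_nonneg_left (hq q hqS) vonMangoldt_nonneg
  have h5 : ∑ q ∈ S, vonMangoldt q * ∑ κ ∈ A.image f, n q κ * (n q κ - 1) / (θ * d κ) =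
      ∑ κ ∈ A.image f, (∑ q ∈ S, vonMangoldt q * (n q κ * (n q κ - 1))) / (θ * d κ) := by
    simp only [mul_sum, sum_div]
    rw [sum_comm]
    refine sum_congr rfl fun κ _ => sum_congr rfl fun q _ => ?_
    ring
  have h6 : ∑ κ ∈ A.image f, (∑ q ∈ S, vonMangoldt q * (n q κ * (n q κ - 1))) / (θ * d κ) ≤
      ∑ κ ∈ A.image f, d κ * (Real.log H / θ) := by
    refine sum_le_sum fun κ hκ => ?_
    have hdκ := hd1 κ hκ
    have hd0 : 0 < d κ := by linarith
    rw [div_le_iff₀ (by positivity)]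
    have h7 := class_pairs (A.filter fun a => f a = κ) (fun h => h0 (mem_filter.1 h).1) H hH
      (fun a ha b hb hab => hf a (mem_filter.1 ha).1 b (mem_filter.1 hb).1 hab
        ((mem_filter.1 ha).2.trans (mem_filter.1 hb).2.symm)) S
    refine h7.trans (le_of_eq ?_)
    simp only [hd]
    field_simp
  rw [← sum_mul] at h4
  rw [h5] at h4
  rw [← sum_mul, hsumd] at h6
  have h8 := h4.trans h6
  rw [le_div_iff₀ (by positivity)]
  have e1 : (A.card : ℝ) * (Real.log H / θ) * θ = A.card * Real.log H := by field_simp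
  have h9 := mul_le_mul_of_nonneg_right h8 hθ.le
  rw [e1] at h9
  have h10 : (∑ q ∈ S, vonMangoldt q) * θ ^ 2 * A.card ≤ Real.log H * A.card := by
    calc (∑ q ∈ S, vonMangoldt q) * θ ^ 2 * A.card = (∑ q ∈ S, vonMangoldt q) * (θ * A.card) * θ := by
          ring
      _ ≤ A.card * Real.log H := h9
      _ = _ := _root_.mul_comm _ _
  exact le_of_mul_le_mul_right h10 hAc

/-- the least common multiple of the popular prime powers -/
theorem exists_Q {ι : Type*} [DecidableEq ι] (A : Finset ℤ) (hA : A.Nonempty) (h0 : (0 : ℤ) ∉ A) (f : ℤ → ι) (H : ℕ)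
    (hH : 1 ≤ H) (hf : ∀ a ∈ A, ∀ b ∈ A, a ≠ b → f a = f b → Int.gcd a b ≤ H) (θ : ℝ) (hθ : 0 < θ)
    (hcol : ((A.image f).card : ℝ) ≤ θ ^ 2 * A.card) :
    ∃ Q : ℕ, Q ≠ 0 ∧ Real.log Q ≤ Real.log H / θ ^ 2 ∧ ∀ p : ℕ, p.Prime →
      ((A.filter fun a => Q.factorization p < fa a p).card : ℝ) ≤ 3 * θ * A.card := by
  have hAc : (0 : ℝ) < A.card := by exact_mod_cast hA.card_pos
  set B := ∑ a ∈ A, a.natAbs with hB
  set S : Finset ℕ := (range (B + 1)).filter fun q : ℕ => IsPrimePow q ∧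
    3 * θ * A.card ≤ ((A.filter fun a => (q : ℤ) ∣ a).card : ℝ) with hS
  have hmemS : ∀ q : ℕ, IsPrimePow q → 3 * θ * A.card ≤ ((A.filter fun a => (q : ℤ) ∣ a).card : ℝ) →
      q ∈ S := by
    intro q hq1 hq2
    rw [hS, mem_filter, mem_range]
    refine ⟨?_, hq1, hq2⟩
    have hpos : (0 : ℝ) < ((A.filter fun a => (q : ℤ) ∣ a).card : ℝ) :=
      lt_of_lt_of_le (by positivity) hq2
    obtain ⟨a, ha⟩ := card_pos.1 (by exact_mod_cast hpos)
    rw [mem_filter] at ha
    have ha0 : a ≠ 0 := fun h => h0 (h ▸ ha.1)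
    have h1 : q ≤ a.natAbs := Nat.le_of_dvd (Int.natAbs_pos.2 ha0) (by
      have := Int.natAbs_dvd_natAbs.2 ha.2
      simpa using this)
    have h2 : a.natAbs ≤ B := single_le_sum (f := fun a : ℤ => a.natAbs) (fun _ _ => Nat.zero_le _) ha.1
    omega
  have hS0 : ∀ q ∈ S, q ≠ 0 := fun q hq => (mem_filter.1 hq).2.1.ne_zero
  set Q := S.lcm id with hQ
  have hQ0 : Q ≠ 0 := by
    rw [hQ, Ne, Finset.lcm_eq_zero_iff]
    rintro ⟨q, hq, hq0⟩
    exact hS0 q hq hq0
  refine ⟨Q, hQ0, ?_, ?_⟩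
  · refine le_trans ?_ (pop_le A hA h0 f H hH hf θ hθ hcol S fun q hq => (mem_filter.1 hq).2.2)
    rw [← vonMangoldt_sum]
    have h1 : ∑ i ∈ Q.divisors, vonMangoldt i =
        ∑ i ∈ Q.divisors.filter fun i => IsPrimePow i, vonMangoldt i := by
      rw [sum_filter]
      refine sum_congr rfl fun i _ => ?_
      split_ifs with h
      · rfl
      · exact vonMangoldt_eq_zero_iff.2 h
    rw [h1]
    refine sum_le_sum_of_subset_of_nonneg ?_ fun _ _ _ => vonMangoldt_nonneg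
    intro i hi
    rw [mem_filter, Nat.mem_divisors] at hi
    obtain ⟨⟨hiQ, _⟩, hpp⟩ := hi
    obtain ⟨p, k, hp, hk, rfl⟩ := (isPrimePow_nat_iff i).1 hpp
    have h2 : k ≤ Q.factorization p := (hp.pow_dvd_iff_le_factorization hQ0).1 hiQ
    rw [hQ, Finset.factorization_lcm (f := id) (fun q hq => hS0 q hq)] at h2
    have h3 : k - 1 < S.sup fun q => (id q : ℕ).factorization p := by omega
    rw [Finset.lt_sup_iff] at h3
    obtain ⟨q, hq, hqk⟩ := h3
    have h4 : p ^ k ∣ q := by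
      rw [hp.pow_dvd_iff_le_factorization (hS0 q hq)]
      simp only [id] at hqk
      omega
    refine hmemS _ hpp ?_
    refine (mem_filter.1 hq).2.2.trans ?_
    have : (A.filter fun a => (q : ℤ) ∣ a) ⊆ A.filter fun a => ((p ^ k : ℕ) : ℤ) ∣ a := by
      intro a ha
      rw [mem_filter] at ha ⊢
      exact ⟨ha.1, (Int.natCast_dvd_natCast.2 h4).trans ha.2⟩
    exact_mod_cast card_le_card this
  · intro p hp
    by_contra hcon
    push Not at hcon
    have h1 : p ^ (Q.factorization p + 1) ∈ S := by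
      refine hmemS _ (hp.isPrimePow.pow (by omega)) ?_
      refine hcon.le.trans ?_
      have : (A.filter fun a => Q.factorization p < fa a p) ⊆
          A.filter fun a => ((p ^ (Q.factorization p + 1) : ℕ) : ℤ) ∣ a := by
        intro a ha
        rw [mem_filter] at ha ⊢
        refine ⟨ha.1, ?_⟩
        have := pow_dvd_of_lt hp ha.2
        push_cast
        exact this
      exact_mod_cast card_le_card this
    have h2 : p ^ (Q.factorization p + 1) ∣ Q := by
      rw [hQ]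
      exact Finset.dvd_lcm (f := id) h1
    have := (hp.pow_dvd_iff_le_factorization hQ0).1 h2
    omega

/-- **Few classes with small greatest common divisors: many products.** -/
theorem classes (m : ℕ) (hm : 1 ≤ m) (ε : ℝ) (hε : 0 < ε) (hε1 : ε ≤ 1) (η : ℝ) (hη : 0 < η) :
    ∃ c : ℝ, 0 < c ∧ ∀ {ι : Type} [DecidableEq ι] (H : ℕ), 1 ≤ H → ∀ A C : Finset ℤ, A.Nonempty → C.Nonempty →
    (0 : ℤ) ∉ A → (0 : ℤ) ∉ C → ∀ f : ℤ → ι,
    (∀ a ∈ A, ∀ b ∈ A, a ≠ b → f a = f b → Int.gcd a b ≤ H) →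
    ((A.image f).card : ℝ) ≤ Real.exp (-(21 * m / ε)) * A.card →
    c * (H : ℝ) ^ (-η) * ((A.card : ℝ) ^ m * C.card) ^ (1 - ε) ≤ (A ^ m * C).card := by
  have hmR : (1 : ℝ) ≤ m := by exact_mod_cast hm
  obtain ⟨θ, hθd⟩ : ∃ θ : ℝ, θ = Real.exp (-(21 * m / ε) / 2) := ⟨_, rfl⟩
  have hθ : 0 < θ := by rw [hθd]; exact Real.exp_pos _
  have hθ2 : θ ^ 2 = Real.exp (-(21 * m / ε)) := by
    rw [hθd, pow_two, ← Real.exp_add]
    congr 1
    ring
  have hme : 1 ≤ m / ε := by
    rw [one_le_div hε]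
    linarith
  have hθ3 : 3 * θ ≤ 1 / Real.exp (9 * m / ε) := by
    have h3 : (3 : ℝ) ≤ Real.exp (3 / 2 * (m / ε)) := by
      have h31 : Real.exp (3 / 2) ≤ Real.exp (3 / 2 * (m / ε)) :=
        Real.exp_le_exp.2 (by linarith)
      refine le_trans ?_ h31
      have h32 : Real.exp 1 ^ 3 = Real.exp (3 / 2) ^ 2 := by
        rw [← Real.exp_nat_mul, ← Real.exp_nat_mul]
        norm_num
      have h33 := Real.exp_one_gt_d9
      have h34 : (0 : ℝ) < Real.exp (3 / 2) := Real.exp_pos _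
      have h35 : (9 : ℝ) ≤ Real.exp (3 / 2) ^ 2 := by
        rw [← h32]
        have : (2.7 : ℝ) ≤ Real.exp 1 := by linarith
        have h36 : (2.7 : ℝ) ^ 3 ≤ Real.exp 1 ^ 3 := pow_le_pow_left₀ (by norm_num) this 3
        linarith [show (9 : ℝ) ≤ (2.7 : ℝ) ^ 3 by norm_num]
      nlinarith
    have e1 : Real.exp (9 * m / ε) * θ * Real.exp (3 / 2 * (m / ε)) = 1 := by
      rw [hθd, ← Real.exp_add, ← Real.exp_add]
      have : 9 * (m : ℝ) / ε + -(21 * m / ε) / 2 + 3 / 2 * (m / ε) = 0 := by ring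
      rw [this, Real.exp_zero]
    rw [le_div_iff₀ (Real.exp_pos _)]
    have h9 := Real.exp_pos (9 * m / ε)
    nlinarith [mul_pos h9 hθ]
  -- the divisor bound
  set κ : ℝ := η * θ ^ 2 / (2 * m) with hκ
  have hκ0 : 0 < κ := by positivity
  obtain ⟨K, hK0, hK⟩ := Pool.Agent.H510R2.divisor_bound κ hκ0
  have hK1 : 1 ≤ K := by
    have := hK 1 le_rfl
    simpa using this
  refine ⟨1 / (2 * K) ^ (2 * m), by positivity, ?_⟩
  intro ι _ H hH A C hA hC hA0 hC0 f hf hcol
  rw [← hθ2] at hcol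
  obtain ⟨Q, hQ0, hQ1, hQ2⟩ := exists_Q A hA hA0 f H hH hf θ hθ hcol
  have hth := thick m hm ε hε hε1 Q hQ0
    (Fin.cons C fun _ => A) (by
      intro i
      refine Fin.cases ?_ (fun j => ?_) i
      · exact hC
      · exact hA) (by
      intro i
      refine Fin.cases ?_ (fun j => ?_) i
      · exact hC0
      · exact hA0) (by
      intro i p hp
      rw [Fin.cons_succ]
      exact (hQ2 p hp).trans (mul_le_mul_of_nonneg_right hθ3 (Nat.cast_nonneg _)))
  have e1 : ∏ i : Fin (m + 1), ((((Fin.cons C fun _ => A : Fin (m + 1) → Finset ℤ) i).card : ℝ)) =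
      (A.card : ℝ) ^ m * C.card := by
    rw [Fin.prod_univ_succ]
    simp only [Fin.cons_zero, Fin.cons_succ]
    rw [prod_const, card_univ, Fintype.card_fin, _root_.mul_comm]
  have e2 : ∏ i : Fin (m + 1), (Fin.cons C fun _ => A : Fin (m + 1) → Finset ℤ) i =
      A ^ m * C := by
    rw [Fin.prod_univ_succ]
    simp only [Fin.cons_zero, Fin.cons_succ]
    rw [prod_const, card_univ, Fintype.card_fin, _root_.mul_comm]
  rw [e1, e2] at hth
  refine le_trans ?_ hth
  refine mul_le_mul_of_nonneg_right ?_ (Real.rpow_nonneg (by positivity) _)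
  have hH' : (1 : ℝ) ≤ H := by exact_mod_cast hH
  have hH0 : (0 : ℝ) < H := by linarith
  have hQR : (1 : ℝ) ≤ Q := by exact_mod_cast Nat.one_le_iff_ne_zero.2 hQ0
  have hQR0 : (0 : ℝ) < Q := by linarith
  have hτ := hK Q (Nat.one_le_iff_ne_zero.2 hQ0)
  have hτ1 : (1 : ℝ) ≤ Q.divisors.card := by
    have : 0 < Q.divisors.card := card_pos.2 ⟨1, Nat.one_mem_divisors.2 hQ0⟩
    exact_mod_cast this
  have hQH : (Q : ℝ) ^ κ ≤ (H : ℝ) ^ (η / (2 * m)) := by
    rw [← Real.log_le_log_iff (Real.rpow_pos_of_pos hQR0 _) (Real.rpow_pos_of_pos hH0 _),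
      Real.log_rpow hQR0, Real.log_rpow hH0]
    calc κ * Real.log Q ≤ κ * (Real.log H / θ ^ 2) := mul_le_mul_of_nonneg_left hQ1 hκ0.le
      _ = η / (2 * m) * Real.log H := by rw [hκ]; field_simp
  have h1 : 2 * (Q.divisors.card : ℝ) ≤ 2 * K * (H : ℝ) ^ (η / (2 * m)) := by
    calc 2 * (Q.divisors.card : ℝ) ≤ 2 * (K * (Q : ℝ) ^ κ) := by linarith
      _ ≤ 2 * (K * (H : ℝ) ^ (η / (2 * m))) := by
          have := mul_le_mul_of_nonneg_left hQH hK0.le
          linarith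
      _ = _ := by ring
  have h2 : (2 * (Q.divisors.card : ℝ)) ^ (2 * m) ≤ (2 * K) ^ (2 * m) * (H : ℝ) ^ η := by
    calc (2 * (Q.divisors.card : ℝ)) ^ (2 * m) ≤ (2 * K * (H : ℝ) ^ (η / (2 * m))) ^ (2 * m) :=
          pow_le_pow_left₀ (by linarith) h1 _
      _ = (2 * K) ^ (2 * m) * (H : ℝ) ^ η := by
          rw [mul_pow, ← Real.rpow_natCast ((H : ℝ) ^ (η / (2 * m))), ← Real.rpow_mul hH0.le]
          congr 2
          push_cast
          field_simp
  have h3 : 0 < (2 * (Q.divisors.card : ℝ)) ^ (2 * m) := by positivity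
  have h4 : 0 < (H : ℝ) ^ η := Real.rpow_pos_of_pos hH0 _
  rw [Real.rpow_neg hH0.le, one_div, one_div, ← mul_inv]
  exact inv_anti₀ h3 h2

end Q137.KF
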