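import Mathlib
import Pool.Agent.Q137.KF.Classes

/-!
# Few products, few additive coincidences with bounded sets
-/

set_option autoImplicit false

namespace Q137.KF

open Finset Pool.Agent.Y359.PE Q137.Shifts
open scoped Classical Pointwise

/-- greedy covering by translates -/
lemma greedy (T : Finset ℤ) (K : ℝ) (hK : 0 < K) : ∀ (n : ℕ) (A : Finset ℤ), A.card ≤ n →
    ∃ A1 ⊆ A, ∃ f : ℤ → ℤ, (∀ a ∈ A1, f a - a ∈ T) ∧ K * ((A1.image f).card : ℝ) ≤ A1.card ∧
    ∀ x : ℤ, (((A \ A1).filter fun a => x - a ∈ T).card : ℝ) < K := by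
  intro n
  induction n with
  | zero =>
    intro A hA
    have : A = ∅ := card_eq_zero.1 (by omega)
    subst this
    exact ⟨∅, Subset.refl _, id, by simp, by simp, fun x => by simpa using hK⟩
  | succ n ih =>
    intro A hA
    by_cases h : ∃ x : ℤ, K ≤ ((A.filter fun a => x - a ∈ T).card : ℝ)
    · obtain ⟨x, hx⟩ := h
      set R := A.filter fun a => x - a ∈ T with hR
      have hRpos : 0 < R.card := by
        have : (0 : ℝ) < R.card := lt_of_lt_of_le hK hx
        exact_mod_cast this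
      have hRA : R ⊆ A := filter_subset _ _
      have hc : (A \ R).card ≤ n := by
        have := card_sdiff_add_card_eq_card hRA
        omega
      obtain ⟨A1, hA1, f, hf, hfc, hrest⟩ := ih (A \ R) hc
      have hdisj : Disjoint R A1 := by
        rw [disjoint_left]
        intro a ha ha1
        exact (mem_sdiff.1 (hA1 ha1)).2 ha
      refine ⟨R ∪ A1, union_subset hRA (hA1.trans sdiff_subset), fun a => if a ∈ R then x else f a,
        ?_, ?_, ?_⟩
      · intro a ha
        rw [mem_union] at ha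
        by_cases haR : a ∈ R
        · simp only [haR, if_true]
          exact (mem_filter.1 haR).2
        · simp only [haR, if_false]
          exact hf a (ha.resolve_left haR)
      · have h1 : ((R ∪ A1).image fun a => if a ∈ R then x else f a) ⊆ insert x (A1.image f) := by
          intro y hy
          rw [mem_image] at hy
          obtain ⟨a, ha, rfl⟩ := hy
          rw [mem_insert]
          by_cases haR : a ∈ R
          · left; simp only [haR, if_true]
          · right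
            simp only [haR, if_false]
            exact mem_image_of_mem _ ((mem_union.1 ha).resolve_left haR)
        have h2 : (((R ∪ A1).image fun a => if a ∈ R then x else f a).card : ℝ) ≤
            (A1.image f).card + 1 := by
          have := (card_le_card h1).trans (card_insert_le _ _)
          exact_mod_cast this
        rw [card_union_of_disjoint hdisj]
        push_cast
        nlinarith
      · intro y
        have : A \ (R ∪ A1) = (A \ R) \ A1 := by
          ext a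
          simp only [mem_sdiff, mem_union]
          tauto
        rw [this]
        exact hrest y
    · push Not at h
      exact ⟨∅, empty_subset _, id, by simp, by simp, fun x => by simpa using h x⟩

/-- the product bound for a set covered greedily -/
lemma many_of_cover (m : ℕ) (ε : ℝ) (hε : 0 < ε) (hε1 : ε ≤ 1) (η : ℝ) (hη : 0 < η) (c : ℝ)
    (hc0 : 0 < c)
    (hc : ∀ {ι : Type} [DecidableEq ι] (H : ℕ), 1 ≤ H → ∀ A C : Finset ℤ, A.Nonempty → C.Nonempty →
    (0 : ℤ) ∉ A → (0 : ℤ) ∉ C → ∀ f : ℤ → ι,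
    (∀ a ∈ A, ∀ b ∈ A, a ≠ b → f a = f b → Int.gcd a b ≤ H) →
    ((A.image f).card : ℝ) ≤ Real.exp (-(21 * m / ε)) * A.card →
    c * (H : ℝ) ^ (-η) * ((A.card : ℝ) ^ m * C.card) ^ (1 - ε) ≤ (A ^ m * C).card)
    (M : ℕ) (hM : 1 ≤ M) (T : Finset ℤ) (hT : ∀ t ∈ T, |t| ≤ M) (A A1 C : Finset ℤ)
    (hC : C.Nonempty) (hA0 : (0 : ℤ) ∉ A) (hC0 : (0 : ℤ) ∉ C) (hA1 : A1 ⊆ A) (f : ℤ → ℤ)
    (hf : ∀ a ∈ A1, f a - a ∈ T)
    (hfc : Real.exp (21 * m / ε) * ((A1.image f).card : ℝ) ≤ A1.card) (S : ℝ) (hS0 : 0 < S)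
    (hS : S ≤ 2 * A1.card) :
    c / 2 ^ (m + η) * (M : ℝ) ^ (-η) * (S ^ m * C.card) ^ (1 - ε) ≤ (A ^ m * C).card := by
  have hMR : (1 : ℝ) ≤ M := by exact_mod_cast hM
  have hM0 : (0 : ℝ) < M := by linarith
  have hA1pos : (0 : ℝ) < A1.card := by linarith
  have hA1ne : A1.Nonempty := card_pos.1 (by exact_mod_cast hA1pos)
  have hCc : (0 : ℝ) < C.card := by exact_mod_cast hC.card_pos
  have h1 := hc (2 * M) (by omega) A1 C hA1ne hC (fun h => hA0 (hA1 h)) hC0 f (by
    intro a ha b hb hab hfab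
    have h2 := hT _ (hf a ha)
    have h3 := hT _ (hf b hb)
    rw [← hfab] at h3
    have h4 : |a - b| ≤ 2 * M := by
      have e : a - b = (f a - b) - (f a - a) := by ring
      rw [e]
      refine (abs_sub _ _).trans ?_
      linarith
    have h5 : ((Int.gcd a b : ℕ) : ℤ) ∣ a - b :=
      dvd_sub (Int.gcd_dvd_left a b) (Int.gcd_dvd_right a b)
    have h6 : Int.gcd a b ≤ (a - b).natAbs :=
      Nat.le_of_dvd (Int.natAbs_pos.2 (sub_ne_zero.2 hab)) (Int.natCast_dvd.1 h5)
    have h7 : ((a - b).natAbs : ℤ) ≤ 2 * M := by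
      rw [Int.natCast_natAbs]; exact h4
    omega) (by
    rw [Real.exp_neg, ← div_eq_inv_mul, le_div_iff₀ (Real.exp_pos _)]
    exact (le_of_eq (_root_.mul_comm _ _)).trans hfc)
  have h2 : ((A1 ^ m * C).card : ℝ) ≤ (A ^ m * C).card := by
    exact_mod_cast card_le_card (mul_subset_mul (pow_subset_pow_left hA1) (Subset.refl _))
  refine le_trans ?_ (h1.trans h2)
  push_cast
  rw [Real.mul_rpow (by norm_num) hM0.le]
  have h3 : (S ^ m * C.card) ^ (1 - ε) ≤ 2 ^ m * ((A1.card : ℝ) ^ m * C.card) ^ (1 - ε) := by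
    calc (S ^ m * C.card) ^ (1 - ε) ≤ (2 ^ m * ((A1.card : ℝ) ^ m * C.card)) ^ (1 - ε) := by
          refine Real.rpow_le_rpow (by positivity) ?_ (by linarith)
          rw [← mul_assoc, ← mul_pow]
          exact mul_le_mul_of_nonneg_right (pow_le_pow_left₀ hS0.le hS m) hCc.le
      _ = ((2 : ℝ) ^ m) ^ (1 - ε) * ((A1.card : ℝ) ^ m * C.card) ^ (1 - ε) :=
          Real.mul_rpow (by positivity) (by positivity)
      _ ≤ 2 ^ m * ((A1.card : ℝ) ^ m * C.card) ^ (1 - ε) := by
          refine mul_le_mul_of_nonneg_right ?_ (Real.rpow_nonneg (by positivity) _)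
          have h5 : (1 : ℝ) ≤ 2 ^ m := one_le_pow₀ (by norm_num)
          calc ((2 : ℝ) ^ m) ^ (1 - ε) ≤ ((2 : ℝ) ^ m) ^ (1 : ℝ) :=
                Real.rpow_le_rpow_of_exponent_le h5 (by linarith)
            _ = 2 ^ m := Real.rpow_one _
  have h2η : (0 : ℝ) < 2 ^ η := Real.rpow_pos_of_pos (by norm_num) _
  have e1 : (2 : ℝ) ^ (m + η) = 2 ^ m * 2 ^ η := by
    rw [Real.rpow_add (by norm_num), Real.rpow_natCast]
  rw [e1, Real.rpow_neg (by norm_num : (0 : ℝ) ≤ 2)]
  have hMη : 0 < (M : ℝ) ^ (-η) := Real.rpow_pos_of_pos hM0 _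
  calc c / (2 ^ m * 2 ^ η) * (M : ℝ) ^ (-η) * (S ^ m * C.card) ^ (1 - ε)
      ≤ c / (2 ^ m * 2 ^ η) * (M : ℝ) ^ (-η) *
        (2 ^ m * ((A1.card : ℝ) ^ m * C.card) ^ (1 - ε)) :=
        mul_le_mul_of_nonneg_left h3 (by positivity)
    _ = c * ((2 ^ η)⁻¹ * (M : ℝ) ^ (-η)) * ((A1.card : ℝ) ^ m * C.card) ^ (1 - ε) := by
        field_simp

/-- **Sums with a bounded set, or many products.** -/
theorem sums (m : ℕ) (hm : 1 ≤ m) (ε : ℝ) (hε : 0 < ε) (hε1 : ε ≤ 1) (η : ℝ) (hη : 0 < η) :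
    ∃ c : ℝ, 0 < c ∧ ∀ M : ℕ, 1 ≤ M → ∀ T : Finset ℤ, (∀ t ∈ T, |t| ≤ M) →
    ∀ A C : Finset ℤ, A.Nonempty → C.Nonempty → (0 : ℤ) ∉ A → (0 : ℤ) ∉ C →
    (Real.exp (-(21 * m / ε)) / 2 * A.card * T.card ≤ (A + T).card ∨
    c * (M : ℝ) ^ (-η) * ((A.card : ℝ) ^ m * C.card) ^ (1 - ε) ≤ (A ^ m * C).card) := by
  obtain ⟨c, hc0, hc⟩ := classes m hm ε hε hε1 η hη
  refine ⟨c / 2 ^ (m + η), by positivity, ?_⟩
  intro M hM T hT A C hA hC hA0 hC0
  rw [or_iff_not_imp_left]
  intro hfew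
  push Not at hfew
  have hK : 0 < Real.exp (21 * m / ε) := Real.exp_pos _
  obtain ⟨A1, hA1, f, hf, hfc, hrest⟩ := greedy T _ hK A.card A le_rfl
  have hAc : (0 : ℝ) < A.card := by exact_mod_cast hA.card_pos
  have hTpos : (0 : ℝ) < T.card := by
    by_contra h
    have : (T.card : ℝ) = 0 := le_antisymm (not_lt.1 h) (Nat.cast_nonneg _)
    rw [this, mul_zero] at hfew
    have : (0 : ℝ) ≤ (A + T).card := Nat.cast_nonneg _
    linarith
  -- the rest is small
  have h1 : ((A \ A1).card : ℝ) * T.card ≤ Real.exp (21 * m / ε) * (A + T).card := by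
    have h2 : (A \ A1).card * T.card = ∑ x ∈ A + T, ((A \ A1).filter fun a => x - a ∈ T).card := by
      rw [← card_product, ← card_sigma]
      refine card_bij (fun z _ => (⟨z.1 + z.2, z.1⟩ : (_ : ℤ) × ℤ)) ?_ ?_ ?_
      · rintro ⟨a, t⟩ hz
        rw [mem_product] at hz
        rw [mem_sigma]
        refine ⟨add_mem_add (mem_sdiff.1 hz.1).1 hz.2, mem_filter.2 ⟨hz.1, ?_⟩⟩
        simpa using hz.2
      · rintro ⟨a, t⟩ _ ⟨a', t'⟩ _ he
        simp only [Sigma.mk.injEq, heq_eq_eq] at he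
        obtain ⟨he1, he2⟩ := he
        subst he2
        simp only [Prod.mk.injEq, true_and]
        linarith
      · rintro ⟨x, a⟩ hz
        rw [mem_sigma] at hz
        have h3 := mem_filter.1 hz.2
        refine ⟨(a, x - a), mem_product.2 ⟨h3.1, h3.2⟩, ?_⟩
        simp
    have h3 : ((A \ A1).card : ℝ) * T.card =
        ∑ x ∈ A + T, (((A \ A1).filter fun a => x - a ∈ T).card : ℝ) := by
      exact_mod_cast h2
    rw [h3]
    refine (sum_le_sum fun x _ => (hrest x).le).trans (le_of_eq ?_)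
    rw [sum_const, nsmul_eq_mul, _root_.mul_comm]
  have h2 : Real.exp (21 * m / ε) * (A + T).card < A.card / 2 * T.card := by
    have := mul_lt_mul_of_pos_left hfew hK
    refine lt_of_lt_of_eq this ?_
    rw [Real.exp_neg]
    field_simp
  have h3 : ((A \ A1).card : ℝ) < A.card / 2 := lt_of_mul_lt_mul_right (h1.trans_lt h2) hTpos.le
  have h4 : ((A \ A1).card : ℝ) + A1.card = A.card := by
    exact_mod_cast card_sdiff_add_card_eq_card hA1
  exact many_of_cover m ε hε hε1 η hη c hc0 hc M hM T hT A A1 C hC hA0 hC0 hA1 f hf hfc A.card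
    hAc (by linarith)

/-- **Elements with many neighbours, or many products.** -/
theorem neighbours (m : ℕ) (hm : 1 ≤ m) (ε : ℝ) (hε : 0 < ε) (hε1 : ε ≤ 1) (η : ℝ) (hη : 0 < η) :
    ∃ c : ℝ, 0 < c ∧ ∀ M : ℕ, 1 ≤ M → ∀ T : Finset ℤ, (∀ t ∈ T, |t| ≤ M) →
    ∀ A C : Finset ℤ, C.Nonempty → (0 : ℤ) ∉ A → (0 : ℤ) ∉ C → ∀ ρ : ℝ, 0 < ρ → ∀ S ⊆ A,
    S.Nonempty → (∀ a ∈ S, ρ ≤ ((A.filter fun b => b - a ∈ T).card : ℝ)) →
    (ρ * S.card < 2 * Real.exp (21 * m / ε) * A.card ∨
    c * (M : ℝ) ^ (-η) * ((S.card : ℝ) ^ m * C.card) ^ (1 - ε) ≤ (A ^ m * C).card) := by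
  obtain ⟨c, hc0, hc⟩ := classes m hm ε hε hε1 η hη
  refine ⟨c / 2 ^ (m + η), by positivity, ?_⟩
  intro M hM T hT A C hC hA0 hC0 ρ hρ S hSA hS hSρ
  rw [or_iff_not_imp_left]
  intro hbig
  push Not at hbig
  have hK : 0 < Real.exp (21 * m / ε) := Real.exp_pos _
  obtain ⟨A1, hA1, f, hf, hfc, hrest⟩ := greedy T _ hK S.card S le_rfl
  have hSc : (0 : ℝ) < S.card := by exact_mod_cast hS.card_pos
  have h1 : ρ * ((S \ A1).card : ℝ) ≤ Real.exp (21 * m / ε) * A.card := by
    have h2 : ∑ a ∈ S \ A1, (A.filter fun b => b - a ∈ T).card =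
        ∑ b ∈ A, ((S \ A1).filter fun a => b - a ∈ T).card := by
      simp only [card_filter]
      exact sum_comm
    have h2' : ∑ a ∈ S \ A1, ((A.filter fun b => b - a ∈ T).card : ℝ) =
        ∑ b ∈ A, (((S \ A1).filter fun a => b - a ∈ T).card : ℝ) := by exact_mod_cast h2
    have h3 : ρ * ((S \ A1).card : ℝ) ≤ ∑ a ∈ S \ A1, ((A.filter fun b => b - a ∈ T).card : ℝ) := by
      rw [_root_.mul_comm, ← nsmul_eq_mul, ← sum_const]
      exact sum_le_sum fun a ha => hSρ a (mem_sdiff.1 ha).1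
    rw [h2'] at h3
    refine h3.trans ?_
    refine (sum_le_sum fun x _ => (hrest x).le).trans (le_of_eq ?_)
    rw [sum_const, nsmul_eq_mul, _root_.mul_comm]
  have h3 : ((S \ A1).card : ℝ) ≤ S.card / 2 := by
    have : ρ * ((S \ A1).card : ℝ) ≤ ρ * (S.card / 2) := by linarith
    exact le_of_mul_le_mul_left this hρ
  have h4 : ((S \ A1).card : ℝ) + A1.card = S.card := by
    exact_mod_cast card_sdiff_add_card_eq_card hA1
  exact many_of_cover m ε hε hε1 η hη c hc0 hc M hM T hT A A1 C hC hA0 hC0 (hA1.trans hSA) f hf hfc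
    S.card hSc (by linarith)

/-- **Popular differences, or many products.** -/
theorem popular (m : ℕ) (hm : 1 ≤ m) (ε : ℝ) (hε : 0 < ε) (hε1 : ε ≤ 1) (η : ℝ) (hη : 0 < η) :
    ∃ c : ℝ, 0 < c ∧ ∀ M : ℕ, 1 ≤ M → ∀ A C : Finset ℤ, A.Nonempty → C.Nonempty → (0 : ℤ) ∉ A →
    (0 : ℤ) ∉ C → ∀ θ : ℝ, 0 < θ →
    ((((Icc (-(M : ℤ)) M).filter fun d => θ * A.card ≤
        ((A.filter fun a => a + d ∈ A).card : ℝ)).card : ℝ) ≤ 8 * Real.exp (21 * m / ε) / θ ^ 2 ∨
    c * (M : ℝ) ^ (-η) * ((θ * A.card) ^ m * C.card) ^ (1 - ε) ≤ (A ^ m * C).card) := by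
  obtain ⟨c, hc0, hc⟩ := neighbours m hm ε hε hε1 η hη
  refine ⟨c / 2 ^ m, by positivity, ?_⟩
  intro M hM A C hA hC hA0 hC0 θ hθ
  rw [or_iff_not_imp_left]
  intro hbig
  push Not at hbig
  set D := (Icc (-(M : ℤ)) M).filter fun d => θ * A.card ≤
        ((A.filter fun a => a + d ∈ A).card : ℝ) with hD
  have hAc : (0 : ℝ) < A.card := by exact_mod_cast hA.card_pos
  have hCc : (0 : ℝ) < C.card := by exact_mod_cast hC.card_pos
  have hK : 0 < Real.exp (21 * m / ε) := Real.exp_pos _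
  have hDpos : (0 : ℝ) < D.card := lt_trans (by positivity) hbig
  have hDM : ∀ t ∈ D, |t| ≤ (M : ℤ) := by
    intro t ht
    have := (mem_filter.1 ht).1
    rw [mem_Icc] at this
    exact abs_le.2 this
  set ρ : ℝ := θ * D.card / 2 with hρ
  have hρ0 : 0 < ρ := by positivity
  set S := A.filter fun a => ρ ≤ ((A.filter fun b => b - a ∈ D).card : ℝ) with hS
  -- double counting
  have hcount : ∀ a ∈ A, (A.filter fun b => b - a ∈ D).card = (D.filter fun d => a + d ∈ A).card := by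
    intro a _
    refine card_bij (fun b _ => b - a) ?_ ?_ ?_
    · intro b hb
      rw [mem_filter] at hb ⊢
      exact ⟨hb.2, by rw [add_sub_cancel]; exact hb.1⟩
    · intro b _ b' _ h
      linarith
    · intro d hd
      rw [mem_filter] at hd
      refine ⟨a + d, mem_filter.2 ⟨hd.2, ?_⟩, by ring⟩
      rw [add_sub_cancel_left]
      exact hd.1
  have h1 : θ * A.card * D.card ≤ ∑ a ∈ A, ((A.filter fun b => b - a ∈ D).card : ℝ) := by
    have e : ∑ a ∈ A, (A.filter fun b => b - a ∈ D).card =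
        ∑ d ∈ D, (A.filter fun a => a + d ∈ A).card := by
      rw [sum_congr rfl hcount]
      simp only [card_filter]
      exact sum_comm
    have e' : ∑ a ∈ A, ((A.filter fun b => b - a ∈ D).card : ℝ) =
        ∑ d ∈ D, ((A.filter fun a => a + d ∈ A).card : ℝ) := by exact_mod_cast e
    rw [e', _root_.mul_comm, ← nsmul_eq_mul, ← sum_const]
    exact sum_le_sum fun d hd => (mem_filter.1 hd).2
  have h2 : ∑ a ∈ A, ((A.filter fun b => b - a ∈ D).card : ℝ) ≤ S.card * D.card + ρ * A.card := by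
    rw [← sum_filter_add_sum_filter_not A fun a => ρ ≤ ((A.filter fun b => b - a ∈ D).card : ℝ)]
    refine add_le_add ?_ ?_
    · rw [← nsmul_eq_mul, ← sum_const]
      refine sum_le_sum fun a ha => ?_
      rw [hcount a (mem_filter.1 ha).1]
      exact_mod_cast card_le_card (filter_subset _ _)
    · have h3 : ∑ a ∈ A.filter fun a => ¬ ρ ≤ ((A.filter fun b => b - a ∈ D).card : ℝ),
          ((A.filter fun b => b - a ∈ D).card : ℝ) ≤
          ∑ _a ∈ A.filter fun a => ¬ ρ ≤ ((A.filter fun b => b - a ∈ D).card : ℝ), ρ :=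
        sum_le_sum fun a ha => (not_le.1 (mem_filter.1 ha).2).le
      refine h3.trans ?_
      rw [sum_const, nsmul_eq_mul, _root_.mul_comm]
      refine mul_le_mul_of_nonneg_left ?_ hρ0.le
      exact_mod_cast card_le_card (filter_subset _ _)
  have h3 : θ * A.card / 2 ≤ S.card := by
    have h4 : θ * A.card / 2 * D.card ≤ S.card * D.card := by
      have : ρ * A.card = θ * A.card / 2 * D.card := by rw [hρ]; ring
      nlinarith
    exact le_of_mul_le_mul_right h4 hDpos
  have hSpos : (0 : ℝ) < S.card := lt_of_lt_of_le (by positivity) h3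
  have hSne : S.Nonempty := card_pos.1 (by exact_mod_cast hSpos)
  rcases hc M hM D hDM A C hC hA0 hC0 ρ hρ0 S (filter_subset _ _) hSne
    (fun a ha => (mem_filter.1 ha).2) with h | h
  · exfalso
    rw [div_lt_iff₀ (by positivity)] at hbig
    have h5 : ρ * (θ * A.card / 2) ≤ ρ * S.card := mul_le_mul_of_nonneg_left h3 hρ0.le
    have h6 : ρ * (θ * A.card / 2) = D.card * θ ^ 2 / 4 * A.card := by rw [hρ]; ring
    have h7 : 2 * Real.exp (21 * m / ε) * A.card < D.card * θ ^ 2 / 4 * A.card :=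
      mul_lt_mul_of_pos_right (by linarith) hAc
    linarith
  · refine le_trans ?_ h
    have hMR : (1 : ℝ) ≤ M := by exact_mod_cast hM
    have hM0 : (0 : ℝ) < M := by linarith
    have hMη : 0 < (M : ℝ) ^ (-η) := Real.rpow_pos_of_pos hM0 _
    have h3' : ((θ * A.card) ^ m * C.card) ^ (1 - ε) ≤
        2 ^ m * ((S.card : ℝ) ^ m * C.card) ^ (1 - ε) := by
      calc ((θ * A.card) ^ m * C.card) ^ (1 - ε) ≤
          (2 ^ m * ((S.card : ℝ) ^ m * C.card)) ^ (1 - ε) := by
            refine Real.rpow_le_rpow (by positivity) ?_ (by linarith)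
            rw [← mul_assoc, ← mul_pow]
            exact mul_le_mul_of_nonneg_right
              (pow_le_pow_left₀ (by positivity) (by linarith) m) hCc.le
        _ = ((2 : ℝ) ^ m) ^ (1 - ε) * ((S.card : ℝ) ^ m * C.card) ^ (1 - ε) :=
            Real.mul_rpow (by positivity) (by positivity)
        _ ≤ 2 ^ m * ((S.card : ℝ) ^ m * C.card) ^ (1 - ε) := by
            refine mul_le_mul_of_nonneg_right ?_ (Real.rpow_nonneg (by positivity) _)
            have h5 : (1 : ℝ) ≤ 2 ^ m := one_le_pow₀ (by norm_num)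
            calc ((2 : ℝ) ^ m) ^ (1 - ε) ≤ ((2 : ℝ) ^ m) ^ (1 : ℝ) :=
                  Real.rpow_le_rpow_of_exponent_le h5 (by linarith)
              _ = 2 ^ m := Real.rpow_one _
    calc c / 2 ^ m * (M : ℝ) ^ (-η) * ((θ * A.card) ^ m * C.card) ^ (1 - ε)
        ≤ c / 2 ^ m * (M : ℝ) ^ (-η) * (2 ^ m * ((S.card : ℝ) ^ m * C.card) ^ (1 - ε)) :=
          mul_le_mul_of_nonneg_left h3' (by positivity)
      _ = c * (M : ℝ) ^ (-η) * ((S.card : ℝ) ^ m * C.card) ^ (1 - ε) := by field_simp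

end Q137.KF
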