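import Mathlib
import Pool.Agent.Q137.KF.Translates

/-!
# Two sets: few products, no additive structure with polynomially bounded sets
-/

set_option autoImplicit false

namespace Q137.KF

open Finset Pool.Agent.Y359.PE Q137.Shifts
open scoped Classical Pointwise

theorem sums_two (ε : ℝ) (hε : 0 < ε) (hε1 : ε ≤ 1) (η : ℝ) (hη : 0 < η) :
    ∃ c : ℝ, 0 < c ∧ ∀ M : ℕ, 1 ≤ M → ∀ T : Finset ℤ, (∀ t ∈ T, |t| ≤ M) →
    ∀ A C : Finset ℤ, A.Nonempty → C.Nonempty → (0 : ℤ) ∉ A → (0 : ℤ) ∉ C →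
    (Real.exp (-(21 / ε)) / 2 * A.card * T.card ≤ (A + T).card ∨
    c * (M : ℝ) ^ (-η) * ((A.card : ℝ) * C.card) ^ (1 - ε) ≤ (A * C).card) := by
  obtain ⟨c, hc0, hc⟩ := sums 1 le_rfl ε hε hε1 η hη
  refine ⟨c, hc0, fun M hM T hT A C hA hC hA0 hC0 => ?_⟩
  have := hc M hM T hT A C hA hC hA0 hC0
  simpa only [pow_one, Nat.cast_one, mul_one] using this

theorem neighbours_two (ε : ℝ) (hε : 0 < ε) (hε1 : ε ≤ 1) (η : ℝ) (hη : 0 < η) :
    ∃ c : ℝ, 0 < c ∧ ∀ M : ℕ, 1 ≤ M → ∀ T : Finset ℤ, (∀ t ∈ T, |t| ≤ M) →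
    ∀ A C : Finset ℤ, C.Nonempty → (0 : ℤ) ∉ A → (0 : ℤ) ∉ C → ∀ ρ : ℝ, 0 < ρ →
    (ρ * ((A.filter fun a => ρ ≤ ((A.filter fun b => b - a ∈ T).card : ℝ)).card : ℝ) ≤
      2 * Real.exp (21 / ε) * A.card ∨
    c * (M : ℝ) ^ (-η) * (((A.filter fun a => ρ ≤
      ((A.filter fun b => b - a ∈ T).card : ℝ)).card : ℝ) * C.card) ^ (1 - ε) ≤ (A * C).card) := by
  obtain ⟨c, hc0, hc⟩ := neighbours 1 le_rfl ε hε hε1 η hη
  refine ⟨c, hc0, fun M hM T hT A C hC hA0 hC0 ρ hρ => ?_⟩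
  set S := A.filter fun a => ρ ≤ ((A.filter fun b => b - a ∈ T).card : ℝ) with hS
  rcases S.eq_empty_or_nonempty with h | h
  · left
    rw [h, card_empty, Nat.cast_zero, mul_zero]
    positivity
  · have := hc M hM T hT A C hC hA0 hC0 ρ hρ S (filter_subset _ _) h
      (fun a ha => (mem_filter.1 ha).2)
    simp only [pow_one, Nat.cast_one, mul_one] at this
    rcases this with h1 | h1
    · left; exact h1.le
    · right; exact h1

theorem popular_two (ε : ℝ) (hε : 0 < ε) (hε1 : ε ≤ 1) (η : ℝ) (hη : 0 < η) :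
    ∃ c : ℝ, 0 < c ∧ ∀ M : ℕ, 1 ≤ M → ∀ A C : Finset ℤ, A.Nonempty → C.Nonempty → (0 : ℤ) ∉ A →
    (0 : ℤ) ∉ C → ∀ θ : ℝ, 0 < θ →
    ((((Icc (-(M : ℤ)) M).filter fun d => θ * A.card ≤
        ((A.filter fun a => a + d ∈ A).card : ℝ)).card : ℝ) ≤ 8 * Real.exp (21 / ε) / θ ^ 2 ∨
    c * (M : ℝ) ^ (-η) * (θ * A.card * C.card) ^ (1 - ε) ≤ (A * C).card) := by
  obtain ⟨c, hc0, hc⟩ := popular 1 le_rfl ε hε hε1 η hη
  refine ⟨c, hc0, fun M hM A C hA hC hA0 hC0 θ hθ => ?_⟩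
  have := hc M hM A C hA hC hA0 hC0 θ hθ
  simpa only [pow_one, Nat.cast_one, mul_one] using this

/-- **Few products: sparse at every polynomial scale.** -/
theorem sparse (ε : ℝ) (hε : 0 < ε) (hε1 : ε ≤ 1) (D : ℕ) :
    ∃ N : ℕ, ∀ A : Finset ℤ, N ≤ A.card → ((A * A).card : ℝ) ≤ (A.card : ℝ) ^ (2 - ε) →
    ∀ T : Finset ℤ, (∀ t ∈ T, |t| ≤ (A.card : ℤ) ^ D) →
    Real.exp (-(84 / ε)) / 4 * A.card * T.card ≤ (A + T).card := by
  obtain ⟨c, hc0, hc⟩ := sums_two (ε / 4) (by linarith) (by linarith) (ε / (4 * (D + 1)))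
    (by positivity)
  obtain ⟨N, hN⟩ := exists_nat_gt ((4 / c) ^ (4 / ε))
  refine ⟨N + 2, fun A hA hprod T hT => ?_⟩
  have hA2 : (2 : ℝ) ≤ A.card := by
    have : 2 ≤ A.card := by omega
    exact_mod_cast this
  have hAN : (4 / c) ^ (4 / ε) < (A.card : ℝ) := by
    have : (N : ℝ) ≤ A.card := by exact_mod_cast (by omega : N ≤ A.card)
    linarith
  have hAc : (0 : ℝ) < A.card := by linarith
  set A' := A.erase 0 with hA'
  have hA'c : (A.card : ℝ) ≤ 2 * A'.card := by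
    have h1 : A.card ≤ A'.card + 1 := by
      have : A.card - 1 ≤ A'.card := pred_card_le_card_erase
      omega
    have h2 : (A.card : ℝ) ≤ A'.card + 1 := by exact_mod_cast h1
    linarith
  have hA'pos : (0 : ℝ) < A'.card := by linarith
  have hA'ne : A'.Nonempty := card_pos.1 (by exact_mod_cast hA'pos)
  have hA'0 : (0 : ℤ) ∉ A' := notMem_erase _ _
  have hA'A : A' ⊆ A := erase_subset _ _
  have hM : 1 ≤ A.card ^ D := Nat.one_le_pow _ _ (by omega)
  rcases hc (A.card ^ D) hM T (fun t ht => by push_cast; exact hT t ht) A' A' hA'ne hA'ne hA'0 hA'0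
    with h | h
  · have h1 : ((A' + T).card : ℝ) ≤ (A + T).card := by
      exact_mod_cast card_le_card (add_subset_add_right hA'A)
    refine le_trans ?_ (h.trans h1)
    have e : 21 / (ε / 4) = 84 / ε := by field_simp; norm_num
    rw [e]
    have h2 := Real.exp_pos (-(84 / ε))
    have h3 : Real.exp (-(84 / ε)) / 4 * A.card ≤ Real.exp (-(84 / ε)) / 2 * A'.card := by
      nlinarith
    exact mul_le_mul_of_nonneg_right h3 (Nat.cast_nonneg _)
  · exfalso
    have h1 : ((A' * A').card : ℝ) ≤ (A * A).card := by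
      exact_mod_cast card_le_card (mul_subset_mul hA'A hA'A)
    have h2 := h.trans (h1.trans hprod)
    have h3 : (A.card : ℝ) ^ (-(ε / 4)) ≤ ((A.card ^ D : ℕ) : ℝ) ^ (-(ε / (4 * (D + 1)))) := by
      push_cast
      rw [← Real.rpow_natCast (A.card : ℝ) D, ← Real.rpow_mul hAc.le]
      refine Real.rpow_le_rpow_of_exponent_le (by linarith) ?_
      have hD : (0 : ℝ) ≤ D := Nat.cast_nonneg _
      have e : (D : ℝ) * -(ε / (4 * (D + 1))) = -(D * ε / (4 * (D + 1))) := by ring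
      rw [e, neg_le_neg_iff, div_le_div_iff₀ (by positivity) (by norm_num)]
      nlinarith
    have h4 : (A.card : ℝ) ^ (2 - ε / 2) ≤ 4 * ((A'.card : ℝ) * A'.card) ^ (1 - ε / 4) := by
      have e1 : (A.card : ℝ) ^ (2 - ε / 2) = ((A.card : ℝ) * A.card) ^ (1 - ε / 4) := by
        rw [← pow_two, ← Real.rpow_natCast (A.card : ℝ) 2, ← Real.rpow_mul hAc.le]
        congr 1
        push_cast
        ring
      rw [e1]
      calc ((A.card : ℝ) * A.card) ^ (1 - ε / 4) ≤ (4 * ((A'.card : ℝ) * A'.card)) ^ (1 - ε / 4) := by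
            refine Real.rpow_le_rpow (by positivity) ?_ (by linarith)
            nlinarith
        _ = (4 : ℝ) ^ (1 - ε / 4) * ((A'.card : ℝ) * A'.card) ^ (1 - ε / 4) :=
            Real.mul_rpow (by norm_num) (by positivity)
        _ ≤ 4 * ((A'.card : ℝ) * A'.card) ^ (1 - ε / 4) := by
            refine mul_le_mul_of_nonneg_right ?_ (Real.rpow_nonneg (by positivity) _)
            calc (4 : ℝ) ^ (1 - ε / 4) ≤ (4 : ℝ) ^ (1 : ℝ) :=
                  Real.rpow_le_rpow_of_exponent_le (by norm_num) (by linarith)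
              _ = 4 := Real.rpow_one _
    have h5 : c / 4 * ((A.card : ℝ) ^ (-(ε / 4)) * (A.card : ℝ) ^ (2 - ε / 2)) ≤
        (A.card : ℝ) ^ (2 - ε) := by
      refine le_trans ?_ h2
      calc c / 4 * ((A.card : ℝ) ^ (-(ε / 4)) * (A.card : ℝ) ^ (2 - ε / 2))
          ≤ c / 4 * (((A.card ^ D : ℕ) : ℝ) ^ (-(ε / (4 * (D + 1)))) *
            (4 * ((A'.card : ℝ) * A'.card) ^ (1 - ε / 4))) := by
            refine mul_le_mul_of_nonneg_left ?_ (by positivity)
            exact mul_le_mul h3 h4 (Real.rpow_nonneg hAc.le _) (Real.rpow_nonneg (by positivity) _)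
        _ = _ := by ring
    rw [← Real.rpow_add hAc] at h5
    have e2 : (A.card : ℝ) ^ (-(ε / 4) + (2 - ε / 2)) =
        (A.card : ℝ) ^ (ε / 4) * (A.card : ℝ) ^ (2 - ε) := by
      rw [← Real.rpow_add hAc]
      congr 1
      ring
    rw [e2] at h5
    have h6 : 0 < (A.card : ℝ) ^ (2 - ε) := Real.rpow_pos_of_pos hAc _
    have h7 : c / 4 * (A.card : ℝ) ^ (ε / 4) ≤ 1 := by
      have : (c / 4 * (A.card : ℝ) ^ (ε / 4)) * (A.card : ℝ) ^ (2 - ε) ≤
          1 * (A.card : ℝ) ^ (2 - ε) := by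
        rw [one_mul, mul_assoc]
        exact h5
      exact le_of_mul_le_mul_right this h6
    have h8 : 4 / c < (A.card : ℝ) ^ (ε / 4) := by
      have h9 := Real.rpow_lt_rpow (by positivity) hAN (show 0 < ε / 4 by positivity)
      rwa [← Real.rpow_mul (by positivity), show 4 / ε * (ε / 4) = 1 by field_simp,
        Real.rpow_one] at h9
    have h10 : c / 4 * (4 / c) < c / 4 * (A.card : ℝ) ^ (ε / 4) :=
      mul_lt_mul_of_pos_left h8 (by positivity)
    rw [show c / 4 * (4 / c) = 1 by field_simp] at h10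
    linarith

/-- **Sums of `A` with its part in an interval.** -/
theorem sum_interval (ε : ℝ) (hε : 0 < ε) (hε1 : ε ≤ 1) (D : ℕ) :
    ∃ N : ℕ, ∀ A : Finset ℤ, N ≤ A.card → ((A * A).card : ℝ) ≤ (A.card : ℝ) ^ (2 - ε) →
    ∀ x : ℤ, Real.exp (-(84 / ε)) / 4 * A.card *
      (A.filter fun a => x ≤ a ∧ a ≤ x + (A.card : ℤ) ^ D).card ≤ (A + A).card := by
  obtain ⟨N, hN⟩ := sparse ε hε hε1 D
  refine ⟨N, fun A hA hprod x => ?_⟩
  set B := A.filter fun a => x ≤ a ∧ a ≤ x + (A.card : ℤ) ^ D with hB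
  have hinj : Function.Injective fun a : ℤ => a - x := fun a b h => by
    have : a - x = b - x := h
    linarith
  have h1 := hN A hA hprod (B.image fun a => a - x) (by
    intro t ht
    obtain ⟨a, ha, rfl⟩ := mem_image.1 ht
    have := (mem_filter.1 ha).2
    rw [abs_le]
    constructor <;> linarith)
  rw [card_image_of_injective _ hinj] at h1
  refine h1.trans ?_
  have h2 : (A + B.image fun a => a - x) ⊆ (A + A).image fun a => a - x := by
    intro y hy
    obtain ⟨a, ha, b, hb, rfl⟩ := mem_add.1 hy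
    obtain ⟨b', hb', rfl⟩ := mem_image.1 hb
    refine mem_image.2 ⟨a + b', add_mem_add ha (mem_filter.1 hb').1, ?_⟩
    ring
  exact_mod_cast (card_le_card h2).trans card_image_le

end Q137.KF
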