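import Mathlib
import Pool.Agent.Q137.KF.Clean

/-!
# Decomposition of an arbitrary finite set of integers: a part that is sparse at scale `M`, and a
# part with many products with every set
-/

set_option autoImplicit false

namespace Q137.KF

open Finset Pool.Agent.Y359.PE Q137.Shifts
open scoped Classical Pointwise

/-- **The decomposition.** -/
theorem decomp (m : ℕ) (hm : 1 ≤ m) (ε : ℝ) (hε : 0 < ε) (hε1 : ε ≤ 1) (η : ℝ) (hη : 0 < η) :
    ∃ c : ℝ, 0 < c ∧ ∀ M : ℕ, 1 ≤ M → ∀ A : Finset ℤ, (0 : ℤ) ∉ A → ∃ A' ⊆ A,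
    (∀ x : ℤ, ((A'.filter fun a => x ≤ a ∧ a ≤ x + M).card : ℝ) ≤ Real.exp (21 * m / ε)) ∧
    ∀ C : Finset ℤ, C.Nonempty → (0 : ℤ) ∉ C → (A \ A').Nonempty →
    c * (M : ℝ) ^ (-η) * (((A \ A').card : ℝ) ^ m * C.card) ^ (1 - ε) ≤
      ((A \ A') ^ m * C).card := by
  obtain ⟨c, hc0, hc⟩ := classes m hm ε hε hε1 η hη
  refine ⟨c, hc0, ?_⟩
  intro M hM A hA0
  have hK : 0 < Real.exp (21 * m / ε) := Real.exp_pos _
  obtain ⟨A1, hA1, f, hf, hfc, hrest⟩ := greedy (Icc 0 (M : ℤ)) _ hK A.card A le_rfl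
  have hA11 : A \ (A \ A1) = A1 := by
    rw [sdiff_sdiff_right_self]
    exact inf_eq_right.2 hA1
  refine ⟨A \ A1, sdiff_subset, ?_, ?_⟩
  · intro x
    refine le_trans ?_ (hrest (x + M)).le
    refine Nat.cast_le.2 (card_le_card ?_)
    intro a ha
    rw [mem_filter] at ha ⊢
    refine ⟨ha.1, mem_Icc.2 ⟨?_, ?_⟩⟩ <;> linarith [ha.2.1, ha.2.2]
  · intro C hC hC0 hne
    rw [hA11] at hne ⊢
    refine hc M hM A1 C hne hC (fun h => hA0 (hA1 h)) hC0 f ?_ ?_
    · intro a ha b hb hab hfab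
      have h2 := mem_Icc.1 (hf a ha)
      have h3 := mem_Icc.1 (hf b hb)
      rw [← hfab] at h3
      have h4 : |a - b| ≤ M := by
        rw [abs_le]
        constructor <;> linarith [h2.1, h2.2, h3.1, h3.2]
      have h5 : ((Int.gcd a b : ℕ) : ℤ) ∣ a - b :=
        dvd_sub (Int.gcd_dvd_left a b) (Int.gcd_dvd_right a b)
      have h6 : Int.gcd a b ≤ (a - b).natAbs :=
        Nat.le_of_dvd (Int.natAbs_pos.2 (sub_ne_zero.2 hab)) (Int.natCast_dvd.1 h5)
      have h7 : ((a - b).natAbs : ℤ) ≤ M := by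
        rw [Int.natCast_natAbs]; exact h4
      omega
    · rw [Real.exp_neg, ← div_eq_inv_mul, le_div_iff₀ (Real.exp_pos _)]
      exact (le_of_eq (_root_.mul_comm _ _)).trans hfc

/-- **Structure of sets with few products.** -/
theorem struct (ε : ℝ) (hε : 0 < ε) (hε1 : ε ≤ 1) (D : ℕ) :
    ∃ N : ℕ, ∀ A : Finset ℤ, N ≤ A.card → ((A * A).card : ℝ) ≤ (A.card : ℝ) ^ (2 - ε) →
    ∃ A' ⊆ A, ((A \ A').card : ℝ) ≤ (A.card : ℝ) ^ (1 - ε / 4) ∧
    ∀ x : ℤ, ((A'.filter fun a => x ≤ a ∧ a ≤ x + (A.card : ℤ) ^ D).card : ℝ) ≤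
      Real.exp (84 / ε) := by
  obtain ⟨c, hc0, hc⟩ := decomp 1 le_rfl (ε / 4) (by linarith) (by linarith)
    (ε / (8 * (D + 1))) (by positivity)
  -- largeness
  obtain ⟨N, hN⟩ := exists_nat_gt ((4 / c + 2) ^ (16 / ε))
  refine ⟨N + 2, fun A hA hprod => ?_⟩
  have hA2 : (2 : ℝ) ≤ A.card := by
    have : 2 ≤ A.card := by omega
    exact_mod_cast this
  have hAN : (4 / c + 2) ^ (16 / ε) < (A.card : ℝ) := by
    have : (N : ℝ) ≤ A.card := by exact_mod_cast (by omega : N ≤ A.card)
    linarith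
  have hAc : (0 : ℝ) < A.card := by linarith
  have hA1 : (1 : ℝ) ≤ A.card := by linarith
  have hbig : 4 / c + 2 < (A.card : ℝ) ^ (ε / 16) := by
    have h9 := Real.rpow_lt_rpow (by positivity) hAN (show 0 < ε / 16 by positivity)
    rwa [← Real.rpow_mul (by positivity), show 16 / ε * (ε / 16) = 1 by field_simp,
      Real.rpow_one] at h9
  set A0 := A.erase 0 with hA0d
  have hA0c : (A.card : ℝ) ≤ 2 * A0.card := by
    have h1 : A.card ≤ A0.card + 1 := by
      have : A.card - 1 ≤ A0.card := pred_card_le_card_erase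
      omega
    have h2 : (A.card : ℝ) ≤ A0.card + 1 := by exact_mod_cast h1
    linarith
  have hA0pos : (0 : ℝ) < A0.card := by linarith
  have hA0ne : A0.Nonempty := card_pos.1 (by exact_mod_cast hA0pos)
  have hA00 : (0 : ℤ) ∉ A0 := notMem_erase _ _
  have hA0A : A0 ⊆ A := erase_subset _ _
  have hM : 1 ≤ A.card ^ D := Nat.one_le_pow _ _ (by omega)
  obtain ⟨A', hA'A, hsp, hmany⟩ := hc (A.card ^ D) hM A0 hA00
  refine ⟨A', hA'A.trans hA0A, ?_, ?_⟩
  · -- the exceptional set
    have hsub : A \ A' ⊆ insert 0 (A0 \ A') := by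
      intro a ha
      rw [mem_sdiff] at ha
      rw [mem_insert]
      by_cases h0 : a = 0
      · exact Or.inl h0
      · exact Or.inr (mem_sdiff.2 ⟨mem_erase.2 ⟨h0, ha.1⟩, ha.2⟩)
    have hcard : ((A \ A').card : ℝ) ≤ (A0 \ A').card + 1 := by
      exact_mod_cast (card_le_card hsub).trans (card_insert_le _ _)
    have hle : ((A0 \ A').card : ℝ) ≤ (A.card : ℝ) ^ (1 - ε / 4 - ε / 16) := by
      rcases (A0 \ A').eq_empty_or_nonempty with h | h
      · rw [h, card_empty, Nat.cast_zero]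
        exact Real.rpow_nonneg hAc.le _
      have h1 := hmany A0 hA0ne hA00 h
      simp only [pow_one] at h1
      set E : ℝ := ((A0 \ A').card : ℝ) with hE
      have hE0 : 0 < E := by
        rw [hE]
        exact_mod_cast h.card_pos
      have h2 : (((A0 \ A') * A0).card : ℝ) ≤ (A * A).card := by
        exact_mod_cast card_le_card (mul_subset_mul (sdiff_subset.trans hA0A) hA0A)
      have h3 := h1.trans (h2.trans hprod)
      have h4 : (A.card : ℝ) ^ (-(ε / 8)) ≤ ((A.card ^ D : ℕ) : ℝ) ^ (-(ε / (8 * (D + 1)))) := by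
        push_cast
        rw [← Real.rpow_natCast (A.card : ℝ) D, ← Real.rpow_mul hAc.le]
        refine Real.rpow_le_rpow_of_exponent_le hA1 ?_
        have hD : (0 : ℝ) ≤ D := Nat.cast_nonneg _
        have e : (D : ℝ) * -(ε / (8 * (D + 1))) = -(D * ε / (8 * (D + 1))) := by ring
        rw [e, neg_le_neg_iff, div_le_div_iff₀ (by positivity) (by norm_num)]
        nlinarith
      have h5 : (E * A.card) ^ (1 - ε / 4) ≤ 2 * (E * A0.card) ^ (1 - ε / 4) := by
        calc (E * A.card) ^ (1 - ε / 4) ≤ (2 * (E * A0.card)) ^ (1 - ε / 4) := by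
              refine Real.rpow_le_rpow (by positivity) ?_ (by linarith)
              nlinarith
          _ = (2 : ℝ) ^ (1 - ε / 4) * (E * A0.card) ^ (1 - ε / 4) :=
              Real.mul_rpow (by norm_num) (by positivity)
          _ ≤ 2 * (E * A0.card) ^ (1 - ε / 4) := by
              refine mul_le_mul_of_nonneg_right ?_ (Real.rpow_nonneg (by positivity) _)
              calc (2 : ℝ) ^ (1 - ε / 4) ≤ (2 : ℝ) ^ (1 : ℝ) :=
                    Real.rpow_le_rpow_of_exponent_le (by norm_num) (by linarith)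
                _ = 2 := Real.rpow_one _
      have h6 : c / 2 * ((A.card : ℝ) ^ (-(ε / 8)) * (E * A.card) ^ (1 - ε / 4)) ≤
          (A.card : ℝ) ^ (2 - ε) := by
        refine le_trans ?_ h3
        calc c / 2 * ((A.card : ℝ) ^ (-(ε / 8)) * (E * A.card) ^ (1 - ε / 4))
            ≤ c / 2 * (((A.card ^ D : ℕ) : ℝ) ^ (-(ε / (8 * (D + 1)))) *
              (2 * (E * A0.card) ^ (1 - ε / 4))) := by
              refine mul_le_mul_of_nonneg_left ?_ (by positivity)
              exact mul_le_mul h4 h5 (Real.rpow_nonneg (by positivity) _)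
                (Real.rpow_nonneg (by positivity) _)
          _ = _ := by ring
      -- logarithms
      have hlA : 0 ≤ Real.log A.card := Real.log_nonneg hA1
      have h7 := Real.log_le_log (by positivity) h6
      rw [Real.log_mul (by positivity) (by positivity), Real.log_mul
        (Real.rpow_pos_of_pos hAc _).ne' (by positivity), Real.log_rpow hAc,
        Real.log_rpow (by positivity), Real.log_rpow hAc, Real.log_mul hE0.ne' hAc.ne'] at h7
      have h8 : -Real.log (c / 2) ≤ ε / 16 * Real.log A.card := by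
        rw [← Real.log_inv, ← Real.log_rpow hAc]
        refine Real.log_le_log (by positivity) ?_
        have : (c / 2)⁻¹ ≤ 4 / c + 2 := by
          rw [inv_div]
          have : 2 / c ≤ 4 / c := by
            rw [div_le_div_iff_of_pos_right hc0]; norm_num
          linarith
        linarith
      rw [← Real.log_le_log_iff hE0 (Real.rpow_pos_of_pos hAc _), Real.log_rpow hAc]
      have h9 : (1 - ε / 4) * Real.log E ≤ (1 - ε + ε / 4 + ε / 8 + ε / 16) * Real.log A.card := by
        nlinarith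
      have h10 : (1 - ε + ε / 4 + ε / 8 + ε / 16) * Real.log A.card ≤
          (1 - ε / 4) * ((1 - ε / 4 - ε / 16) * Real.log A.card) := by
        rw [← mul_assoc]
        refine mul_le_mul_of_nonneg_right ?_ hlA
        nlinarith
      exact le_of_mul_le_mul_left (h9.trans h10) (by linarith)
    have h1 : (1 : ℝ) ≤ (A.card : ℝ) ^ (1 - ε / 4 - ε / 16) :=
      Real.one_le_rpow hA1 (by linarith)
    have h2 : (A.card : ℝ) ^ (1 - ε / 4) =
        (A.card : ℝ) ^ (ε / 16) * (A.card : ℝ) ^ (1 - ε / 4 - ε / 16) := by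
      rw [← Real.rpow_add hAc]
      congr 1
      ring
    rw [h2]
    have h3 : (2 : ℝ) ≤ (A.card : ℝ) ^ (ε / 16) := by
      have : 0 < 4 / c := by positivity
      linarith
    nlinarith
  · intro x
    have h := hsp x
    push_cast at h
    have e : 21 * 1 / (ε / 4) = 84 / ε := by field_simp; norm_num
    rwa [e] at h

end Q137.KF
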