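import Mathlib
import Pool.Agent.Q137.KF.Thick

/-!
# Several sets no two of which share a popular prime
-/

set_option autoImplicit false

namespace Q137.KF

open Finset Pool.Agent.Y359.PE Q137.Shifts
open scoped Classical Pointwise

lemma U_one (a : ℤ) (p : ℕ) : U 1 a p = fa a p := by
  unfold U
  rw [Nat.factorization_one, Finsupp.coe_zero, Pi.zero_apply]
  have : (0 : ℤ) ≤ fa a p := Int.natCast_nonneg _
  omega

/-- entropy form -/
theorem nopop_aux (L : ℝ) (hL : 0 < L) (m : ℕ) (ℓ : ℝ) (hℓ9 : 9 ≤ ℓ)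
    (hℓL : (m : ℝ) / L = 1 / Real.exp ℓ) :
    ∀ j : ℕ, ∀ (α : Type) (S : Finset α), S.Nonempty →
    ∀ f : α → ℤ, (∀ s ∈ S, f s ≠ 0) → ∀ P : Finset ℤ, (∀ s ∈ S, f s ∈ P) →
    ∀ (n : ℕ), n + j ≤ m + 1 → ∀ e : ℕ → ℤ,
    ∀ A : Fin j → Finset ℤ, (∀ i, (A i).Nonempty) → (∀ i, (0 : ℤ) ∉ A i) →
    ∀ e' : Fin j → ℕ → ℤ,
    (∀ p : ℕ, p.Prime → ∀ i i' : Fin j, i ≠ i' →
      (L * (((A i).filter fun b => (fa b p : ℤ) ≠ e' i p).card : ℝ) ≤ (A i).card ∨
      L * (((A i').filter fun b => (fa b p : ℤ) ≠ e' i' p).card : ℝ) ≤ (A i').card)) →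
    (∀ p : ℕ, p.Prime → ∀ i : Fin j,
      (L * (((A i).filter fun b => (fa b p : ℤ) ≠ e' i p).card : ℝ) ≤ (A i).card ∨
      L * ((S.filter fun s => (fa (f s) p : ℤ) ≠ e p).card : ℝ) ≤ n * S.card)) →
    (1 - 9 / ℓ) ^ j * (h S f + ∑ i, Real.log (A i).card) - j * (2 * Real.log 2) ≤
      Real.log (P * ∏ i, A i).card := by
  intro j
  have hℓ0 : 0 < ℓ := by linarith
  have hl2 : 0 ≤ Real.log 2 := Real.log_nonneg (by norm_num)
  set δ := 9 / ℓ with hδd
  have hδ : 0 < δ := by positivity
  have hδ1 : δ ≤ 1 := by rw [hδd, div_le_one hℓ0]; exact hℓ9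
  have hq0 : 0 ≤ 1 - δ := by linarith
  set y := 2 * Real.log 2 with hyd
  have hy : 0 ≤ y := by rw [hyd]; linarith
  induction j with
  | zero =>
    intro α S hS f hf P hP n hn e A hA hA0 e' hAA hSA
    rw [univ_eq_empty, prod_empty, sum_empty, mul_one]
    have := h_le_log_card S hS f P hP
    simpa using this
  | succ j ih =>
    intro α S hS f hf P hP n hn e A hA hA0 e' hAA hSA
    have hSc : (0 : ℝ) < S.card := by exact_mod_cast card_pos.2 hS
    obtain ⟨p1, p2, p3⟩ := params' hℓ9
    set θ := 1 / Real.exp (ℓ / 2) with hθ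
    set τ := 1 / Real.exp ℓ with hτ
    have hτ0 : 0 < τ := by positivity
    have hnm : (n : ℝ) ≤ m := by
      have : n ≤ m := by omega
      exact_mod_cast this
    have hm1 : (1 : ℝ) ≤ m ∨ n = 0 := by
      rcases Nat.eq_zero_or_pos n with h | h
      · exact Or.inr h
      · left
        have : 1 ≤ m := by omega
        exact_mod_cast this
    obtain ⟨R, hR0, hR1, hR2⟩ := step 1 one_ne_zero S hS f hf e ({()} : Finset Unit)
      (fun _ => A 0) (fun _ _ => hA 0) (fun _ _ => hA0 0) (fun _ => e' 0) hτ0.le p1 p2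
      (by rw [← hδd] at p3; linarith) (N := 0) le_rfl (by
        intro p hp
        have h2 : (({()} : Finset Unit).filter fun _ =>
            ¬ ((((A 0).filter fun b => U 1 b p ≠ e' 0 p).card : ℝ) ≤ τ * (A 0).card) ∧
            ¬ (((S.filter fun s => U 1 (f s) p ≠ e p).card : ℝ) ≤ τ * S.card)) = ∅ := by
          rw [filter_eq_empty_iff]
          intro u _ h3
          simp only [U_one] at h3
          rcases hSA p hp 0 with h4 | h4
          · apply h3.1
            rw [← hℓL, div_mul_eq_mul_div, le_div_iff₀ hL]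
            have hA0c : (0 : ℝ) ≤ (A 0).card := Nat.cast_nonneg _
            have hm1' : (1 : ℝ) ≤ m := by
              by_contra hcon
              rw [not_le] at hcon
              have : (m : ℝ) = 0 := by
                have : m = 0 := by
                  have : m < 1 := by exact_mod_cast hcon
                  omega
                rw [this]; simp
              rw [this, zero_div] at hℓL
              linarith
            nlinarith
          · apply h3.2
            rw [← hℓL, div_mul_eq_mul_div, le_div_iff₀ hL]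
            nlinarith
        rw [h2]
        simp)
    have hR : R () = 0 := by
      rw [zero_mul] at hR2
      have h1 := hR0 () (mem_singleton_self _)
      have h2 : ∑ t ∈ ({()} : Finset Unit), R t = R () := sum_singleton _ _
      rw [h2] at hR2
      linarith
    have h1 := hR1 () (mem_singleton_self _)
    rw [hR, sub_zero] at h1
    set κ := 4 / Real.log (1 / θ) + τ / θ with hκd
    have hκ0 : 0 ≤ κ := by
      have : 0 ≤ Real.log (1 / θ) := Real.log_nonneg (by rw [le_div_iff₀ p1]; linarith)
      positivity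
    have e1 : (1 - 4 / Real.log (1 / θ) - τ / θ) = 1 - κ := by rw [hκd]; ring
    have ey : 2 * Real.log (2 * ((1 : ℕ).divisors.card : ℝ)) = y := by
      rw [hyd]; simp
    rw [e1, ey] at h1
    have hSf : 0 ≤ h S f := h_nonneg _ _
    have hl0 : 0 ≤ Real.log (A 0).card :=
      Real.log_nonneg (by exact_mod_cast card_pos.2 (hA 0))
    have h2 : (1 - δ) * (h S f + Real.log (A 0).card) - y ≤
        h (S ×ˢ A 0) (fun s => f s.1 * s.2) := by
      have e2 : κ * (h S f + Real.log (A 0).card) ≤ δ * (h S f + Real.log (A 0).card) :=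
        mul_le_mul_of_nonneg_right p3 (by linarith)
      have e3 : 0 ≤ κ * y := mul_nonneg hκ0 hy
      have e5 : (1 - κ) * (h S f + Real.log (A 0).card - y) =
        (h S f + Real.log (A 0).card) - κ * (h S f + Real.log (A 0).card) - y + κ * y := by ring
      have e6 : (1 - δ) * (h S f + Real.log (A 0).card) =
        (h S f + Real.log (A 0).card) - δ * (h S f + Real.log (A 0).card) := by ring
      rw [e5] at h1
      rw [e6]
      linarith
    have h3 := ih (α × ℤ) (S ×ˢ A 0) (hS.product (hA 0)) (fun s => f s.1 * s.2)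
      (by
        intro s hs
        rw [mem_product] at hs
        exact mul_ne_zero (hf s.1 hs.1) fun h0 => hA0 0 (h0 ▸ hs.2)) (P * A 0)
      (by
        intro s hs
        rw [mem_product] at hs
        exact mul_mem_mul (hP s.1 hs.1) hs.2) (n + 1) (by omega) (fun p => e p + e' 0 p)
      (fun i => A i.succ) (fun i => hA i.succ) (fun i => hA0 i.succ) (fun i => e' i.succ)
      (fun p hp i i' hii => hAA p hp i.succ i'.succ fun h => hii (Fin.succ_injective _ h))
      (by
        intro p hp i
        rcases hSA p hp i.succ with h4 | h4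
        · exact Or.inl h4
        · rcases hAA p hp 0 i.succ (Fin.succ_ne_zero i).symm with h5 | h5
          · right
            have hsub : ((S ×ˢ A 0).filter fun s => (fa (f s.1 * s.2) p : ℤ) ≠ e p + e' 0 p) ⊆
                (S.filter fun s => (fa (f s) p : ℤ) ≠ e p) ×ˢ A 0 ∪
                  S ×ˢ ((A 0).filter fun b => (fa b p : ℤ) ≠ e' 0 p) := by
              intro s hs
              rw [mem_filter, mem_product] at hs
              obtain ⟨⟨hs1, hs2⟩, hs3⟩ := hs
              rw [fa_mul (hf s.1 hs1) (fun h0 => hA0 0 (h0 ▸ hs2))] at hs3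
              push_cast at hs3
              rw [mem_union, mem_product, mem_product, mem_filter, mem_filter]
              by_cases c : (fa (f s.1) p : ℤ) ≠ e p
              · exact Or.inl ⟨⟨hs1, c⟩, hs2⟩
              · right
                refine ⟨hs1, hs2, ?_⟩
                intro c2
                apply hs3
                rw [not_not] at c
                rw [c, c2]
            have h6 : (((S ×ˢ A 0).filter fun s =>
                (fa (f s.1 * s.2) p : ℤ) ≠ e p + e' 0 p).card : ℝ) ≤
                ((S.filter fun s => (fa (f s) p : ℤ) ≠ e p).card : ℝ) * (A 0).card +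
                  S.card * ((A 0).filter fun b => (fa b p : ℤ) ≠ e' 0 p).card := by
              have := (card_le_card hsub).trans (card_union_le _ _)
              rw [card_product, card_product] at this
              exact_mod_cast this
            rw [card_product]
            push_cast
            have hA0c : (0 : ℝ) ≤ (A 0).card := Nat.cast_nonneg _
            have h7 := mul_le_mul_of_nonneg_left h6 hL.le
            have h8 := mul_le_mul_of_nonneg_right h4 hA0c
            have h9 := mul_le_mul_of_nonneg_left h5 hSc.le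
            nlinarith
          · exact Or.inl h5)
    have e7 : P * A 0 * ∏ i : Fin j, A i.succ = P * ∏ i, A i := by
      rw [Fin.prod_univ_succ, mul_assoc]
    rw [e7] at h3
    refine le_trans ?_ h3
    rw [Fin.sum_univ_succ]
    set H := h (S ×ˢ A 0) (fun s => f s.1 * s.2) with hH
    set E1 := ∑ i : Fin j, Real.log (A i.succ).card with hE1
    have hE0 : 0 ≤ E1 := sum_nonneg fun i _ =>
      Real.log_nonneg (by exact_mod_cast card_pos.2 (hA i.succ))
    have q1 : (1 - δ) ^ j ≤ 1 := pow_le_one₀ hq0 (by linarith)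
    have q2 : 0 ≤ (1 - δ) ^ j := pow_nonneg hq0 j
    have e2 : (1 - δ) ^ j * ((1 - δ) * (h S f + Real.log (A 0).card) - y + E1) ≤
        (1 - δ) ^ j * (H + E1) :=
      mul_le_mul_of_nonneg_left (by linarith) q2
    have e3 : (1 - δ) ^ j * y ≤ y := mul_le_of_le_one_left hy q1
    have e4 : (1 - δ) ^ (j + 1) * E1 ≤ (1 - δ) ^ j * E1 := by
      refine mul_le_mul_of_nonneg_right ?_ hE0
      rw [pow_succ]
      exact mul_le_of_le_one_right q2 (by linarith)
    have e5 : (1 - δ) ^ (j + 1) * (h S f + (Real.log (A 0).card + E1)) =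
        (1 - δ) ^ j * ((1 - δ) * (h S f + Real.log (A 0).card)) +
        (1 - δ) ^ (j + 1) * E1 := by ring
    have e6 : (1 - δ) ^ j * ((1 - δ) * (h S f + Real.log (A 0).card) - y + E1) =
        (1 - δ) ^ j * ((1 - δ) * (h S f + Real.log (A 0).card)) -
        (1 - δ) ^ j * y + (1 - δ) ^ j * E1 := by ring
    rw [e5]
    rw [e6] at e2
    push_cast
    linarith

/-- **No two of the sets share a popular prime** -/
theorem nopop_k (m : ℕ) (hm : 1 ≤ m) (L : ℝ) (hL : (m : ℝ) < L)
    (A : Fin (m + 1) → Finset ℤ) (hA : ∀ i, (A i).Nonempty) (hA0 : ∀ i, (0 : ℤ) ∉ A i)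
    (hpop : ∀ p : ℕ, p.Prime → ∀ i j : Fin (m + 1), i ≠ j →
      (∃ e : ℕ, L * (((A i).filter fun a => fa a p ≠ e).card : ℝ) ≤ (A i).card) ∨
      (∃ e : ℕ, L * (((A j).filter fun a => fa a p ≠ e).card : ℝ) ≤ (A j).card)) :
    (∏ i, ((A i).card : ℝ)) ^ (1 - 9 * m / Real.log (L / m)) ≤ 4 ^ m * (∏ i, A i).card := by
  have hmR : (1 : ℝ) ≤ m := by exact_mod_cast hm
  have hm0 : (0 : ℝ) < m := by linarith
  have hL0 : 0 < L := by linarith
  set ℓ := Real.log (L / m) with hℓ
  have hℓ0 : 0 < ℓ := Real.log_pos (by rw [lt_div_iff₀ hm0]; linarith)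
  have hcardpos : ∀ i, (0 : ℝ) < (A i).card := fun i => by exact_mod_cast card_pos.2 (hA i)
  have hcard1 : ∀ i, (1 : ℝ) ≤ (A i).card := fun i => by exact_mod_cast card_pos.2 (hA i)
  have hprodpos : (0 : ℝ) < ∏ i, ((A i).card : ℝ) := prod_pos fun i _ => hcardpos i
  have hprod1 : (1 : ℝ) ≤ ∏ i, ((A i).card : ℝ) := by
    have : (1 : ℝ) = ∏ _i : Fin (m + 1), (1 : ℝ) := by simp
    rw [this]
    exact prod_le_prod (fun _ _ => zero_le_one) fun i _ => hcard1 i
  have hPpos : (0 : ℝ) < (∏ i, A i).card := by exact_mod_cast card_pos.2 (prod_nonempty A hA)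
  have hP1 : (1 : ℝ) ≤ (∏ i, A i).card := by exact_mod_cast card_pos.2 (prod_nonempty A hA)
  rcases le_or_gt (1 : ℝ) (9 * m / ℓ) with hc | hc
  · have h1 : (∏ i, ((A i).card : ℝ)) ^ (1 - 9 * m / ℓ) ≤ 1 :=
      Real.rpow_le_one_of_one_le_of_nonpos hprod1 (by linarith)
    have h2 : (1 : ℝ) ≤ 4 ^ m := one_le_pow₀ (by norm_num)
    nlinarith
  · have hℓ9m : 9 * m < ℓ := by
      rw [div_lt_iff₀ hℓ0, one_mul] at hc
      exact hc
    have hℓ9 : 9 ≤ ℓ := by nlinarith
    have hℓL : (m : ℝ) / L = 1 / Real.exp ℓ := by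
      rw [hℓ, Real.exp_log (by positivity), one_div_div]
    -- the typical exponents
    have hex : ∀ (i : Fin (m + 1)) (p : ℕ), ∃ e : ℕ,
        (∃ e : ℕ, L * (((A i).filter fun a => fa a p ≠ e).card : ℝ) ≤ (A i).card) →
        L * (((A i).filter fun a => fa a p ≠ e).card : ℝ) ≤ (A i).card := by
      intro i p
      by_cases h : ∃ e : ℕ, L * (((A i).filter fun a => fa a p ≠ e).card : ℝ) ≤ (A i).card
      · obtain ⟨e, he⟩ := h
        exact ⟨e, fun _ => he⟩
      · exact ⟨0, fun h' => absurd h' h⟩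
    choose e he using hex
    have conv : ∀ (i : Fin (m + 1)) (p : ℕ),
        (∃ e : ℕ, L * (((A i).filter fun a => fa a p ≠ e).card : ℝ) ≤ (A i).card) →
        L * (((A i).filter fun a => (fa a p : ℤ) ≠ (e i p : ℤ)).card : ℝ) ≤ (A i).card := by
      intro i p h
      have := he i p h
      have e1 : ((A i).filter fun a => (fa a p : ℤ) ≠ (e i p : ℤ)) =
          (A i).filter fun a => fa a p ≠ e i p := by
        refine filter_congr fun a _ => ?_
        exact not_congr Nat.cast_inj
      rw [e1]
      exact this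
    have h1 := nopop_aux L hL0 m ℓ hℓ9 hℓL m ℤ (A 0) (hA 0) (fun a => a)
      (fun a ha h => hA0 0 (h ▸ ha)) (A 0) (fun a ha => ha) 1 (by omega) (fun p => (e 0 p : ℤ))
      (fun i => A i.succ) (fun i => hA i.succ) (fun i => hA0 i.succ)
      (fun i p => (e i.succ p : ℤ))
      (by
        intro p hp i i' hii
        rcases hpop p hp i.succ i'.succ (fun h => hii (Fin.succ_injective _ h)) with h | h
        · exact Or.inl (conv _ _ h)
        · exact Or.inr (conv _ _ h))
      (by
        intro p hp i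
        rcases hpop p hp i.succ 0 (Fin.succ_ne_zero i) with h | h
        · exact Or.inl (conv _ _ h)
        · right
          rw [Nat.cast_one, one_mul]
          exact conv _ _ h)
    rw [h_id _ (hA 0), ← Fin.prod_univ_succ (f := A)] at h1
    rw [← Real.log_le_log_iff (Real.rpow_pos_of_pos hprodpos _) (by positivity),
      Real.log_rpow hprodpos, Real.log_mul (by positivity) hPpos.ne', Real.log_pow,
      Real.log_prod (fun i _ => (hcardpos i).ne'), Fin.sum_univ_succ]
    have hE0 : 0 ≤ Real.log (A 0).card + ∑ i : Fin m, Real.log (A i.succ).card := by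
      refine add_nonneg (Real.log_nonneg (hcard1 0)) (sum_nonneg fun i _ =>
        Real.log_nonneg (hcard1 i.succ))
    have q1 : 1 - 9 * m / ℓ ≤ (1 - 9 / ℓ) ^ m := by
      have h9 : 9 / ℓ ≤ 1 := by rw [div_le_one hℓ0]; exact hℓ9
      have := one_add_mul_le_pow (show (-2 : ℝ) ≤ -(9 / ℓ) by linarith) m
      have e : 1 + (m : ℝ) * -(9 / ℓ) = 1 - 9 * m / ℓ := by ring
      rw [e] at this
      exact this
    have q2 := mul_le_mul_of_nonneg_right q1 hE0
    have h44 : Real.log 4 = 2 * Real.log 2 := by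
      rw [show (4 : ℝ) = 2 ^ 2 by norm_num, Real.log_pow]
      norm_num
    rw [h44]
    linarith

end Q137.KF
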