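import Mathlib
import Pool.Agent.Q137.KF.Classes

/-!
# Sets covered by few classes or by few arithmetic progressions
-/

set_option autoImplicit false

namespace Q137.KF

open Finset Pool.Agent.Y359.PE Q137.Shifts
open scoped Classical Pointwise

/-- **Few classes with small greatest common divisors: many products.** -/
theorem classes_cover (m : ℕ) (hm : 1 ≤ m) (ε : ℝ) (hε : 0 < ε) (hε1 : ε ≤ 1) (η : ℝ)
    (hη : 0 < η) :
    ∃ c : ℝ, 0 < c ∧ ∀ H : ℕ, 1 ≤ H → ∀ A C : Finset ℤ, A.Nonempty → C.Nonempty →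
    (0 : ℤ) ∉ A → (0 : ℤ) ∉ C → ∀ 𝒮 : Finset (Finset ℤ), A ⊆ 𝒮.biUnion id →
    (∀ S ∈ 𝒮, ∀ a ∈ S, ∀ b ∈ S, a ≠ b → Int.gcd a b ≤ H) →
    (𝒮.card : ℝ) ≤ Real.exp (-(21 * m / ε)) * A.card →
    c * (H : ℝ) ^ (-η) * ((A.card : ℝ) ^ m * C.card) ^ (1 - ε) ≤ (A ^ m * C).card := by
  obtain ⟨c, hc0, hc⟩ := classes m hm ε hε hε1 η hη
  refine ⟨c, hc0, ?_⟩
  intro H hH A C hA hC hA0 hC0 𝒮 hcov hgcd hcard
  have hex : ∀ a ∈ A, ∃ S ∈ 𝒮, a ∈ S := by
    intro a ha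
    have := hcov ha
    rw [mem_biUnion] at this
    exact this
  choose! f hf1 hf2 using hex
  refine hc H hH A C hA hC hA0 hC0 f ?_ ?_
  · intro a ha b hb hab hfab
    exact hgcd (f a) (hf1 a ha) a (hf2 a ha) b (hfab ▸ hf2 b hb) hab
  · refine le_trans ?_ hcard
    exact_mod_cast card_le_card (image_subset_iff.2 hf1)

/-- greatest common divisors in a progression -/
lemma gcd_prog (x d j j' : ℤ) (hd : d ≠ 0) (hjj : j ≠ j') :
    Int.gcd (x + d * j) (x + d * j') ≤ Int.gcd x d * (j - j').natAbs := by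
  set e := Int.gcd (x + d * j) (x + d * j') with he
  have h1 : (e : ℤ) ∣ x + d * j := Int.gcd_dvd_left _ _
  have h2 : (e : ℤ) ∣ x + d * j' := Int.gcd_dvd_right _ _
  have h3 : (e : ℤ) ∣ d * (j - j') := by
    have := dvd_sub h1 h2
    have e1 : x + d * j - (x + d * j') = d * (j - j') := by ring
    rwa [e1] at this
  have h4 : e ∣ d.natAbs * (j - j').natAbs := by
    rw [← Int.natAbs_mul]
    exact Int.natCast_dvd.1 h3
  have h5 : e ∣ Nat.gcd e d.natAbs * (j - j').natAbs := by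
    rw [← Nat.gcd_mul_right]
    exact Nat.dvd_gcd (Dvd.intro _ rfl) h4
  have hK : 0 < (j - j').natAbs := Int.natAbs_pos.2 (sub_ne_zero.2 hjj)
  have hdn : 0 < d.natAbs := Int.natAbs_pos.2 hd
  have h6 : 0 < Nat.gcd e d.natAbs := Nat.gcd_pos_of_pos_right _ hdn
  have h7 : e ≤ Nat.gcd e d.natAbs * (j - j').natAbs :=
    Nat.le_of_dvd (Nat.mul_pos h6 hK) h5
  refine h7.trans (Nat.mul_le_mul_right _ ?_)
  refine Nat.le_of_dvd (Int.gcd_pos_of_ne_zero_right _ hd) ?_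
  refine Int.dvd_gcd ?_ ?_
  · have h8 : ((Nat.gcd e d.natAbs : ℕ) : ℤ) ∣ x + d * j :=
      (Int.natCast_dvd_natCast.2 (Nat.gcd_dvd_left _ _)).trans h1
    have h9 : ((Nat.gcd e d.natAbs : ℕ) : ℤ) ∣ d * j :=
      (Int.natCast_dvd.2 (Nat.gcd_dvd_right _ _)).mul_right _
    exact (dvd_add_left h9).1 h8
  · exact Int.natCast_dvd.2 (Nat.gcd_dvd_right _ _)

/-- **The k-fold conjecture for sets covered by few progressions.** -/
theorem progressions (k : ℕ) (hk : 2 ≤ k) (ε : ℝ) (hε : 0 < ε) (hε1 : ε ≤ 1) (D : ℕ) :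
    ∃ c : ℝ, 0 < c ∧ ∀ A : Finset ℤ, ∀ T : Finset (ℤ × ℤ),
    (∀ z ∈ T, z.2 ≠ 0 ∧ Int.gcd z.1 z.2 ≤ A.card ^ D) →
    (∀ a ∈ A, ∃ z ∈ T, ∃ j : ℕ, j ≤ A.card ^ D ∧ a = z.1 + z.2 * j) →
    (T.card : ℝ) ≤ Real.exp (-(44 * k ^ 2 / ε)) * A.card →
    c * (A.card : ℝ) ^ (k - ε) ≤ (A ^ k).card := by
  have hkR : (2 : ℝ) ≤ k := by exact_mod_cast hk
  have hk0 : (0 : ℝ) < k := by linarith
  obtain ⟨m, rfl⟩ : ∃ m, k = m + 1 := ⟨k - 1, by omega⟩
  have hm : 1 ≤ m := by omega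
  set ε' : ℝ := ε / (2 * (m + 1 : ℕ)) with hε'
  have hε'0 : 0 < ε' := by positivity
  have hε'1 : ε' ≤ 1 := by
    rw [hε', div_le_one (by positivity)]
    linarith
  set η : ℝ := ε / (4 * D + 4) with hη
  have hη0 : 0 < η := by positivity
  obtain ⟨c, hc0, hc⟩ := classes m hm ε' hε'0 hε'1 η hη0
  refine ⟨c / 2 ^ (m + 1), by positivity, ?_⟩
  intro A T hT hcov hcard
  rcases A.eq_empty_or_nonempty with hA | hA
  · subst hA
    rw [card_empty, Nat.cast_zero, Real.zero_rpow (by push_cast; push_cast at hkR; linarith),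
      mul_zero]
    exact Nat.cast_nonneg _
  have hAc : (1 : ℝ) ≤ A.card := by exact_mod_cast hA.card_pos
  have hA0 : (0 : ℝ) < A.card := by linarith
  -- `A` is large
  have hTpos : (1 : ℝ) ≤ T.card := by
    obtain ⟨a, ha⟩ := hA
    obtain ⟨z, hz, _⟩ := hcov a ha
    have : 0 < T.card := card_pos.2 ⟨z, hz⟩
    exact_mod_cast this
  have hexp : Real.exp (44 * (m + 1 : ℕ) ^ 2 / ε) ≤ A.card := by
    rw [Real.exp_neg] at hcard
    have h1 : 1 ≤ (Real.exp (44 * ((m + 1 : ℕ) : ℝ) ^ 2 / ε))⁻¹ * A.card := hTpos.trans hcard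
    have h2 := Real.exp_pos (44 * ((m + 1 : ℕ) : ℝ) ^ 2 / ε)
    rw [← div_eq_inv_mul, le_div_iff₀ h2, one_mul] at h1
    exact h1
  have hbig : 1 ≤ (m + 1 : ℕ) / ε := by
    rw [one_le_div hε]
    linarith
  have hA2 : (2 : ℝ) ≤ A.card := by
    refine le_trans ?_ hexp
    have h1 : (1 : ℝ) ≤ 44 * (m + 1 : ℕ) ^ 2 / ε := by
      have e : 44 * ((m + 1 : ℕ) : ℝ) ^ 2 / ε = 44 * (m + 1 : ℕ) * ((m + 1 : ℕ) / ε) := by ring
      rw [e]
      nlinarith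
    have h2 := Real.add_one_le_exp (44 * ((m + 1 : ℕ) : ℝ) ^ 2 / ε)
    linarith
  set A' := A.erase 0 with hA'
  have hA'c : (A.card : ℝ) ≤ 2 * A'.card := by
    have h1 : A.card ≤ A'.card + 1 := by
      have : A.card - 1 ≤ A'.card := pred_card_le_card_erase
      omega
    have h2 : (A.card : ℝ) ≤ A'.card + 1 := by exact_mod_cast h1
    linarith
  have hA'pos : (0 : ℝ) < A'.card := by linarith
  have hA'ne : A'.Nonempty := card_pos.1 (by exact_mod_cast hA'pos)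
  have hA'0 : (0 : ℤ) ∉ A' := notMem_erase _ _
  have hA'A : A' ⊆ A := erase_subset _ _
  choose! f hf1 hf2 using hcov
  have hH : 1 ≤ A.card ^ (2 * D) := Nat.one_le_pow _ _ hA.card_pos
  have h1 := hc (A.card ^ (2 * D)) hH A' A' hA'ne hA'ne hA'0 hA'0 f (by
    intro a ha b hb hab hfab
    obtain ⟨j, hj1, hj2⟩ := hf2 a (hA'A ha)
    obtain ⟨j', hj1', hj2'⟩ := hf2 b (hA'A hb)
    rw [← hfab] at hj2'
    have hz := hT (f a) (hf1 a (hA'A ha))
    have hjj : (j : ℤ) ≠ j' := fun h => hab (by rw [hj2, hj2', h])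
    have h2 := gcd_prog (f a).1 (f a).2 j j' hz.1 hjj
    rw [← hj2, ← hj2'] at h2
    refine h2.trans ?_
    have e : A.card ^ (2 * D) = A.card ^ D * A.card ^ D := by rw [two_mul, pow_add]
    rw [e]
    exact Nat.mul_le_mul hz.2 (by omega)) (by
    have h2 : ((A'.image f).card : ℝ) ≤ T.card := by
      exact_mod_cast card_le_card (image_subset_iff.2 fun a ha => hf1 a (hA'A ha))
    refine h2.trans (hcard.trans ?_)
    have h3 : Real.exp (-(44 * (m + 1 : ℕ) ^ 2 / ε)) * 2 ≤ Real.exp (-(21 * m / ε')) := by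
      have h4 : (2 : ℝ) ≤ Real.exp 1 := by
        have := Real.add_one_le_exp (1 : ℝ)
        linarith
      have h5 : Real.exp (-(44 * (m + 1 : ℕ) ^ 2 / ε)) * Real.exp 1 ≤
          Real.exp (-(21 * m / ε')) := by
        rw [← Real.exp_add]
        refine Real.exp_le_exp.2 ?_
        have e : 21 * (m : ℝ) / ε' = 42 * m * ((m + 1 : ℕ) / ε) := by
          rw [hε']; field_simp; norm_num
        have e' : 44 * ((m + 1 : ℕ) : ℝ) ^ 2 / ε = 44 * (m + 1 : ℕ) * ((m + 1 : ℕ) / ε) := by ring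
        rw [e, e']
        push_cast at hbig ⊢
        have hmR : (1 : ℝ) ≤ m := by exact_mod_cast hm
        nlinarith
      have := mul_le_mul_of_nonneg_left h4 (Real.exp_pos (-(44 * ((m + 1 : ℕ) : ℝ) ^ 2 / ε))).le
      linarith
    calc Real.exp (-(44 * ((m + 1 : ℕ) : ℝ) ^ 2 / ε)) * A.card ≤
        Real.exp (-(44 * ((m + 1 : ℕ) : ℝ) ^ 2 / ε)) * (2 * A'.card) :=
          mul_le_mul_of_nonneg_left hA'c (Real.exp_pos _).le
      _ = Real.exp (-(44 * ((m + 1 : ℕ) : ℝ) ^ 2 / ε)) * 2 * A'.card := by ring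
      _ ≤ _ := mul_le_mul_of_nonneg_right h3 hA'pos.le)
  have h2 : ((A' ^ m * A').card : ℝ) ≤ (A ^ (m + 1)).card := by
    rw [← pow_succ]
    exact_mod_cast card_le_card (pow_subset_pow_left hA'A)
  refine le_trans ?_ (h1.trans h2)
  rw [← pow_succ]
  have h3 : (A.card : ℝ) ^ (((m + 1 : ℕ) : ℝ) - ε / 2) ≤
      2 ^ (m + 1) * ((A'.card : ℝ) ^ (m + 1)) ^ (1 - ε') := by
    have e1 : (A.card : ℝ) ^ (((m + 1 : ℕ) : ℝ) - ε / 2) =
        ((A.card : ℝ) ^ (m + 1)) ^ (1 - ε') := by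
      rw [← Real.rpow_natCast (A.card : ℝ) (m + 1), ← Real.rpow_mul hA0.le]
      congr 1
      rw [hε']
      field_simp
    rw [e1]
    calc ((A.card : ℝ) ^ (m + 1)) ^ (1 - ε') ≤ ((2 * (A'.card : ℝ)) ^ (m + 1)) ^ (1 - ε') :=
          Real.rpow_le_rpow (by positivity) (pow_le_pow_left₀ hA0.le hA'c _) (by linarith)
      _ = ((2 : ℝ) ^ (m + 1)) ^ (1 - ε') * ((A'.card : ℝ) ^ (m + 1)) ^ (1 - ε') := by
          rw [mul_pow, Real.mul_rpow (by positivity) (by positivity)]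
      _ ≤ 2 ^ (m + 1) * ((A'.card : ℝ) ^ (m + 1)) ^ (1 - ε') := by
          refine mul_le_mul_of_nonneg_right ?_ (Real.rpow_nonneg (by positivity) _)
          have h5 : (1 : ℝ) ≤ 2 ^ (m + 1) := one_le_pow₀ (by norm_num)
          calc ((2 : ℝ) ^ (m + 1)) ^ (1 - ε') ≤ ((2 : ℝ) ^ (m + 1)) ^ (1 : ℝ) :=
                Real.rpow_le_rpow_of_exponent_le h5 (by linarith)
            _ = 2 ^ (m + 1) := Real.rpow_one _
  have h4 : (A.card : ℝ) ^ (-(ε / 2)) ≤ ((A.card ^ (2 * D) : ℕ) : ℝ) ^ (-η) := by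
    push_cast
    rw [← Real.rpow_natCast (A.card : ℝ) (2 * D), ← Real.rpow_mul hA0.le]
    refine Real.rpow_le_rpow_of_exponent_le hAc ?_
    rw [hη]
    push_cast
    have hD : (0 : ℝ) ≤ D := Nat.cast_nonneg _
    have e : 2 * (D : ℝ) * -(ε / (4 * D + 4)) = -(2 * D * ε / (4 * D + 4)) := by ring
    rw [e, neg_le_neg_iff, div_le_div_iff₀ (by positivity) (by norm_num)]
    nlinarith
  have e2 : (A.card : ℝ) ^ (((m + 1 : ℕ) : ℝ) - ε) =
      (A.card : ℝ) ^ (-(ε / 2)) * (A.card : ℝ) ^ (((m + 1 : ℕ) : ℝ) - ε / 2) := by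
    rw [← Real.rpow_add hA0]
    congr 1
    ring
  rw [e2]
  have h5 : 0 ≤ (A.card : ℝ) ^ (-(ε / 2)) := Real.rpow_nonneg hA0.le _
  calc c / 2 ^ (m + 1) * ((A.card : ℝ) ^ (-(ε / 2)) * (A.card : ℝ) ^ (((m + 1 : ℕ) : ℝ) - ε / 2))
      ≤ c / 2 ^ (m + 1) * (((A.card ^ (2 * D) : ℕ) : ℝ) ^ (-η) *
        (2 ^ (m + 1) * ((A'.card : ℝ) ^ (m + 1)) ^ (1 - ε'))) := by
        refine mul_le_mul_of_nonneg_left ?_ (by positivity)
        exact mul_le_mul h4 h3 (Real.rpow_nonneg hA0.le _) (Real.rpow_nonneg (by positivity) _)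
    _ = c * ((A.card ^ (2 * D) : ℕ) : ℝ) ^ (-η) * ((A'.card : ℝ) ^ (m + 1)) ^ (1 - ε') := by
        field_simp

end Q137.KF
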