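import Mathlib
import Pool.Agent.Y359.PE.Gen2

/-!
# Sets covered by classes of coprime numbers that have few products
-/

set_option autoImplicit false

namespace Q137.KF

open Finset Pool.Agent.Y359.PE
open scoped Classical Pointwise

theorem sharp (k L s : ℕ) (hk : 2 ≤ k) (hL : 2 ≤ L) :
    ∃ (A : Finset ℤ) (𝒮 : Finset (Finset ℤ)), A.card = L ^ (s + 1) ∧ (0 : ℤ) ∉ A ∧
      A ⊆ 𝒮.biUnion id ∧ (∀ S ∈ 𝒮, ∀ a ∈ S, ∀ b ∈ S, a ≠ b → Int.gcd a b = 1) ∧
      L * 𝒮.card ≤ A.card ∧
      ((A ^ k).card : ℝ) ≤ (A.card : ℝ) ^ ((k : ℝ) - Real.log (4 / 3) / Real.log L) := by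
  haveI : NeZero L := ⟨by omega⟩
  set t := s + 1 with ht
  set A : Finset ℤ := (univ : Finset (Fin (s + 1) → Fin L)).image fun f => (el L (s + 1) f : ℤ)
    with hA
  have hinj : Function.Injective fun f : Fin (s + 1) → Fin L => (el L (s + 1) f : ℤ) :=
    fun f g h => el_inj L (s + 1) (by
      have h' : ((el L (s + 1) f : ℕ) : ℤ) = (el L (s + 1) g : ℕ) := h
      exact_mod_cast h')
  have hcard : A.card = L ^ (s + 1) := by
    rw [hA, card_image_of_injective _ hinj, card_univ, Fintype.card_fun, Fintype.card_fin,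
      Fintype.card_fin]
  have hne : ∀ f, el L (s + 1) f ≠ 0 :=
    fun f => prod_ne_zero_iff.2 fun i _ => (pp_prime _ _ _).ne_zero
  set cls : (Fin s → Fin L) → Finset ℤ := fun g => (univ : Finset (Fin L)).image fun c =>
    (el L (s + 1) (Fin.cons c fun i => g i + c) : ℤ) with hcls
  refine ⟨A, (univ : Finset (Fin s → Fin L)).image cls, hcard, ?_, ?_, ?_, ?_, ?_⟩
  · intro h
    obtain ⟨f, _, hf⟩ := mem_image.1 h
    exact hne f (by exact_mod_cast hf)
  · intro a ha
    obtain ⟨f, _, rfl⟩ := mem_image.1 ha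
    rw [mem_biUnion]
    refine ⟨cls fun i => f i.succ - f 0, mem_image_of_mem _ (mem_univ _), ?_⟩
    simp only [hcls, id]
    refine mem_image.2 ⟨f 0, mem_univ _, ?_⟩
    congr 2
    funext i
    refine Fin.cases ?_ (fun j => ?_) i
    · rw [Fin.cons_zero]
    · rw [Fin.cons_succ, sub_add_cancel]
  · intro S hS a ha b hb hab
    obtain ⟨g, _, rfl⟩ := mem_image.1 hS
    simp only [hcls] at ha hb
    obtain ⟨c, _, rfl⟩ := mem_image.1 ha
    obtain ⟨c', _, rfl⟩ := mem_image.1 hb
    have hcc : c ≠ c' := fun h => hab (by rw [h])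
    rw [Int.gcd_natCast_natCast]
    unfold el
    refine Nat.Coprime.prod_left fun i _ => Nat.Coprime.prod_right fun j _ => ?_
    rw [Nat.coprime_primes (pp_prime _ _ _) (pp_prime _ _ _)]
    intro h
    have h1 := pp_inj (Fin.is_lt _) (Fin.is_lt _) h
    have hij : i = j := Fin.ext h1.1
    subst hij
    have h2 := Fin.ext h1.2
    revert h2
    refine Fin.cases ?_ (fun j => ?_) i
    · rw [Fin.cons_zero, Fin.cons_zero]
      exact hcc
    · rw [Fin.cons_succ, Fin.cons_succ]
      intro h3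
      exact hcc (add_left_cancel h3)
  · rw [hcard, pow_succ, _root_.mul_comm]
    refine Nat.mul_le_mul_right _ (card_image_le.trans ?_)
    rw [card_univ, Fintype.card_fun, Fintype.card_fin, Fintype.card_fin]
  · have h1 : A ^ k ⊆ (univ : Finset (Fin (s + 1) → Sym (Fin L) k)).image fun x =>
        ((∏ i : Fin (s + 1), ((x i : Multiset (Fin L)).map fun j : Fin L => pp L i j).prod : ℕ) : ℤ) := by
      intro v hv
      rw [mem_pow] at hv
      obtain ⟨g, hg⟩ := hv
      rw [List.prod_ofFn] at hg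
      have hg' : ∀ m, ∃ f : Fin (s + 1) → Fin L, (el L (s + 1) f : ℤ) = (g m : ℤ) := by
        intro m
        obtain ⟨f, _, hf⟩ := mem_image.1 (g m).2
        exact ⟨f, hf⟩
      choose f hf using hg'
      refine mem_image.2 ⟨fun i => ⟨(univ : Finset (Fin k)).val.map fun m => f m i, by simp⟩,
        mem_univ _, ?_⟩
      have h2 : (∏ m, (g m : ℤ)) = ((∏ m : Fin k, el L (s + 1) (f m) : ℕ) : ℤ) := by
        push_cast
        exact prod_congr rfl fun m _ => (hf m).symm
      rw [← hg, h2]
      congr 1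
      unfold el
      rw [prod_comm]
      refine prod_congr rfl fun i _ => ?_
      simp only [Sym.coe_mk, Multiset.map_map, Function.comp]
      rfl
    have h4 : (A ^ k).card ≤ (Nat.multichoose L k) ^ (s + 1) := by
      refine (card_le_card h1).trans (card_image_le.trans (le_of_eq ?_))
      rw [card_univ, Fintype.card_fun, Fintype.card_fin, Sym.card_sym_eq_multichoose,
        Fintype.card_fin]
    have hLr : (2 : ℝ) ≤ L := by exact_mod_cast hL
    have hl : 0 < Real.log L := Real.log_pos (by linarith)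
    have h5 : ((A ^ k).card : ℝ) ≤ (Nat.multichoose L k : ℝ) ^ (s + 1) := by exact_mod_cast h4
    have h6 : (Nat.multichoose L k : ℝ) ^ (s + 1) ≤ (3 / 4 * (L : ℝ) ^ k) ^ (s + 1) :=
      pow_le_pow_left₀ (by positivity) (multichoose_bound L hL k hk) (s + 1)
    refine h5.trans (h6.trans (le_of_eq ?_))
    rw [hcard]
    push_cast
    have hA' : (0 : ℝ) < (L : ℝ) ^ (s + 1) := by positivity
    rw [Real.rpow_def_of_pos hA', Real.log_pow, ← Real.exp_log (show (0 : ℝ) <
      (3 / 4 * (L : ℝ) ^ k) ^ (s + 1) by positivity), Real.log_pow, Real.log_mul (by norm_num)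
      (by positivity), Real.log_pow]
    congr 1
    have h7 : Real.log (4 / 3) = - Real.log (3 / 4) := by
      rw [← Real.log_inv]
      norm_num
    rw [h7]
    field_simp
    ring

end Q137.KF
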